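import Pool.Agent.W_4d259d_h6.Dc

/-!
# Existence of disc charts
-/

noncomputable section

namespace Pool.Agent.W_4d259d_h6

open Set Filter Topology Manifold TopologicalSpace Metric
open scoped ContDiff
open Pool.Agent.W_4d259d_h46 Pool.Agent.W_4d259d_h46.Defs

variable {R : Type*} [TopologicalSpace R] [ChartedSpace ℂ R]

/-- A homeomorphism of `ℂ` which is analytic with its inverse, composed with a chart. -/
theorem mem_MA_trans {e : OpenPartialHomeomorph R ℂ} (he : e ∈ MA R) (A : ℂ ≃ₜ ℂ)
    (hA : ContDiff ℂ ω A) (hA' : ContDiff ℂ ω A.symm) :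
    e.trans A.toOpenPartialHomeomorph ∈ MA R := by
  have hG : A.toOpenPartialHomeomorph ∈ contDiffGroupoid ω (modelWithCornersSelf ℂ ℂ) := by
    rw [contDiffGroupoid, mem_groupoid_of_pregroupoid]
    simp only [contDiffPregroupoid, Homeomorph.toOpenPartialHomeomorph_apply,
      modelWithCornersSelf_coe, modelWithCornersSelf_coe_symm, Function.id_comp,
      Function.comp_id, preimage_id_eq, id_eq, range_id, inter_univ]
    exact ⟨hA.contDiffOn, hA'.contDiffOn⟩
  intro e' he'
  obtain ⟨h1, h2⟩ := he e' he'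
  constructor
  · have h3 : (e.trans A.toOpenPartialHomeomorph).symm.trans e'
        = A.toOpenPartialHomeomorph.symm.trans (e.symm.trans e') := by
      rw [OpenPartialHomeomorph.trans_symm_eq_symm_trans_symm, OpenPartialHomeomorph.trans_assoc]
    rw [h3]
    exact StructureGroupoid.trans _ (StructureGroupoid.symm _ hG) h1
  · have h3 : e'.symm.trans (e.trans A.toOpenPartialHomeomorph)
        = (e'.symm.trans e).trans A.toOpenPartialHomeomorph := by
      rw [OpenPartialHomeomorph.trans_assoc]
    rw [h3]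
    exact StructureGroupoid.trans _ h2 hG

/-- The affine homeomorphism `z ↦ s (z - a)`. -/
def affH (a : ℂ) (s : ℝ) (hs : s ≠ 0) : ℂ ≃ₜ ℂ where
  toFun z := s * (z - a)
  invFun z := z / s + a
  left_inv z := by
    have : (s : ℂ) ≠ 0 := by exact_mod_cast hs
    field_simp
    ring
  right_inv z := by
    have : (s : ℂ) ≠ 0 := by exact_mod_cast hs
    field_simp
    ring
  continuous_toFun := by fun_prop
  continuous_invFun := by fun_prop

/-- Every point has arbitrarily small disc charts centred at it.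
Proof: restrict `chartAt ℂ p` to the open set `U` (`restr_mem_maximalAtlas`), compose with the
affine map `z ↦ s (z - e p)`, `s` large (a member of `contDiffGroupoid`; membership in the maximal
atlas by `StructureGroupoid.trans`). -/
theorem exists_discChart [IsManifold (modelWithCornersSelf ℂ ℂ) ω R] (p : R) {U : Set R}
    (hU : U ∈ 𝓝 p) : ∃ c : DiscChart R, p ∈ c.e.source ∧ c.e p = 0 ∧ c.e.source ⊆ U := by
  obtain ⟨V, hVU, hVo, hpV⟩ := mem_nhds_iff.1 hU
  let e0 := (chartAt ℂ p).restr V
  have he0 : e0 ∈ MA R := restr_mem_maximalAtlas _ (chart_mem_MA p) hVo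
  have hs0 : e0.source = (chartAt ℂ p).source ∩ V := by
    simp [e0, hVo.interior_eq]
  have hp0 : p ∈ e0.source := by
    rw [hs0]
    exact ⟨mem_chart_source ℂ p, hpV⟩
  obtain ⟨δ, hδ, hb⟩ := Metric.isOpen_iff.1 e0.open_target (e0 p) (e0.map_source hp0)
  have hs : (4 / δ) ≠ 0 := by positivity
  let A := affH (e0 p) (4 / δ) hs
  have hA : ContDiff ℂ ω A := by
    change ContDiff ℂ ω fun z : ℂ => ((4 / δ : ℝ) : ℂ) * (z - e0 p)
    fun_prop
  have hA' : ContDiff ℂ ω A.symm := by
    change ContDiff ℂ ω fun z : ℂ => z / ((4 / δ : ℝ) : ℂ) + e0 p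
    fun_prop
  refine ⟨⟨e0.trans A.toOpenPartialHomeomorph, mem_MA_trans he0 A hA hA', ?_⟩, ?_, ?_, ?_⟩
  · intro z hz
    rw [mem_closedBall_zero_iff] at hz
    simp only [OpenPartialHomeomorph.trans_target, Homeomorph.toOpenPartialHomeomorph_target,
      mem_inter_iff, mem_univ, true_and, mem_preimage]
    refine hb ?_
    have h1 : A.toOpenPartialHomeomorph.symm z = z / ((4 / δ : ℝ) : ℂ) + e0 p := rfl
    rw [h1, mem_ball, dist_eq_norm, add_sub_cancel_right, norm_div, Complex.norm_real,
      Real.norm_of_nonneg (by positivity), div_lt_iff₀ (by positivity)]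
    have h2 : δ * (4 / δ) = 4 := by field_simp
    rw [h2]
    linarith
  · simpa [OpenPartialHomeomorph.trans_source] using hp0
  · change ((4 / δ : ℝ) : ℂ) * (e0 p - e0 p) = 0
    simp
  · intro q hq
    simp only [OpenPartialHomeomorph.trans_source, Homeomorph.toOpenPartialHomeomorph_source,
      preimage_univ, inter_univ] at hq
    rw [hs0] at hq
    exact hVU hq.2

/-- (Compactness and `exists_discChart`.)  Finitely many disc charts whose discs of radius `1/2` cover a compact set. -/
theorem exists_cover [IsManifold (modelWithCornersSelf ℂ ℂ) ω R] {K : Set R} (hK : IsCompact K) :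
    ∃ (m : ℕ) (c : Fin m → DiscChart R), K ⊆ ⋃ i, (c i).op (1 / 2) := by
  have h := fun p : R => exists_discChart p (univ_mem (f := 𝓝 p))
  choose c hc1 hc2 _ using h
  obtain ⟨t, -, ht⟩ := hK.elim_nhds_subcover (fun p => (c p).op (1 / 2)) (fun p _ =>
    ((c p).isOpen_op _).mem_nhds ⟨hc1 p, by rw [hc2 p]; norm_num⟩)
  refine ⟨t.card, fun i => c (t.equivFin.symm i), fun x hx => ?_⟩
  have := ht hx
  rw [mem_iUnion₂] at this
  obtain ⟨p, hp, hx⟩ := this
  rw [mem_iUnion]
  refine ⟨t.equivFin ⟨p, hp⟩, ?_⟩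
  simpa using hx

end Pool.Agent.W_4d259d_h6
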