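import Pool.Agent.W_4d259d_h6.ZerD
import Pool.Agent.W_4d259d_h6.Dc2

/-!
# (ZERO) from (SPLIT)
-/

noncomputable section

namespace Pool.Agent.W_4d259d_h6

open Set Filter Topology Manifold TopologicalSpace Metric MeasureTheory
open scoped ContDiff Real ENNReal
open Pool.Agent.W_4d259d_h46 Pool.Agent.W_4d259d_h46.Defs Pool.Agent.W_4d259d_h44

variable {R : Type*} [TopologicalSpace R] [ChartedSpace ℂ R] [T2Space R]
  [IsManifold (modelWithCornersSelf ℂ ℂ) ω R]

/-- (ZERO): the set of the `p` with a function is open and closed (`exists_move`,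
`exists_discChart`), and contains the points off `W` (`q = 1`). -/
theorem exists_OZ [ConnectedSpace R] [NoncompactSpace R] (hS : SplitProp R) (W : Opens R)
    (hW : IsCompact (closure (W : Set R))) (p : R) : ∃ q : R → ℂ, OZ W p q := by
  have hloc : ∀ p : R, ∃ U ∈ 𝓝 p, ∀ p1 ∈ U, ∀ p2 ∈ U, (∃ q, OZ W p1 q) → ∃ q, OZ W p2 q := by
    intro p
    obtain ⟨c, hp, hp0, -⟩ := exists_discChart p (U := univ) univ_mem
    refine ⟨c.op (1 / 8), (c.isOpen_op _).mem_nhds ⟨hp, by rw [hp0, norm_zero]; norm_num⟩, ?_⟩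
    rintro p1 ⟨h1, h1'⟩ p2 ⟨h2, h2'⟩ ⟨q, hq⟩
    rw [← c.e.left_inv h1] at hq
    rw [← c.e.left_inv h2]
    exact exists_move hS c h2' h1' W hW hq
  have hclopen : IsClopen {p : R | ∃ q, OZ W p q} := by
    refine ⟨?_, ?_⟩
    · rw [← isOpen_compl_iff, isOpen_iff_mem_nhds]
      intro p hp
      obtain ⟨U, hU, h⟩ := hloc p
      filter_upwards [hU] with p' hp' hcon
      exact hp (h p' hp' p (mem_of_mem_nhds hU) hcon)
    · rw [isOpen_iff_mem_nhds]
      intro p hp
      obtain ⟨U, hU, h⟩ := hloc p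
      filter_upwards [hU] with p' hp'
      exact h p (mem_of_mem_nhds hU) p' hp' hp
  have hne : {p : R | ∃ q, OZ W p q}.Nonempty := by
    obtain ⟨p0, hp0⟩ : ∃ p0 : R, p0 ∉ W := by
      by_contra hcon
      push Not at hcon
      have h1 : closure (W : Set R) = univ :=
        eq_univ_of_univ_subset (fun x _ => subset_closure (hcon x))
      rw [h1] at hW
      exact noncompact_univ R hW
    exact ⟨p0, fun _ => 1, holOn_const _ _, fun z _ h => absurd h one_ne_zero,
      fun h => absurd h hp0⟩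
  have huniv := hclopen.eq_univ hne
  have : p ∈ {p : R | ∃ q, OZ W p q} := by rw [huniv]; exact mem_univ p
  exact this

theorem zero_of_split [ConnectedSpace R] [NoncompactSpace R] (hS : SplitProp R) {K : Set R}
    (hK : IsCompact K) {p : R} (hp : p ∈ K) : ∃ W : Opens R, K ⊆ W ∧ ∃ q : R → ℂ,
    HolOn ℂ q W ∧ (∀ z ∈ W, q z = 0 → z = p) ∧ SimpleZero q p := by
  have hLC : LocallyCompactSpace R := ChartedSpace.locallyCompactSpace ℂ R
  obtain ⟨V, hV, hKV, hVc⟩ := exists_isOpen_superset_and_isCompact_closure hK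
  obtain ⟨q, hq⟩ := exists_OZ hS ⟨V, hV⟩ hVc p
  exact ⟨⟨V, hV⟩, hKV, q, hq.hol, hq.ne, hq.simple (hKV hp)⟩

end Pool.Agent.W_4d259d_h6
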