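import Pool.Agent.W_4d259d_h6.Spl
import Pool.Agent.W_4d259d_h6.Zer
import Pool.Agent.W_4d259d_h44.Iface

/-!
# Every open Riemann surface is good
-/

noncomputable section

namespace Pool.Agent.W_4d259d_h6

open Set Filter Topology Manifold TopologicalSpace Metric
open scoped ContDiff
open Pool.Agent.W_4d259d_h44

theorem allGood : AllGood := by
  intro R _ _ _ _ _ _ _
  have hS : SplitProp R := fun e he N1 N WA h1 hN hW => split_surface e he N1 N WA h1 hN hW
  exact ⟨hS, fun K hK p hp => zero_of_split hS hK hp⟩

end Pool.Agent.W_4d259d_h6
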