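import Mathlib

/-!
# Abstract solution lemma (section 18 of the proof)

`K f = ∫ f(y) κ(y) dν(y)` on `C(X, ℂ)`, `X` compact.  If `f + K f` is solvable for every `f`, and
every continuous functional which kills all solvable `τ` kills all `κ y`, then every `τ` is
solvable, with a bounded linear solution operator.
-/

noncomputable section

namespace Pool.Agent.W_4d259d_h6

open MeasureTheory Set Filter Topology

variable {X : Type*} [TopologicalSpace X] [CompactSpace X] [SecondCountableTopology X]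
  [MeasurableSpace X] [BorelSpace X]

omit [SecondCountableTopology X] in
/-- Finite rank approximation of the kernel: a finite measurable partition and points. -/
theorem exists_partition {V : Type*} [NormedAddCommGroup V] (κ : C(X, V)) {ε : ℝ} (hε : 0 < ε) :
    ∃ (n : ℕ) (E : Fin n → Set X) (y : Fin n → X), (∀ l, MeasurableSet (E l)) ∧
      (∀ x, ∃! l, x ∈ E l) ∧ ∀ l, ∀ x ∈ E l, ‖κ x - κ (y l)‖ ≤ ε := by
  let U : X → Set X := fun y => {x | ‖κ x - κ y‖ < ε}
  have hUo : ∀ y, IsOpen (U y) := fun y =>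
    isOpen_lt (by fun_prop) continuous_const
  obtain ⟨t, -, ht⟩ := isCompact_univ.elim_nhds_subcover U (fun y _ => (hUo y).mem_nhds (by
    change ‖κ y - κ y‖ < ε
    simpa using hε))
  let e : Fin t.card ≃ t := t.equivFin.symm
  let y : Fin t.card → X := fun l => (e l : X)
  let E : Fin t.card → Set X := fun l => U (y l) \ ⋃ l' ∈ {l' | l' < l}, U (y l')
  refine ⟨t.card, E, y, fun l => ?_, fun x => ?_, fun l x hx => ?_⟩
  · refine (hUo _).measurableSet.diff ?_
    refine MeasurableSet.biUnion (Set.to_countable _) fun l' _ => (hUo _).measurableSet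
  · have h1 : ∃ l, x ∈ U (y l) := by
      have := ht (mem_univ x)
      rw [mem_iUnion₂] at this
      obtain ⟨z, hz, hx⟩ := this
      refine ⟨e.symm ⟨z, hz⟩, ?_⟩
      simpa [y] using hx
    have h2 : ∃ l, x ∈ U (y l) ∧ ∀ l', x ∈ U (y l') → l ≤ l' := by
      let s : Finset (Fin t.card) := by
        classical exact Finset.univ.filter fun l => x ∈ U (y l)
      have hs : s.Nonempty := by
        obtain ⟨l, hl⟩ := h1
        exact ⟨l, by simp [s, hl]⟩
      refine ⟨s.min' hs, ?_, fun l' hl' => s.min'_le l' (by simp [s, hl'])⟩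
      have := s.min'_mem hs
      simpa [s] using this
    obtain ⟨l, hl, hmin⟩ := h2
    refine ⟨l, ⟨hl, ?_⟩, ?_⟩
    · simp only [mem_setOf_eq, mem_iUnion, not_exists]
      intro l' hl' hx
      exact absurd (hmin l' hx) (not_le.2 hl')
    · rintro l' ⟨hl', hn⟩
      refine le_antisymm ?_ (hmin l' hl')
      by_contra hlt
      rw [not_le] at hlt
      refine hn ?_
      simp only [mem_setOf_eq, mem_iUnion]
      exact ⟨l, hlt, hl⟩
  · exact le_of_lt hx.1

variable (ν : Measure X) [IsFiniteMeasure ν]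

theorem integrable_smul {V : Type*} [NormedAddCommGroup V] [NormedSpace ℂ V] (f : C(X, ℂ))
    (κ : C(X, V)) : Integrable (fun y => f y • κ y) ν := by
  have hc : Continuous fun y => f y • κ y := by fun_prop
  exact hc.integrable_of_hasCompactSupport (HasCompactSupport.of_compactSpace _)

/-- The integral operator. -/
def KK (κ : C(X, C(X, ℂ))) : C(X, ℂ) →L[ℂ] C(X, ℂ) :=
  LinearMap.mkContinuous
    { toFun := fun f => ∫ y, f y • κ y ∂ν
      map_add' := by
        intro f g
        rw [← integral_add (integrable_smul ν f κ) (integrable_smul ν g κ)]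
        refine integral_congr_ae (Eventually.of_forall fun y => ?_)
        simp only [ContinuousMap.add_apply]
        rw [add_smul]
      map_smul' := by
        intro c f
        rw [RingHom.id_apply, ← integral_smul]
        refine integral_congr_ae (Eventually.of_forall fun y => ?_)
        simp only [ContinuousMap.smul_apply]
        rw [smul_assoc] }
    (‖κ‖ * ν.real univ) (by
      intro f
      refine (norm_integral_le_of_norm_le_const (C := ‖κ‖ * ‖f‖)
        (Eventually.of_forall fun y => ?_)).trans (le_of_eq (by ring))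
      rw [norm_smul, mul_comm]
      exact mul_le_mul (κ.norm_coe_le_norm y) (f.norm_coe_le_norm y) (norm_nonneg _)
        (norm_nonneg _))

theorem KK_apply (κ : C(X, C(X, ℂ))) (f : C(X, ℂ)) : KK ν κ f = ∫ y, f y • κ y ∂ν := rfl

/-- The functional `f ↦ ∫_E f`. -/
def lam (E : Set X) : C(X, ℂ) →L[ℂ] ℂ :=
  LinearMap.mkContinuous
    { toFun := fun f => ∫ y in E, f y ∂ν
      map_add' := by
        intro f g
        have h : ∀ f : C(X, ℂ), IntegrableOn (fun y => f y) E ν := fun f =>
          (f.continuous.integrable_of_hasCompactSupport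
            (HasCompactSupport.of_compactSpace _)).integrableOn
        rw [← integral_add (h f) (h g)]
        rfl
      map_smul' := by
        intro c f
        rw [RingHom.id_apply, ← integral_smul]
        rfl }
    (ν.real univ) (by
      intro f
      refine (norm_integral_le_of_norm_le_const (C := ‖f‖)
        (Eventually.of_forall fun y => f.norm_coe_le_norm y)).trans ?_
      rw [mul_comm]
      refine mul_le_mul_of_nonneg_right ?_ (norm_nonneg _)
      rw [measureReal_restrict_apply_univ]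
      exact measureReal_mono (subset_univ _))

theorem lam_apply (E : Set X) (f : C(X, ℂ)) : lam ν E f = ∫ y in E, f y ∂ν := rfl

/-- Splitting `K = K1 + K2`, `K1` small, `K2` of finite rank. -/
theorem exists_KK_split (κ : C(X, C(X, ℂ))) {ε : ℝ} (hε : 0 < ε) :
    ∃ (n : ℕ) (E : Fin n → Set X) (y : Fin n → X),
      ‖KK ν κ - ∑ l, (lam ν (E l)).smulRight (κ (y l))‖ ≤ ε * ν.real univ := by
  obtain ⟨n, E, y, hE, hu, hκ⟩ := exists_partition κ hε
  refine ⟨n, E, y, ?_⟩
  refine ContinuousLinearMap.opNorm_le_bound _ (by positivity) fun f => ?_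
  have hi : ∀ g : C(X, ℂ), Integrable (fun y => f y • g) ν := fun g => by
    have hc : Continuous fun y => f y • g := by fun_prop
    exact hc.integrable_of_hasCompactSupport (HasCompactSupport.of_compactSpace _)
  have h1 : (KK ν κ - ∑ l, (lam ν (E l)).smulRight (κ (y l))) f
      = ∑ l, ∫ x in E l, f x • (κ x - κ (y l)) ∂ν := by
    rw [ContinuousLinearMap.sub_apply, KK_apply]
    have h2 : ∫ x, f x • κ x ∂ν = ∑ l, ∫ x in E l, f x • κ x ∂ν := by
      have h3 : (⋃ l, E l) = univ := by
        refine eq_univ_of_forall fun x => ?_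
        obtain ⟨l, hl, -⟩ := hu x
        exact mem_iUnion.2 ⟨l, hl⟩
      rw [← setIntegral_univ (μ := ν) (f := fun x => f x • κ x), ← h3,
        integral_iUnion_fintype hE ?_ fun l => (integrable_smul ν f κ).integrableOn]
      intro l l' hll
      refine Set.disjoint_left.2 fun x hx hx' => hll ?_
      exact (hu x).unique hx hx'
    rw [h2, ContinuousLinearMap.sum_apply, ← Finset.sum_sub_distrib]
    refine Finset.sum_congr rfl fun l _ => ?_
    rw [ContinuousLinearMap.smulRight_apply, lam_apply, ← integral_smul_const,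
      ← integral_sub (integrable_smul ν f κ).integrableOn (hi _).integrableOn]
    refine integral_congr_ae (Eventually.of_forall fun x => ?_)
    simp only
    rw [smul_sub]
  rw [h1]
  have h4 : ∀ l, ‖∫ x in E l, f x • (κ x - κ (y l)) ∂ν‖ ≤ ε * ‖f‖ * ν.real (E l) := by
    intro l
    refine norm_setIntegral_le_of_norm_le_const (measure_lt_top _ _) fun x hx => ?_
    rw [norm_smul, mul_comm]
    exact mul_le_mul (hκ l x hx) (f.norm_coe_le_norm x) (norm_nonneg _) hε.le
  refine (norm_sum_le _ _).trans ((Finset.sum_le_sum fun l _ => h4 l).trans ?_)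
  rw [← Finset.mul_sum]
  have h5 : ∑ l, ν.real (E l) ≤ ν.real univ := by
    rw [← measureReal_iUnion_fintype]
    · exact measureReal_mono (subset_univ _)
    · intro l l' hll
      exact Set.disjoint_left.2 fun x hx hx' => hll ((hu x).unique hx hx')
    · exact hE
  calc ε * ‖f‖ * ∑ l, ν.real (E l) ≤ ε * ‖f‖ * ν.real univ := by gcongr
    _ = ε * ν.real univ * ‖f‖ := by ring

/-- The abstract solution lemma. -/
theorem exists_solution_operator (κ : C(X, C(X, ℂ))) {B : Type*} [NormedAddCommGroup B]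
    [NormedSpace ℂ B] (Sol : Submodule ℂ (B × C(X, ℂ))) (P : C(X, ℂ) →L[ℂ] B)
    (hP : ∀ f, (P f, f + KK ν κ f) ∈ Sol)
    (hk : ∀ μ : C(X, ℂ) →L[ℂ] ℂ, (∀ u τ, (u, τ) ∈ Sol → μ τ = 0) → ∀ y, μ (κ y) = 0) :
    ∃ V : C(X, ℂ) →L[ℂ] B, ∀ τ, (V τ, τ) ∈ Sol := by
  have hε : 0 < 1 / (2 * (ν.real univ + 1)) := by positivity
  obtain ⟨n, E, y, h1⟩ := exists_KK_split ν κ hε
  have h2 : ‖KK ν κ - ∑ l, (lam ν (E l)).smulRight (κ (y l))‖ < 1 := by
    refine h1.trans_lt ?_
    have h0 : 0 ≤ ν.real univ := measureReal_nonneg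
    rw [div_mul_eq_mul_div, div_lt_one (by positivity)]
    linarith
  set K2 : C(X, ℂ) →L[ℂ] C(X, ℂ) := ∑ l, (lam ν (E l)).smulRight (κ (y l)) with hK2
  set K1 := KK ν κ - K2 with hK1
  have h3 : ‖-K1‖ < 1 := by rwa [norm_neg]
  -- `G = (1 + K1)⁻¹`
  let W := Units.oneSub (-K1) h3
  let G : C(X, ℂ) →L[ℂ] C(X, ℂ) := ((W⁻¹ : (C(X, ℂ) →L[ℂ] C(X, ℂ))ˣ) : C(X, ℂ) →L[ℂ] C(X, ℂ))
  have hG : ∀ τ, G τ + K1 (G τ) = τ := by
    intro τ
    have h4 : (W : C(X, ℂ) →L[ℂ] C(X, ℂ)) * G = 1 := W.mul_inv
    have h5 := congrArg (fun A : C(X, ℂ) →L[ℂ] C(X, ℂ) => A τ) h4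
    have h6 : (W : C(X, ℂ) →L[ℂ] C(X, ℂ)) = 1 - -K1 := rfl
    rw [h6] at h5
    simpa using h5
  have hsol : ∀ τ, (P (G τ), τ + K2 (G τ)) ∈ Sol := by
    intro τ
    have h4 := hP (G τ)
    have h5 : G τ + KK ν κ (G τ) = τ + K2 (G τ) := by
      have h6 : KK ν κ (G τ) = K1 (G τ) + K2 (G τ) := by
        rw [hK1, ContinuousLinearMap.sub_apply, sub_add_cancel]
      rw [h6, ← add_assoc, hG]
    rwa [h5] at h4
  have hK2a : ∀ f, K2 f = ∑ l, lam ν (E l) f • κ (y l) := by
    intro f
    rw [hK2, ContinuousLinearMap.sum_apply]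
    rfl
  -- the points `κ (y l)` are solvable
  have hex : ∀ l, ∃ u, (u, κ (y l)) ∈ Sol := by
    intro l
    by_contra hne
    push Not at hne
    let S : Submodule ℂ C(X, ℂ) := Sol.map (LinearMap.snd ℂ B C(X, ℂ))
    have hnS : κ (y l) ∉ S := by
      rintro ⟨⟨u, τ⟩, hm, hτ⟩
      simp only [LinearMap.snd_apply] at hτ
      subst hτ
      exact hne u hm
    obtain ⟨μ, hμ1, hμ2⟩ := Submodule.exists_le_ker_of_notMem hnS
    have hμS : ∀ u τ, (u, τ) ∈ Sol → μ τ = 0 := fun u τ h => hμ2 ⟨(u, τ), h, rfl⟩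
    let μc : C(X, ℂ) →L[ℂ] ℂ := -∑ l, (μ (κ (y l))) • (lam ν (E l)).comp G
    have hμc : ∀ τ, μc τ = μ τ := by
      intro τ
      have h7 := hμS _ _ (hsol τ)
      rw [map_add, hK2a, map_sum] at h7
      simp only [map_smul, smul_eq_mul] at h7
      have h8 : μc τ = -∑ l, μ (κ (y l)) * lam ν (E l) (G τ) := by
        simp only [μc, ContinuousLinearMap.neg_apply, ContinuousLinearMap.sum_apply,
          ContinuousLinearMap.smul_apply, ContinuousLinearMap.comp_apply, smul_eq_mul]
      rw [h8, eq_comm, eq_neg_iff_add_eq_zero, ← h7]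
      congr 1
      exact Finset.sum_congr rfl fun l _ => mul_comm _ _
    have h9 := hk μc (fun u τ h => by rw [hμc]; exact hμS u τ h) (y l)
    rw [hμc] at h9
    exact hμ1 h9
  choose u hu using hex
  refine ⟨P.comp G - ∑ l, ((lam ν (E l)).comp G).smulRight (u l), fun τ => ?_⟩
  have h10 : (∑ l, lam ν (E l) (G τ) • u l, ∑ l, lam ν (E l) (G τ) • κ (y l)) ∈ Sol := by
    have : (∑ l, lam ν (E l) (G τ) • u l, ∑ l, lam ν (E l) (G τ) • κ (y l))
        = ∑ l, lam ν (E l) (G τ) • (u l, κ (y l)) := by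
      rw [Prod.ext_iff]
      constructor
      · rw [Prod.fst_sum]; rfl
      · rw [Prod.snd_sum]; rfl
    rw [this]
    exact Sol.sum_mem fun l _ => Sol.smul_mem _ (hu l)
  have h11 := Sol.sub_mem (hsol τ) h10
  have h12 : ((P.comp G - ∑ l, ((lam ν (E l)).comp G).smulRight (u l)) τ, τ)
      = (P (G τ), τ + K2 (G τ)) -
        (∑ l, lam ν (E l) (G τ) • u l, ∑ l, lam ν (E l) (G τ) • κ (y l)) := by
    rw [Prod.ext_iff]
    constructor
    · simp only [ContinuousLinearMap.sub_apply, ContinuousLinearMap.sum_apply,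
        ContinuousLinearMap.smulRight_apply, ContinuousLinearMap.comp_apply, Prod.fst_sub]
    · simp only [Prod.snd_sub]
      rw [hK2a]
      abel
  rw [h12]
  exact h11

end Pool.Agent.W_4d259d_h6
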