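import Pool.Agent.W_4d259d_h6.Good
import Pool.Agent.W_4d259d_h46.PlD

/-!
# Calculus in the charts of a Riemann surface: `HA` (holomorphic near `p`), `CS n` (of class `C^n` in
the real sense near `p`), `dbarR e u` (coefficient of `∂̄ u` in the chart `e`)
-/

noncomputable section

namespace Pool.Agent.W_4d259d_h6

open Set Filter Topology Manifold TopologicalSpace Metric
open scoped ContDiff
open Pool.Agent.W_4d259d_h46 Pool.Agent.W_4d259d_h46.Defs

variable {R : Type*} [TopologicalSpace R] [ChartedSpace ℂ R]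
variable {F : Type*} [NormedAddCommGroup F] [NormedSpace ℂ F]

/-- The maximal atlas. -/
abbrev MA (R : Type*) [TopologicalSpace R] [ChartedSpace ℂ R] :
    Set (OpenPartialHomeomorph R ℂ) :=
  IsManifold.maximalAtlas (modelWithCornersSelf ℂ ℂ) ω R

/-- `u` is holomorphic near `p`. -/
def HA (u : R → F) (p : R) : Prop :=
  ∀ e ∈ MA R, p ∈ e.source → AnalyticAt ℂ (u ∘ e.symm) (e p)

/-- `u` is of class `C^n` in the real sense at `p`. -/
def CS (n : WithTop ℕ∞) (u : R → F) (p : R) : Prop :=
  ∀ e ∈ MA R, p ∈ e.source → ContDiffAt ℝ n (u ∘ e.symm) (e p)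

/-- The coefficient of `∂̄ u` at `p` in the chart `e`. -/
def dbarR (e : OpenPartialHomeomorph R ℂ) (u : R → F) (p : R) : F :=
  Pl.dbar (u ∘ e.symm) (e p)

/-! ### Transition functions -/

theorem trans_analyticAt {e e' : OpenPartialHomeomorph R ℂ} (he : e ∈ MA R) (he' : e' ∈ MA R)
    {p : R} (hp : p ∈ e.source) (hp' : p ∈ e'.source) : AnalyticAt ℂ (e' ∘ e.symm) (e p) := by
  have h1 : ContMDiffAt (modelWithCornersSelf ℂ ℂ) (modelWithCornersSelf ℂ ℂ) ω
      (e' ∘ e.symm) (e p) := by
    refine ContMDiffAt.comp (e p) (I' := modelWithCornersSelf ℂ ℂ) ?_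
      (contMDiffAt_symm_of_mem_maximalAtlas he (e.map_source hp))
    rw [e.left_inv hp]
    exact contMDiffAt_of_mem_maximalAtlas he' hp'
  rw [contMDiffAt_iff_contDiffAt] at h1
  exact h1.analyticAt

/-- The derivative of a transition function does not vanish. -/
theorem trans_deriv_ne {e e' : OpenPartialHomeomorph R ℂ} (he : e ∈ MA R) (he' : e' ∈ MA R)
    {p : R} (hp : p ∈ e.source) (hp' : p ∈ e'.source) : deriv (e' ∘ e.symm) (e p) ≠ 0 := by
  have h1 := (trans_analyticAt he he' hp hp').differentiableAt.hasDerivAt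
  have h2 := (trans_analyticAt he' he hp' hp).differentiableAt.hasDerivAt
  have h3 : (e' ∘ e.symm) (e p) = e' p := by simp [e.left_inv hp]
  rw [← h3] at h2
  have h4 := h2.comp (e p) h1
  have h5 : (e ∘ e'.symm) ∘ (e' ∘ e.symm) =ᶠ[𝓝 (e p)] id := by
    have h6 : ∀ᶠ z in 𝓝 (e p), z ∈ e.target ∧ e.symm z ∈ e'.source := by
      refine (e.open_target.eventually_mem (e.map_source hp)).and ?_
      have := (e.continuousAt_symm (e.map_source hp)).preimage_mem_nhds
        (e'.open_source.mem_nhds (by rw [e.left_inv hp]; exact hp'))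
      exact this
    filter_upwards [h6] with z hz
    simp only [Function.comp_apply, id]
    rw [e'.left_inv hz.2, e.right_inv hz.1]
  have h7 := h4.congr_of_eventuallyEq h5.symm
  have h8 := h7.unique (hasDerivAt_id (e p))
  intro h0
  rw [h0, mul_zero] at h8
  exact zero_ne_one h8

/-- `u ∘ e'⁻¹ = (u ∘ e⁻¹) ∘ (e ∘ e'⁻¹)` near `e' p`. -/
theorem comp_symm_eventuallyEq {α : Type*} (u : R → α) {e e' : OpenPartialHomeomorph R ℂ} {p : R}
    (hp : p ∈ e.source) (hp' : p ∈ e'.source) :
    u ∘ e'.symm =ᶠ[𝓝 (e' p)] (u ∘ e.symm) ∘ (e ∘ e'.symm) := by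
  have := (e'.continuousAt_symm (e'.map_source hp')).preimage_mem_nhds
    (e.open_source.mem_nhds (by rw [e'.left_inv hp']; exact hp))
  filter_upwards [this] with z hz
  simp only [Function.comp_apply]
  rw [e.left_inv hz]

theorem HA.of_chart {u : R → F} {e : OpenPartialHomeomorph R ℂ} (he : e ∈ MA R) {p : R}
    (hp : p ∈ e.source) (h : AnalyticAt ℂ (u ∘ e.symm) (e p)) : HA u p := by
  intro e' he' hp'
  refine AnalyticAt.congr ?_ (comp_symm_eventuallyEq u hp hp').symm
  refine AnalyticAt.comp ?_ (trans_analyticAt he' he hp' hp)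
  simpa [e'.left_inv hp'] using h

theorem CS.of_chart {n : WithTop ℕ∞} {u : R → F} {e : OpenPartialHomeomorph R ℂ} (he : e ∈ MA R)
    {p : R} (hp : p ∈ e.source) (h : ContDiffAt ℝ n (u ∘ e.symm) (e p)) : CS n u p := by
  intro e' he' hp'
  refine ContDiffAt.congr_of_eventuallyEq ?_ (comp_symm_eventuallyEq u hp hp')
  refine ContDiffAt.comp _ ?_ ((trans_analyticAt he' he hp' hp).restrictScalars.contDiffAt)
  simpa [e'.left_inv hp'] using h

/-! ### Germs -/

theorem comp_symm_congr {α : Type*} {u v : R → α} {e : OpenPartialHomeomorph R ℂ} {p : R}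
    (hp : p ∈ e.source) (h : u =ᶠ[𝓝 p] v) : u ∘ e.symm =ᶠ[𝓝 (e p)] v ∘ e.symm := by
  have h1 : Tendsto e.symm (𝓝 (e p)) (𝓝 p) := by
    have := e.continuousAt_symm (e.map_source hp)
    rwa [ContinuousAt, e.left_inv hp] at this
  exact h1.eventually h

theorem HA.congr {u v : R → F} {p : R} (hu : HA u p) (h : u =ᶠ[𝓝 p] v) : HA v p :=
  fun e he hp => (hu e he hp).congr (comp_symm_congr hp h)

theorem CS.congr {n : WithTop ℕ∞} {u v : R → F} {p : R} (hu : CS n u p) (h : u =ᶠ[𝓝 p] v) :
    CS n v p :=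
  fun e he hp => (hu e he hp).congr_of_eventuallyEq (comp_symm_congr hp h.symm)

theorem dbarR_congr {e : OpenPartialHomeomorph R ℂ} {u v : R → F} {p : R} (hp : p ∈ e.source)
    (h : u =ᶠ[𝓝 p] v) : dbarR e u p = dbarR e v p :=
  Pl.dbar_congr (comp_symm_congr hp h)

/-! ### Algebra -/

theorem HA.const (c : F) (p : R) : HA (fun _ => c) p := fun _ _ _ => analyticAt_const

theorem HA.add {u v : R → F} {p : R} (hu : HA u p) (hv : HA v p) : HA (fun q => u q + v q) p :=
  fun e he hp => (hu e he hp).add (hv e he hp)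

theorem HA.sub {u v : R → F} {p : R} (hu : HA u p) (hv : HA v p) : HA (fun q => u q - v q) p :=
  fun e he hp => (hu e he hp).sub (hv e he hp)

theorem HA.neg {u : R → F} {p : R} (hu : HA u p) : HA (fun q => - u q) p :=
  fun e he hp => (hu e he hp).neg

theorem HA.smul {l : R → ℂ} {u : R → F} {p : R} (hl : HA l p) (hu : HA u p) :
    HA (fun q => l q • u q) p :=
  fun e he hp => (hl e he hp).smul (hu e he hp)

theorem HA.mul {u v : R → ℂ} {p : R} (hu : HA u p) (hv : HA v p) : HA (fun q => u q * v q) p :=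
  fun e he hp => (hu e he hp).mul (hv e he hp)

theorem HA.inv {u : R → ℂ} {p : R} (hu : HA u p) (h0 : u p ≠ 0) : HA (fun q => (u q)⁻¹) p :=
  fun e he hp => (hu e he hp).inv (by simpa [e.left_inv hp] using h0)

theorem HA.exp {u : R → ℂ} {p : R} (hu : HA u p) : HA (fun q => Complex.exp (u q)) p :=
  fun e he hp => (hu e he hp).cexp

theorem HA.sum {ι : Type*} {s : Finset ι} {u : ι → R → F} {p : R} (hu : ∀ i ∈ s, HA (u i) p) :
    HA (fun q => ∑ i ∈ s, u i q) p := by
  intro e he hp
  have := Finset.analyticAt_fun_sum s (f := fun i => u i ∘ e.symm) (fun i hi => hu i hi e he hp)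
  exact this

theorem CS.const (n : WithTop ℕ∞) (c : F) (p : R) : CS n (fun _ => c) p :=
  fun _ _ _ => contDiffAt_const

theorem CS.add {n : WithTop ℕ∞} {u v : R → F} {p : R} (hu : CS n u p) (hv : CS n v p) :
    CS n (fun q => u q + v q) p := fun e he hp => (hu e he hp).add (hv e he hp)

theorem CS.sub {n : WithTop ℕ∞} {u v : R → F} {p : R} (hu : CS n u p) (hv : CS n v p) :
    CS n (fun q => u q - v q) p := fun e he hp => (hu e he hp).sub (hv e he hp)

theorem CS.smul {n : WithTop ℕ∞} {l : R → ℂ} {u : R → F} {p : R} (hl : CS n l p)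
    (hu : CS n u p) : CS n (fun q => l q • u q) p :=
  fun e he hp => (hl e he hp).smul (hu e he hp)

theorem CS.mul {n : WithTop ℕ∞} {u v : R → ℂ} {p : R} (hu : CS n u p) (hv : CS n v p) :
    CS n (fun q => u q * v q) p := fun e he hp => (hu e he hp).mul (hv e he hp)

theorem CS.sum {ι : Type*} {n : WithTop ℕ∞} {s : Finset ι} {u : ι → R → F} {p : R}
    (hu : ∀ i ∈ s, CS n (u i) p) : CS n (fun q => ∑ i ∈ s, u i q) p := by
  intro e he hp
  have := ContDiffAt.sum (f := fun i => u i ∘ e.symm) (s := s) (fun i hi => hu i hi e he hp)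
  convert! this using 1

theorem HA.cs [CompleteSpace F] {u : R → F} {p : R} (hu : HA u p) (n : WithTop ℕ∞) : CS n u p :=
  fun e he hp => (hu e he hp).restrictScalars.contDiffAt

theorem CS.of_le {m n : WithTop ℕ∞} {u : R → F} {p : R} (hu : CS n u p) (h : m ≤ n) : CS m u p :=
  fun e he hp => (hu e he hp).of_le h

/-! ### Composition with a chart -/

theorem HA.comp_chart {f : ℂ → F} {e : OpenPartialHomeomorph R ℂ} (he : e ∈ MA R) {p : R}
    (hp : p ∈ e.source) (h : AnalyticAt ℂ f (e p)) : HA (fun q => f (e q)) p := by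
  refine HA.of_chart he hp (h.congr ?_)
  filter_upwards [e.open_target.eventually_mem (e.map_source hp)] with z hz
  simp only [Function.comp_apply]
  rw [e.right_inv hz]

theorem CS.comp_chart {n : WithTop ℕ∞} {f : ℂ → F} {e : OpenPartialHomeomorph R ℂ} (he : e ∈ MA R)
    {p : R} (hp : p ∈ e.source) (h : ContDiffAt ℝ n f (e p)) : CS n (fun q => f (e q)) p := by
  refine CS.of_chart he hp (h.congr_of_eventuallyEq ?_)
  filter_upwards [e.open_target.eventually_mem (e.map_source hp)] with z hz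
  simp only [Function.comp_apply]
  rw [e.right_inv hz]

/-! ### Relation to `HolOn` -/

variable [IsManifold (modelWithCornersSelf ℂ ℂ) ω R]

theorem tendsto_symm {e : OpenPartialHomeomorph R ℂ} {p : R} (hp : p ∈ e.source) :
    Tendsto e.symm (𝓝 (e p)) (𝓝 p) := by
  have := e.continuousAt_symm (e.map_source hp)
  rwa [ContinuousAt, e.left_inv hp] at this

/-- Continuity at `p` from continuity in the chart. -/
theorem continuousAt_of_symm {α : Type*} [TopologicalSpace α] {u : R → α}
    {e : OpenPartialHomeomorph R ℂ} {p : R} (hp : p ∈ e.source)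
    (h : ContinuousAt (u ∘ e.symm) (e p)) : ContinuousAt u p := by
  have h1 : ContinuousAt ((u ∘ e.symm) ∘ e) p := h.comp (e.continuousAt hp)
  refine h1.congr ?_
  filter_upwards [e.open_source.mem_nhds hp] with q hq
  simp only [Function.comp_apply]
  rw [e.left_inv hq]

theorem mem_MA_one {e : OpenPartialHomeomorph R ℂ} (he : e ∈ MA R) :
    e ∈ IsManifold.maximalAtlas (modelWithCornersSelf ℂ ℂ) 1 R :=
  IsManifold.maximalAtlas_subset_of_le le_top he

theorem chart_mem_MA (p : R) : chartAt ℂ p ∈ MA R := IsManifold.chart_mem_maximalAtlas p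

/-- Complex differentiability at `p` in a chart. -/
theorem mdifferentiableAt_iff_chart {u : R → F} {e : OpenPartialHomeomorph R ℂ} (he : e ∈ MA R)
    {p : R} (hp : p ∈ e.source) :
    MDifferentiableAt (modelWithCornersSelf ℂ ℂ) (modelWithCornersSelf ℂ F) u p ↔
      DifferentiableAt ℂ (u ∘ e.symm) (e p) := by
  haveI : IsManifold (modelWithCornersSelf ℂ ℂ) 1 R := IsManifold.of_le (n := ω) le_top
  rw [← mdifferentiableWithinAt_univ,
    mdifferentiableWithinAt_iff_of_mem_maximalAtlas (mem_MA_one he)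
      (IsManifold.chart_mem_maximalAtlas (u p)) hp (mem_chart_source F (u p))]
  simp only [continuousWithinAt_univ, OpenPartialHomeomorph.extend, modelWithCornersSelf_coe,
    modelWithCornersSelf_partialEquiv, PartialEquiv.trans_refl, chartAt_self_eq,
    OpenPartialHomeomorph.refl_partialEquiv, preimage_univ, range_id, inter_univ,
    differentiableWithinAt_univ]
  constructor
  · intro h
    exact h.2
  · intro h
    exact ⟨continuousAt_of_symm hp h.continuousAt, h⟩

theorem HA.mdifferentiableAt {u : R → F} {p : R} (h : HA u p) :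
    MDifferentiableAt (modelWithCornersSelf ℂ ℂ) (modelWithCornersSelf ℂ F) u p :=
  (mdifferentiableAt_iff_chart (chart_mem_MA p) (mem_chart_source ℂ p)).2
    (h _ (chart_mem_MA p) (mem_chart_source ℂ p)).differentiableAt

theorem HA.eventually [CompleteSpace F] {u : R → F} {p : R} (h : HA u p) :
    ∀ᶠ q in 𝓝 p, HA u q := by
  have h1 := (h _ (chart_mem_MA p) (mem_chart_source ℂ p)).eventually_analyticAt
  have h2 := ((chartAt ℂ p).continuousAt (mem_chart_source ℂ p)).eventually h1
  filter_upwards [h2, (chartAt ℂ p).open_source.mem_nhds (mem_chart_source ℂ p)] with q hq hqs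
  exact HA.of_chart (chart_mem_MA p) hqs hq

theorem CS.eventually {n : ℕ∞} (hn : n ≠ ⊤) {u : R → F} {p : R} (h : CS n u p) :
    ∀ᶠ q in 𝓝 p, CS n u q := by
  have h1 := (h _ (chart_mem_MA p) (mem_chart_source ℂ p)).eventually (by simp [hn])
  have h2 := ((chartAt ℂ p).continuousAt (mem_chart_source ℂ p)).eventually h1
  filter_upwards [h2, (chartAt ℂ p).open_source.mem_nhds (mem_chart_source ℂ p)] with q hq hqs
  exact CS.of_chart (chart_mem_MA p) hqs hq

theorem HA.continuousAt {u : R → F} {p : R} (h : HA u p) : ContinuousAt u p :=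
  continuousAt_of_symm (mem_chart_source ℂ p)
    (h _ (chart_mem_MA p) (mem_chart_source ℂ p)).continuousAt

theorem CS.continuousAt {n : WithTop ℕ∞} {u : R → F} {p : R} (h : CS n u p) :
    ContinuousAt u p :=
  continuousAt_of_symm (mem_chart_source ℂ p)
    (h _ (chart_mem_MA p) (mem_chart_source ℂ p)).continuousAt

theorem holOn_iff_HA [CompleteSpace F] {u : R → F} {U : Set R} (hU : IsOpen U) :
    HolOn F u U ↔ ∀ p ∈ U, HA u p := by
  constructor
  · intro h p hp
    refine HA.of_chart (chart_mem_MA p) (mem_chart_source ℂ p) ?_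
    rw [Complex.analyticAt_iff_eventually_differentiableAt]
    have h1 : ∀ᶠ q in 𝓝 p, DifferentiableAt ℂ (u ∘ (chartAt ℂ p).symm) (chartAt ℂ p q) := by
      filter_upwards [hU.mem_nhds hp, (chartAt ℂ p).open_source.mem_nhds (mem_chart_source ℂ p)]
        with q hq hqs
      exact (mdifferentiableAt_iff_chart (chart_mem_MA p) hqs).1
        (h.mdifferentiableAt (hU.mem_nhds hq))
    have h2 := (tendsto_symm (mem_chart_source ℂ p)).eventually h1
    filter_upwards [h2, (chartAt ℂ p).open_target.mem_nhds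
      ((chartAt ℂ p).map_source (mem_chart_source ℂ p))] with z hz hzt
    rwa [(chartAt ℂ p).right_inv hzt] at hz
  · intro h p hp
    exact (h p hp).mdifferentiableAt.mdifferentiableWithinAt

/-! ### `∂̄` -/

omit [TopologicalSpace R] [ChartedSpace ℂ R] [IsManifold (modelWithCornersSelf ℂ ℂ) ω R] in
/-- Chain rule for `∂̄` and a holomorphic change of the variable. -/
theorem dbar_comp {u : ℂ → F} {φ : ℂ → ℂ} {z : ℂ} (hu : DifferentiableAt ℝ u (φ z))
    (hφ : DifferentiableAt ℂ φ z) :
    Pl.dbar (u ∘ φ) z = (starRingEnd ℂ) (deriv φ z) • Pl.dbar u (φ z) := by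
  have h1 : HasFDerivAt φ ((ContinuousLinearMap.toSpanSingleton ℂ
      (deriv φ z)).restrictScalars ℝ) z := by
    have := hφ.hasDerivAt.hasFDerivAt.restrictScalars ℝ
    exact this
  have h2 : fderiv ℝ (u ∘ φ) z = (fderiv ℝ u (φ z)).comp ((ContinuousLinearMap.toSpanSingleton ℂ
      (deriv φ z)).restrictScalars ℝ) := (hu.hasFDerivAt.comp z h1).fderiv
  set d := deriv φ z with hd
  set L := fderiv ℝ u (φ z) with hL
  have hlin : ∀ a b : ℝ, L ((a : ℂ) + (b : ℂ) * Complex.I)
      = (a : ℂ) • L 1 + (b : ℂ) • L Complex.I := by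
    intro a b
    have h3 : ((a : ℂ) + (b : ℂ) * Complex.I) = a • (1 : ℂ) + b • Complex.I := by simp
    rw [h3, map_add, map_smul, map_smul, Complex.coe_smul, Complex.coe_smul]
  have h4 : fderiv ℝ (u ∘ φ) z 1 = (d.re : ℂ) • L 1 + (d.im : ℂ) • L Complex.I := by
    rw [h2, ← hlin, Complex.re_add_im]
    simp
  have h5 : fderiv ℝ (u ∘ φ) z Complex.I = ((-d.im : ℝ) : ℂ) • L 1 + (d.re : ℂ) • L Complex.I := by
    rw [h2, ← hlin]
    have h6 : ((-d.im : ℝ) : ℂ) + (d.re : ℂ) * Complex.I = Complex.I * d := by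
      conv_rhs => rw [← Complex.re_add_im d]
      rw [mul_add, mul_left_comm, Complex.I_mul_I]
      push_cast
      ring
    rw [h6]
    simp
  have h7 : (starRingEnd ℂ) d = (d.re : ℂ) - (d.im : ℂ) * Complex.I := by
    apply Complex.ext <;> simp
  unfold Pl.dbar
  rw [h4, h5, h7]
  have hI : Complex.I * Complex.I = -1 := Complex.I_mul_I
  rw [smul_comm ((d.re : ℂ) - (d.im : ℂ) * Complex.I) ((2 : ℂ)⁻¹)]
  congr 1
  rw [smul_add, smul_add, smul_smul, smul_smul, smul_smul, sub_smul, sub_mul, sub_smul]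
  have e1 : Complex.I * ((-d.im : ℝ) : ℂ) = -((d.im : ℂ) * Complex.I) := by push_cast; ring
  have e2 : (d.im : ℂ) * Complex.I * Complex.I = -(d.im : ℂ) := by rw [mul_assoc, hI]; ring
  have e3 : Complex.I * (d.re : ℂ) = (d.re : ℂ) * Complex.I := mul_comm _ _
  rw [e1, e2, e3, neg_smul, neg_smul]
  abel

theorem CS.differentiableAt {u : R → F} {p : R} (hu : CS 1 u p) {e : OpenPartialHomeomorph R ℂ}
    (he : e ∈ MA R) (hp : p ∈ e.source) : DifferentiableAt ℝ (u ∘ e.symm) (e p) :=
  (hu e he hp).differentiableAt (by norm_num)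

theorem dbarR_trans {e e' : OpenPartialHomeomorph R ℂ} (he : e ∈ MA R) (he' : e' ∈ MA R) {p : R}
    (hp : p ∈ e.source) (hp' : p ∈ e'.source) {u : R → F} (hu : CS 1 u p) :
    dbarR e' u p = (starRingEnd ℂ) (deriv (e ∘ e'.symm) (e' p)) • dbarR e u p := by
  have h3 : (e ∘ e'.symm) (e' p) = e p := by simp [e'.left_inv hp']
  unfold dbarR
  rw [Pl.dbar_congr (comp_symm_eventuallyEq u hp hp'), dbar_comp (by
    rw [h3]; exact hu.differentiableAt he hp) (trans_analyticAt he' he hp' hp).differentiableAt, h3]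

/-- `∂̄` of `f ∘ e` in the chart `e`. -/
theorem dbarR_comp_chart {e : OpenPartialHomeomorph R ℂ} {p : R} (hp : p ∈ e.source) (f : ℂ → F) :
    dbarR e (fun q => f (e q)) p = Pl.dbar f (e p) := by
  refine Pl.dbar_congr ?_
  filter_upwards [e.open_target.eventually_mem (e.map_source hp)] with z hz
  simp only [Function.comp_apply]
  rw [e.right_inv hz]

theorem dbarR_of_HA {e : OpenPartialHomeomorph R ℂ} (he : e ∈ MA R) {p : R} (hp : p ∈ e.source)
    {u : R → F} (hu : HA u p) : dbarR e u p = 0 :=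
  Pl.dbar_eq_zero (hu e he hp).differentiableAt

omit [TopologicalSpace R] [ChartedSpace ℂ R] [IsManifold (modelWithCornersSelf ℂ ℂ) ω R] in
theorem dbar_sub {u v : ℂ → F} {z : ℂ} (hu : DifferentiableAt ℝ u z)
    (hv : DifferentiableAt ℝ v z) : Pl.dbar (fun w => u w - v w) z = Pl.dbar u z - Pl.dbar v z := by
  unfold Pl.dbar
  rw [fderiv_fun_sub hu hv]
  simp only [ContinuousLinearMap.sub_apply, smul_add, smul_sub]
  abel

theorem dbarR_sub {e : OpenPartialHomeomorph R ℂ} (he : e ∈ MA R) {p : R} (hp : p ∈ e.source)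
    {u v : R → F} (hu : CS 1 u p) (hv : CS 1 v p) :
    dbarR e (fun q => u q - v q) p = dbarR e u p - dbarR e v p :=
  dbar_sub (hu.differentiableAt he hp) (hv.differentiableAt he hp)

theorem dbarR_add {e : OpenPartialHomeomorph R ℂ} (he : e ∈ MA R) {p : R} (hp : p ∈ e.source)
    {u v : R → F} (hu : CS 1 u p) (hv : CS 1 v p) :
    dbarR e (fun q => u q + v q) p = dbarR e u p + dbarR e v p :=
  Pl.dbar_add (hu.differentiableAt he hp) (hv.differentiableAt he hp)

theorem dbarR_const {e : OpenPartialHomeomorph R ℂ} (c : F) (p : R) :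
    dbarR e (fun _ => c) p = 0 :=
  Pl.dbar_eq_zero (differentiableAt_const c)

theorem dbarR_sum {ι : Type*} {s : Finset ι} {e : OpenPartialHomeomorph R ℂ} (he : e ∈ MA R)
    {p : R} (hp : p ∈ e.source) {u : ι → R → F} (hu : ∀ i ∈ s, CS 1 (u i) p) :
    dbarR e (fun q => ∑ i ∈ s, u i q) p = ∑ i ∈ s, dbarR e (u i) p := by
  classical
  induction s using Finset.induction_on with
  | empty => simpa using dbarR_const (0 : F) p
  | insert a s ha ih =>
    rw [Finset.sum_insert ha]
    have h1 : (fun q => ∑ i ∈ insert a s, u i q) = fun q => u a q + ∑ i ∈ s, u i q := by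
      funext q
      rw [Finset.sum_insert ha]
    rw [h1, dbarR_add he hp (hu a (Finset.mem_insert_self a s))
      (CS.sum fun i hi => hu i (Finset.mem_insert_of_mem hi)),
      ih fun i hi => hu i (Finset.mem_insert_of_mem hi)]

theorem dbarR_mul {e : OpenPartialHomeomorph R ℂ} (he : e ∈ MA R) {p : R} (hp : p ∈ e.source)
    {u v : R → ℂ} (hu : CS 1 u p) (hv : CS 1 v p) :
    dbarR e (fun q => u q * v q) p = u p * dbarR e v p + dbarR e u p * v p := by
  have h := Pl.dbar_smul (hu.differentiableAt he hp) (hv.differentiableAt he hp)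
  simp only [Function.comp_apply, e.left_inv hp, smul_eq_mul] at h
  exact h

/-- `∂̄ u` is smooth if `u` is smooth. -/
theorem CS.dbarR {e : OpenPartialHomeomorph R ℂ} (he : e ∈ MA R) {p : R} (hp : p ∈ e.source)
    {u : R → F} (hu : CS ∞ u p) : CS ∞ (dbarR e u) p := by
  refine CS.of_chart he hp ?_
  have h1 : ContDiffAt ℝ ∞ (fderiv ℝ (u ∘ e.symm)) (e p) :=
    (hu e he hp).fderiv_right (by simp)
  have h2 : ContDiffAt ℝ ∞ (Pl.dbar (u ∘ e.symm)) (e p) := by
    unfold Pl.dbar
    exact ((h1.clm_apply contDiffAt_const).add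
      ((h1.clm_apply contDiffAt_const).const_smul Complex.I)).const_smul _
  refine h2.congr_of_eventuallyEq ?_
  filter_upwards [e.open_target.eventually_mem (e.map_source hp)] with z hz
  simp only [Function.comp_apply, W_4d259d_h6.dbarR]
  rw [e.right_inv hz]

/-- If `∂̄ u = 0` near `p` then `u` is holomorphic near `p`. -/
theorem HA.of_dbarR [CompleteSpace F] {e : OpenPartialHomeomorph R ℂ} (he : e ∈ MA R) {p : R}
    (hp : p ∈ e.source) {u : R → F} (hu : CS 1 u p) (h : ∀ᶠ q in 𝓝 p, dbarR e u q = 0) :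
    HA u p := by
  refine HA.of_chart he hp ?_
  rw [Complex.analyticAt_iff_eventually_differentiableAt]
  have h1 := (hu e he hp).eventually (by simp)
  have h2 := (tendsto_symm hp).eventually h
  filter_upwards [h1, h2, e.open_target.eventually_mem (e.map_source hp)] with z hz1 hz2 hz3
  refine Pl.differentiableAt_of_dbar (hz1.differentiableAt (by norm_num)) ?_
  rw [dbarR, e.right_inv hz3] at hz2
  exact hz2

end Pool.Agent.W_4d259d_h6
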