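import Pool.Agent.W_4d259d_h6.Ch

/-!
# Disc charts: closed discs, lifts of planar functions, existence
-/

noncomputable section

namespace Pool.Agent.W_4d259d_h6

open Set Filter Topology Manifold TopologicalSpace Metric
open scoped ContDiff
open Pool.Agent.W_4d259d_h46 Pool.Agent.W_4d259d_h46.Defs

variable {R : Type*} [TopologicalSpace R] [ChartedSpace ℂ R]
variable {F : Type*} [NormedAddCommGroup F] [NormedSpace ℂ F]

namespace DiscChart

/-- The closed disc of radius `r`. -/
def cl (c : DiscChart R) (r : ℝ) : Set R := {p | p ∈ c.e.source ∧ ‖c.e p‖ ≤ r}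

/-- The open disc of radius `r`. -/
def op (c : DiscChart R) (r : ℝ) : Set R := {p | p ∈ c.e.source ∧ ‖c.e p‖ < r}

theorem isOpen_op (c : DiscChart R) (r : ℝ) : IsOpen (c.op r) := by
  have := c.e.isOpen_inter_preimage (isOpen_ball (x := (0 : ℂ)) (ε := r))
  convert this using 1
  ext p
  simp [op]

/-- `cl r = e⁻¹(closedBall 0 r)` as an image. -/
theorem cl_eq (c : DiscChart R) {r : ℝ} (hr : r ≤ 3) :
    c.cl r = c.e.symm '' closedBall (0 : ℂ) r := by
  ext p
  constructor
  · rintro ⟨hp, hpr⟩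
    exact ⟨c.e p, mem_closedBall_zero_iff.2 hpr, c.e.left_inv hp⟩
  · rintro ⟨z, hz, rfl⟩
    have hz' := mem_closedBall_zero_iff.1 hz
    have h := c.sub (mem_closedBall_zero_iff.2 (hz'.trans hr))
    refine ⟨c.e.map_target h, ?_⟩
    rw [c.e.right_inv h]
    exact hz'

theorem isCompact_cl (c : DiscChart R) {r : ℝ} (hr : r ≤ 3) : IsCompact (c.cl r) := by
  rw [c.cl_eq hr]
  exact (isCompact_closedBall (0 : ℂ) r).image_of_continuousOn
    (c.e.symm.continuousOn.mono ((closedBall_subset_closedBall hr).trans c.sub))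

theorem isClosed_cl [T2Space R] (c : DiscChart R) {r : ℝ} (hr : r ≤ 3) : IsClosed (c.cl r) := by
  exact (c.isCompact_cl hr).isClosed

theorem symm_mem (c : DiscChart R) {z : ℂ} (hz : ‖z‖ ≤ 3) :
    c.e.symm z ∈ c.e.source ∧ c.e (c.e.symm z) = z := by
  have h := c.sub (mem_closedBall_zero_iff.2 hz)
  exact ⟨c.e.map_target h, c.e.right_inv h⟩

/-- A planar function vanishing off `closedBall 0 3`, transported to `R` (zero off the chart). -/
def lift (c : DiscChart R) (φ : ℂ → F) (p : R) : F :=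
  open Classical in if p ∈ c.e.source then φ (c.e p) else 0

theorem lift_of_mem (c : DiscChart R) (φ : ℂ → F) {p : R} (hp : p ∈ c.e.source) :
    c.lift φ p = φ (c.e p) := by simp [lift, hp]

theorem lift_off (c : DiscChart R) {φ : ℂ → F} {r : ℝ} (hφ : ∀ z, r < ‖z‖ → φ z = 0) {p : R}
    (hp : p ∉ c.cl r) : c.lift φ p = 0 := by
  by_cases h : p ∈ c.e.source
  · rw [c.lift_of_mem φ h]
    apply hφ
    by_contra hcon
    exact hp ⟨h, not_lt.1 hcon⟩
  · simp [lift, h]

/-- Lifts of smooth functions are smooth: near a point of the chart `lift φ = φ ∘ e`, off the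
closed set `cl r` it is `0`. -/
theorem lift_cs [T2Space R] (c : DiscChart R) {n : WithTop ℕ∞} {φ : ℂ → F} {r : ℝ} (hr : r ≤ 3)
    (hφ : ContDiff ℝ n φ) (h0 : ∀ z, r < ‖z‖ → φ z = 0) (p : R) : CS n (c.lift φ) p := by
  by_cases hp : p ∈ c.cl r
  · refine CS.of_chart c.mem hp.1 ?_
    refine hφ.contDiffAt.congr_of_eventuallyEq ?_
    filter_upwards [c.e.open_target.eventually_mem (c.e.map_source hp.1)] with z hz
    simp only [Function.comp_apply]
    rw [c.lift_of_mem φ (c.e.map_target hz), c.e.right_inv hz]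
  · refine CS.congr (CS.const n (0 : F) p) ?_
    filter_upwards [(c.isClosed_cl hr).isOpen_compl.mem_nhds hp] with q hq
    exact (c.lift_off h0 hq).symm

end DiscChart

end Pool.Agent.W_4d259d_h6
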