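import Pool.Agent.W_4d259d_h6.Dc

/-!
# The cut-offs `eta c` (`1` on radius 2, `0` off radius 5/2) and the forms `∂̄(eta c) · (h ∘ e)`
-/

noncomputable section

set_option linter.unusedSectionVars false

namespace Pool.Agent.W_4d259d_h6

open Set Filter Topology Manifold TopologicalSpace Metric
open scoped ContDiff
open Pool.Agent.W_4d259d_h46 Pool.Agent.W_4d259d_h46.Defs

variable {R : Type*} [TopologicalSpace R] [ChartedSpace ℂ R]

/-- The planar cut-off: `1` on `closedBall 0 2`, `0` off `ball 0 (5/2)`. -/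
def eta0 : ContDiffBump (0 : ℂ) := ⟨2, 5 / 2, by norm_num, by norm_num⟩

/-- The cut-off of a disc chart. -/
def eta (c : DiscChart R) : R → ℂ := c.lift fun z => (eta0 z : ℂ)

theorem eta_one (c : DiscChart R) {p : R} (hp : p ∈ c.op 2) : eta c p = 1 := by
  have h1 : eta0 (c.e p) = 1 := eta0.one_of_mem_closedBall
    (mem_closedBall_zero_iff.2 (le_of_lt hp.2))
  rw [eta, c.lift_of_mem _ hp.1, h1, Complex.ofReal_one]

theorem eta0_zero {z : ℂ} (hz : 5 / 2 < ‖z‖) : ((eta0 z : ℝ) : ℂ) = 0 := by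
  have h1 : eta0 z = 0 := eta0.zero_of_le_dist (by
    rw [dist_zero_right]
    exact hz.le)
  rw [h1, Complex.ofReal_zero]

theorem eta_off (c : DiscChart R) {p : R} (hp : p ∉ c.cl (5 / 2)) : eta c p = 0 :=
  c.lift_off (fun _ hz => eta0_zero hz) hp

theorem eta_le (c : DiscChart R) (p : R) : ‖eta c p‖ ≤ 1 := by
  by_cases hp : p ∈ c.e.source
  · rw [eta, c.lift_of_mem _ hp, Complex.norm_real, Real.norm_eq_abs, abs_of_nonneg eta0.nonneg]
    exact eta0.le_one
  · rw [eta_off c fun h => hp h.1, norm_zero]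
    exact zero_le_one

theorem eta_cs [T2Space R] (c : DiscChart R) (p : R) : CS ∞ (eta c) p :=
  c.lift_cs (r := 5 / 2) (by norm_num) (Complex.ofRealCLM.contDiff.comp eta0.contDiff)
    (fun _ hz => eta0_zero hz) p

/-- The coefficient in the chart `e` of the form `∂̄(eta c) · (h ∘ c.e)`, `h` holomorphic on
`|z| > 1`. -/
def Om (c : DiscChart R) (h : ℂ → ℂ) (e : OpenPartialHomeomorph R ℂ) (q : R) : ℂ :=
  dbarR e (eta c) q * h (c.e q)

theorem eta_dbarR_const {e : OpenPartialHomeomorph R ℂ} (a : ℂ) (q : R) :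
    dbarR e (fun _ : R => a) q = 0 := by
  have h1 : AnalyticAt ℂ ((fun _ : R => a) ∘ e.symm) (e q) := analyticAt_const
  exact Pl.dbar_eq_zero h1.differentiableAt

theorem Om_zero_of (c : DiscChart R) (h : ℂ → ℂ) {e : OpenPartialHomeomorph R ℂ} {p : R}
    (hp : p ∈ e.source) {U : Set R} (hU : IsOpen U) (hpU : p ∈ U) {a : ℂ}
    (ha : ∀ q ∈ U, eta c q = a) : ∀ᶠ q in 𝓝 p, Om c h e q = 0 := by
  filter_upwards [e.open_source.eventually_mem hp, hU.eventually_mem hpU] with q hq hqU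
  have h1 : eta c =ᶠ[𝓝 q] fun _ => a := by
    filter_upwards [hU.eventually_mem hqU] with w hw
    exact ha w hw
  rw [Om, dbarR_congr hq h1, eta_dbarR_const, zero_mul]

/-- The form vanishes near the points of `op 2`. -/
theorem Om_near (c : DiscChart R) (h : ℂ → ℂ) {e : OpenPartialHomeomorph R ℂ} {p : R}
    (hp : p ∈ e.source) (h2 : p ∈ c.op 2) : ∀ᶠ q in 𝓝 p, Om c h e q = 0 :=
  Om_zero_of c h hp (c.isOpen_op 2) h2 fun _ hq => eta_one c hq

/-- The form vanishes near the points off `cl (5/2)`. -/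
theorem Om_off [T2Space R] (c : DiscChart R) (h : ℂ → ℂ) {e : OpenPartialHomeomorph R ℂ} {p : R}
    (hp : p ∈ e.source) (h2 : p ∉ c.cl (5 / 2)) : ∀ᶠ q in 𝓝 p, Om c h e q = 0 :=
  Om_zero_of c h hp (c.isClosed_cl (by norm_num : (5 / 2 : ℝ) ≤ 3)).isOpen_compl h2
    fun _ hq => eta_off c hq

variable [T2Space R] [IsManifold (modelWithCornersSelf ℂ ℂ) ω R]

/-- `h ∘ c.e` is holomorphic near the points with `1 < ‖c.e p‖`. -/
theorem hcomp_HA (c : DiscChart R) {h : ℂ → ℂ} (hh : DifferentiableOn ℂ h {z | 1 < ‖z‖}) {p : R}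
    (hp : p ∈ c.e.source) (h1 : 1 < ‖c.e p‖) : HA (fun q => h (c.e q)) p := by
  have hopen : IsOpen {z : ℂ | 1 < ‖z‖} := isOpen_lt continuous_const continuous_norm
  exact HA.comp_chart c.mem hp (hh.analyticAt (hopen.mem_nhds h1))

/-- The coefficients are smooth.  Three cases: `p ∈ op 2` (`Om_near`), `p ∉ cl (5/2)` (`Om_off`),
and `p ∈ c.e.source` with `2 ≤ ‖c.e p‖`: product of `CS.dbarR` and `h ∘ c.e`, which is `HA` at
`p`. -/
theorem Om_cs (c : DiscChart R) {h : ℂ → ℂ} (hh : DifferentiableOn ℂ h {z | 1 < ‖z‖})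
    {e : OpenPartialHomeomorph R ℂ} (he : e ∈ MA R) {p : R} (hp : p ∈ e.source) :
    CS ∞ (Om c h e) p := by
  by_cases h2 : p ∈ c.op 2
  · refine CS.congr (CS.const ∞ (0 : ℂ) p) ?_
    filter_upwards [Om_near c h hp h2] with q hq
    exact hq.symm
  by_cases h3 : p ∈ c.e.source
  · have h4 : 1 < ‖c.e p‖ := by
      by_contra hcon
      exact h2 ⟨h3, by linarith⟩
    exact (CS.dbarR he hp (eta_cs c p)).mul ((hcomp_HA c hh h3 h4).cs ∞)
  · refine CS.congr (CS.const ∞ (0 : ℂ) p) ?_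
    filter_upwards [Om_off c h hp fun h => h3 h.1] with q hq
    exact hq.symm

/-- `eta · (h ∘ e)` is smooth off the closed disc of radius 1. -/
theorem etah_cs (c : DiscChart R) {h : ℂ → ℂ} (hh : DifferentiableOn ℂ h {z | 1 < ‖z‖}) {p : R}
    (hp : p ∉ c.cl 1) : CS ∞ (fun q => eta c q * h (c.e q)) p := by
  by_cases h3 : p ∈ c.e.source
  · have h4 : 1 < ‖c.e p‖ := by
      by_contra hcon
      exact hp ⟨h3, not_lt.1 hcon⟩
    exact (eta_cs c p).mul ((hcomp_HA c hh h3 h4).cs ∞)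
  · refine CS.congr (CS.const ∞ (0 : ℂ) p) ?_
    have h5 : p ∈ (c.cl (5 / 2))ᶜ := fun h => h3 h.1
    filter_upwards [(c.isClosed_cl (by norm_num : (5 / 2 : ℝ) ≤ 3)).isOpen_compl.eventually_mem h5]
      with q hq
    rw [eta_off c hq, zero_mul]

/-- `∂̄ (eta · (h ∘ e)) = Om` off the closed disc of radius 1. -/
theorem dbarR_etah (c : DiscChart R) {h : ℂ → ℂ} (hh : DifferentiableOn ℂ h {z | 1 < ‖z‖})
    {e : OpenPartialHomeomorph R ℂ} (he : e ∈ MA R) {p : R} (hp : p ∈ e.source)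
    (h1 : p ∉ c.cl 1) : dbarR e (fun q => eta c q * h (c.e q)) p = Om c h e p := by
  by_cases h3 : p ∈ c.e.source
  · have h4 : 1 < ‖c.e p‖ := by
      by_contra hcon
      exact h1 ⟨h3, not_lt.1 hcon⟩
    have h5 := hcomp_HA c hh h3 h4
    rw [dbarR_mul he hp ((eta_cs c p).of_le (by exact_mod_cast le_top)) (h5.cs 1),
      dbarR_of_HA he hp h5, mul_zero, zero_add]
    rfl
  · have h5 : p ∈ (c.cl (5 / 2))ᶜ := fun h => h3 h.1
    have h6 : (fun q => eta c q * h (c.e q)) =ᶠ[𝓝 p] fun _ => (0 : ℂ) := by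
      filter_upwards [(c.isClosed_cl (by norm_num : (5 / 2 : ℝ) ≤ 3)).isOpen_compl.eventually_mem
        h5] with q hq
      rw [eta_off c hq, zero_mul]
    rw [dbarR_congr hp h6, eta_dbarR_const]
    exact ((Om_off c h hp h5).self_of_nhds).symm

/-- Change of the chart for `Om`. -/
theorem Om_trans (c : DiscChart R) (h : ℂ → ℂ) {e e' : OpenPartialHomeomorph R ℂ} (he : e ∈ MA R)
    (he' : e' ∈ MA R) {p : R} (hp : p ∈ e.source) (hp' : p ∈ e'.source) :
    Om c h e' p = (starRingEnd ℂ) (deriv (e ∘ e'.symm) (e' p)) * Om c h e p := by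
  rw [Om, Om, dbarR_trans he he' hp hp' ((eta_cs c p).of_le (by exact_mod_cast le_top)),
    smul_eq_mul, mul_assoc]

/-- Bound for the kernel: `dbarR e (eta c)` is bounded on compact subsets of `e.source`. -/
theorem exists_deta_bound (c : DiscChart R) {e : OpenPartialHomeomorph R ℂ} (he : e ∈ MA R)
    {K : Set R} (hK : IsCompact K) (hKe : K ⊆ e.source) :
    ∃ M : ℝ, 0 ≤ M ∧ ∀ q ∈ K, ‖dbarR e (eta c) q‖ ≤ M := by
  have h1 : ContinuousOn (dbarR e (eta c)) K := fun q hq =>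
    (CS.dbarR he (hKe hq) (eta_cs c q)).continuousAt.continuousWithinAt
  obtain ⟨M, hM⟩ := hK.exists_bound_of_continuousOn h1
  exact ⟨max M 0, le_max_right _ _, fun q hq => (hM q hq).trans (le_max_left _ _)⟩

end Pool.Agent.W_4d259d_h6
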