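import Pool.Agent.W_4d259d_h6.Sys

/-!
# The tuples of the forms `∂̄(eta c) (h ∘ e)`, poles, the operators `P` and `K`
-/

noncomputable section

namespace Pool.Agent.W_4d259d_h6

open Set Filter Topology Manifold TopologicalSpace Metric MeasureTheory
open scoped ContDiff Real ENNReal
open Pool.Agent.W_4d259d_h46 Pool.Agent.W_4d259d_h46.Defs

variable {R : Type*} [TopologicalSpace R] [ChartedSpace ℂ R] [T2Space R]
  [IsManifold (modelWithCornersSelf ℂ ℂ) ω R]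

/-- `h` is holomorphic on `|z| > 1`. -/
def Ext1 (h : ℂ → ℂ) : Prop := DifferentiableOn ℂ h {z | 1 < ‖z‖}

theorem gh_ne_of_ext1 {a z : ℂ} (ha : ‖a‖ ≤ 1) (hz : 1 < ‖z‖) : z - a ≠ 0 := by
  intro h
  rw [sub_eq_zero.1 h] at hz
  linarith

theorem Ext1.pole {a : ℂ} (ha : ‖a‖ ≤ 1) : Ext1 fun z => (z - a)⁻¹ :=
  (differentiableOn_id.sub (differentiableOn_const a)).inv fun _ hz => gh_ne_of_ext1 ha hz

theorem Ext1.pole2 {a : ℂ} (ha : ‖a‖ ≤ 1) : Ext1 fun z => ((z - a) ^ 2)⁻¹ :=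
  ((differentiableOn_id.sub (differentiableOn_const a)).pow 2).inv fun _ hz =>
    pow_ne_zero 2 (gh_ne_of_ext1 ha hz)

/-- The Cauchy transform of a density on the unit disc. -/
theorem Ext1.T {η : ℂ → ℂ} {M : ℝ} (h : Pl.Dens η M (closedBall (0 : ℂ) 1)) : Ext1 (Pl.T η) := by
  refine Pl.T_hol h (isOpen_lt continuous_const continuous_norm) fun w hw => h.off w fun hc => ?_
  have h1 : ‖w‖ ≤ 1 := mem_closedBall_zero_iff.1 hc
  have h2 : 1 < ‖w‖ := hw
  linarith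

namespace Sys

variable (S : Sys R)

/-- The function of `x = (i, z)`: `χ_i(p) · Om c h e_i p`, `p = e_i⁻¹(z)`, is continuous
(`continuous_prod_of_discrete_left`, `e_i.symm` is continuous on the target, `S.cs`, `Om_cs`). -/
theorem Gh_cont (c : DiscChart R) {h : ℂ → ℂ} (hh : Ext1 h) :
    Continuous fun x : S.XX => S.χ x.1 ((S.c x.1).e.symm x.2)
      * Om c h (S.c x.1).e ((S.c x.1).e.symm x.2) := by
  rw [continuous_prod_of_discrete_left]
  intro i
  rw [continuous_iff_continuousAt]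
  intro z
  have hz : ‖(z : ℂ)‖ ≤ 3 := (mem_closedBall_zero_iff.1 z.2).trans (by norm_num)
  obtain ⟨h1, h2⟩ := (S.c i).symm_mem hz
  have h3 : ContinuousAt (fun z : ↥(closedBall (0 : ℂ) 1) => (S.c i).e.symm (z : ℂ)) z := by
    refine ContinuousAt.comp (g := (S.c i).e.symm) (f := fun z : ↥(closedBall (0 : ℂ) 1) => (z : ℂ))
      ?_ continuous_subtype_val.continuousAt
    exact (S.c i).e.continuousAt_symm ((S.c i).sub (mem_closedBall_zero_iff.2 hz))
  have h4 : ContinuousAt (fun z : ↥(closedBall (0 : ℂ) 1) => S.χ i ((S.c i).e.symm (z : ℂ))) z :=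
    ContinuousAt.comp (g := S.χ i) (S.cs i _).continuousAt h3
  have h5 : ContinuousAt (fun z : ↥(closedBall (0 : ℂ) 1) =>
      Om c h (S.c i).e ((S.c i).e.symm (z : ℂ))) z :=
    ContinuousAt.comp (g := Om c h (S.c i).e) (Om_cs c hh (S.c i).mem h1).continuousAt h3
  exact h4.mul h5

/-- The tuple of the form `∂̄(eta c) (h ∘ c.e)`. -/
def Gh (c : DiscChart R) (h : ℂ → ℂ) : C(S.XX, ℂ) :=
  open Classical in if hh : Ext1 h then ⟨_, S.Gh_cont c hh⟩ else 0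

theorem Gh_apply (c : DiscChart R) {h : ℂ → ℂ} (hh : Ext1 h) (i : Fin S.m)
    (z : ↥(closedBall (0 : ℂ) 1)) : S.Gh c h (i, z) = S.χ i ((S.c i).e.symm z)
      * Om c h (S.c i).e ((S.c i).e.symm z) := by
  rw [Gh, dif_pos hh]
  rfl

theorem Gh_add (c : DiscChart R) {h h' : ℂ → ℂ} (hh : Ext1 h) (hh' : Ext1 h') :
    S.Gh c (fun z => h z + h' z) = S.Gh c h + S.Gh c h' := by
  have h1 : Ext1 fun z => h z + h' z := DifferentiableOn.add hh hh'
  ext ⟨i, z⟩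
  rw [ContinuousMap.add_apply, S.Gh_apply c h1, S.Gh_apply c hh, S.Gh_apply c hh', Om, Om, Om]
  ring

theorem Gh_smul (c : DiscChart R) (a : ℂ) {h : ℂ → ℂ} (hh : Ext1 h) :
    S.Gh c (fun z => a * h z) = a • S.Gh c h := by
  have h1 : Ext1 fun z => a * h z := DifferentiableOn.const_mul hh a
  ext ⟨i, z⟩
  rw [ContinuousMap.smul_apply, S.Gh_apply c h1, S.Gh_apply c hh, Om, Om, smul_eq_mul]
  ring

/-! ### The operators -/

/-- The tuple of the form `Σ_k ∂̄(eta c_k) (H_k ∘ e_k)`. -/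
def Kh (H : Fin S.m → ℂ → ℂ) : C(S.XX, ℂ) := ∑ k, S.Gh (S.c k) (H k)

/-- `Σ_k eta c_k · (H_k ∘ e_k)`. -/
def Ph (H : Fin S.m → ℂ → ℂ) (q : R) : ℂ := ∑ k, eta (S.c k) q * H k ((S.c k).e q)

/-! ### Poles -/

/-- The tuple of `∂̄(eta c)/(e - a)`. -/
def pol (c : DiscChart R) (a : ℂ) : C(S.XX, ℂ) := S.Gh c fun z => (z - a)⁻¹

end Sys

end Pool.Agent.W_4d259d_h6
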