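import Pool.Agent.W_4d259d_h6.Gh

/-!
# Bounds for `Gh`, `Ph`, `Kh`
-/

noncomputable section

namespace Pool.Agent.W_4d259d_h6

open Set Filter Topology Manifold TopologicalSpace Metric MeasureTheory
open scoped ContDiff Real ENNReal
open Pool.Agent.W_4d259d_h46 Pool.Agent.W_4d259d_h46.Defs

variable {R : Type*} [TopologicalSpace R] [ChartedSpace ℂ R] [T2Space R]
  [IsManifold (modelWithCornersSelf ℂ ℂ) ω R]

namespace Sys

variable (S : Sys R)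

/-- Bound: only the values of `h` on `|z| ≥ 2` count (`Om = 0` on `op 2`, `Om = 0` off
`cl (5/2)`; `exists_deta_bound` on the compact sets `(S.c i).cl 1`, `χ` bounded there). -/
theorem Gh_norm (c : DiscChart R) : ∃ M : ℝ, 0 ≤ M ∧ ∀ h : ℂ → ℂ, Ext1 h → ∀ B : ℝ,
    (∀ z, 2 ≤ ‖z‖ → ‖h z‖ ≤ B) → 0 ≤ B → ‖S.Gh c h‖ ≤ M * B := by
  have hK : ∀ i, ∃ M1 : ℝ, 0 ≤ M1 ∧ ∀ q ∈ (S.c i).cl 1,
      ‖S.χ i q‖ * ‖dbarR (S.c i).e (eta c) q‖ ≤ M1 := by
    intro i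
    have hKc : IsCompact ((S.c i).cl 1) := (S.c i).isCompact_cl (by norm_num)
    obtain ⟨M1, hM1, hb1⟩ := exists_deta_bound c (S.c i).mem hKc fun q hq => hq.1
    have h2 : ContinuousOn (S.χ i) ((S.c i).cl 1) := fun q _ =>
      (S.cs i q).continuousAt.continuousWithinAt
    obtain ⟨M2, hM2⟩ := hKc.exists_bound_of_continuousOn h2
    refine ⟨max M2 0 * M1, mul_nonneg (le_max_right _ _) hM1, fun q hq => ?_⟩
    exact mul_le_mul ((hM2 q hq).trans (le_max_left _ _)) (hb1 q hq) (norm_nonneg _)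
      (le_max_right _ _)
  choose M1 hM1 hb using hK
  refine ⟨∑ i, M1 i, Finset.sum_nonneg fun i _ => hM1 i, ?_⟩
  intro h hh B hB hB0
  have hsum : ∀ i, M1 i ≤ ∑ i, M1 i := fun i =>
    Finset.single_le_sum (fun j _ => hM1 j) (Finset.mem_univ i)
  rw [ContinuousMap.norm_le _ (mul_nonneg (Finset.sum_nonneg fun i _ => hM1 i) hB0)]
  rintro ⟨i, z⟩
  rw [S.Gh_apply c hh]
  have hz : ‖(z : ℂ)‖ ≤ 1 := mem_closedBall_zero_iff.1 z.2
  obtain ⟨h1, h2⟩ := (S.c i).symm_mem (hz.trans (by norm_num))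
  set p := (S.c i).e.symm z with hp
  have hpcl : p ∈ (S.c i).cl 1 := ⟨h1, by rw [h2]; exact hz⟩
  by_cases hp2 : p ∈ c.op 2
  · rw [(Om_near c h h1 hp2).self_of_nhds, mul_zero, norm_zero]
    exact mul_nonneg (Finset.sum_nonneg fun i _ => hM1 i) hB0
  · by_cases hps : p ∈ c.e.source
    · have h3 : 2 ≤ ‖c.e p‖ := by
        by_contra hcon
        exact hp2 ⟨hps, not_le.1 hcon⟩
      rw [Om, ← mul_assoc, norm_mul, norm_mul]
      exact mul_le_mul ((hb i p hpcl).trans (hsum i)) (hB _ h3) (norm_nonneg _)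
        (Finset.sum_nonneg fun i _ => hM1 i)
    · rw [(Om_off c h h1 fun hc => hps hc.1).self_of_nhds, mul_zero, norm_zero]
      exact mul_nonneg (Finset.sum_nonneg fun i _ => hM1 i) hB0

theorem ghn_T_le4 {η : ℂ → ℂ} {M : ℝ} (hM : 0 ≤ M) (h : Pl.Dens η M (closedBall (0 : ℂ) 1)) (z : ℂ) :
    ‖Pl.T η z‖ ≤ 4 * M := by
  have h1 := Pl.T_le h z
  have h2 : volume.real (closedBall (0 : ℂ) 1) = π := by
    rw [Measure.real, Complex.volume_closedBall]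
    simp
  rw [h2] at h1
  have h3 : √π ≤ 2 := by
    rw [Real.sqrt_le_left (by norm_num)]
    have := Real.pi_le_four
    linarith
  calc ‖Pl.T η z‖ ≤ 2 * M * √π := h1
    _ ≤ 2 * M * 2 := mul_le_mul_of_nonneg_left h3 (by positivity)
    _ = 4 * M := by ring

/-- `‖P t‖ ≤ C M` (`Pl.T_le` with `volume (closedBall 0 1) = π`, `eta_le`). -/
theorem Ph_le {t : Fin S.m → ℂ → ℂ} {M : ℝ} (hM : 0 ≤ M) (ht : S.Den t M) (q : R) :
    ‖S.Ph (fun k => Pl.T (t k)) q‖ ≤ 4 * S.m * M := by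
  rw [Ph]
  calc ‖∑ k, eta (S.c k) q * Pl.T (t k) ((S.c k).e q)‖
      ≤ ∑ _k : Fin S.m, 4 * M := by
        refine (norm_sum_le _ _).trans (Finset.sum_le_sum fun k _ => ?_)
        rw [norm_mul]
        calc ‖eta (S.c k) q‖ * ‖Pl.T (t k) ((S.c k).e q)‖ ≤ 1 * (4 * M) :=
              mul_le_mul (eta_le _ _) (ghn_T_le4 hM (ht k) _) (norm_nonneg _) zero_le_one
          _ = 4 * M := one_mul _
    _ = 4 * S.m * M := by
        rw [Finset.sum_const, Finset.card_univ, Fintype.card_fin, nsmul_eq_mul]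
        ring

/-- From `Gh_norm` and `Pl.T_le`. -/
theorem Kh_le : ∃ C : ℝ, 0 ≤ C ∧ ∀ (t : Fin S.m → ℂ → ℂ) (M : ℝ), 0 ≤ M → S.Den t M →
    ‖S.Kh fun k => Pl.T (t k)‖ ≤ C * M := by
  choose C hC hCb using fun k => S.Gh_norm (S.c k)
  refine ⟨∑ k, C k * 4, Finset.sum_nonneg fun k _ => mul_nonneg (hC k) (by norm_num), ?_⟩
  intro t M hM ht
  rw [Kh, Finset.sum_mul]
  refine (norm_sum_le _ _).trans (Finset.sum_le_sum fun k _ => ?_)
  have h1 := hCb k (Pl.T (t k)) (Ext1.T (ht k)) (4 * M) (fun z _ => ghn_T_le4 hM (ht k) z)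
    (by positivity)
  calc ‖S.Gh (S.c k) (Pl.T (t k))‖ ≤ C k * (4 * M) := h1
    _ = C k * 4 * M := by ring

end Sys

end Pool.Agent.W_4d259d_h6
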