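import Pool.Agent.W_4d259d_h6.Sys

/-!
# The local lemma
-/

noncomputable section

namespace Pool.Agent.W_4d259d_h6

open Set Filter Topology Manifold TopologicalSpace Metric MeasureTheory
open scoped ContDiff Real ENNReal
open Pool.Agent.W_4d259d_h46 Pool.Agent.W_4d259d_h46.Defs

variable {R : Type*} [TopologicalSpace R] [ChartedSpace ℂ R] [T2Space R]
  [IsManifold (modelWithCornersSelf ℂ ℂ) ω R]

namespace Sys

variable (S : Sys R)

/-- The local lemma: if `u` is `C¹` near `p ∈ W0` and the `t_i` are `C¹` with compact support and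
`t_i = χ_i ∂̄u` near `p`, then `u - Σ T t_i` is holomorphic near `p`.
Proof: fix a chart `e` at `p`.  Near `p`, `dbarR e (T t_i ∘ e_i) = conj(..) dbarR e_i (T t_i ∘ e_i)
= conj(..) t_i ∘ e_i = χ_i conj(..) dbarR e_i u = χ_i dbarR e u` (`dbarR_trans`,
`dbarR_comp_chart`, `dbar_T`); sum over `I p`, `sum_near`, `HA.of_dbarR`. -/
theorem local_lemma {p : R} (hp : p ∈ S.W0) {u : R → ℂ} (hu : CS 1 u p)
    {t : Fin S.m → ℂ → ℂ} (ht : ∀ i, ContDiff ℝ 1 (t i)) (hc : ∀ i, HasCompactSupport (t i))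
    (h : ∀ i, p ∈ (S.c i).op 2 →
      ∀ᶠ q in 𝓝 p, t i ((S.c i).e q) = S.χ i q * dbarR (S.c i).e u q) :
    HA (fun q => u q - ∑ i ∈ S.I p, Pl.T (t i) ((S.c i).e q)) p := by
  set e := chartAt ℂ p with he'
  have he : e ∈ MA R := chart_mem_MA p
  have hpe : p ∈ e.source := mem_chart_source ℂ p
  have hTcs : ∀ i, ∀ q ∈ (S.c i).e.source, CS 1 (fun q => Pl.T (t i) ((S.c i).e q)) q :=
    fun i q hq => CS.comp_chart (S.c i).mem hq (T_contDiff (ht i) (hc i)).contDiffAt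
  have hmem : ∀ i ∈ S.I p, p ∈ (S.c i).op 2 := fun i hi => (S.mem_I).1 hi
  refine HA.of_dbarR he hpe (hu.sub (CS.sum fun i hi => hTcs i p (hmem i hi).1)) ?_
  have h1 : ∀ᶠ q in 𝓝 p, q ∈ e.source := e.open_source.mem_nhds hpe
  have h2 : ∀ᶠ q in 𝓝 p, CS 1 u q := by
    have := CS.eventually (n := 1) (by simp) (u := u) (p := p) hu
    exact this
  have h3 : ∀ᶠ q in 𝓝 p, ∀ i : Fin S.m, i ∈ S.I p → q ∈ (S.c i).op 2 ∧
      t i ((S.c i).e q) = S.χ i q * dbarR (S.c i).e u q := by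
    rw [eventually_all]
    intro i
    by_cases hi : i ∈ S.I p
    · filter_upwards [((S.c i).isOpen_op 2).mem_nhds (hmem i hi), h i (hmem i hi)] with q hq1 hq2 _
      exact ⟨hq1, hq2⟩
    · exact Eventually.of_forall fun q h' => absurd h' hi
  filter_upwards [h1, h2, h3, S.sum_near hp] with q hq1 hq2 hq3 hq4
  have hsum : CS 1 (fun q => ∑ i ∈ S.I p, Pl.T (t i) ((S.c i).e q)) q :=
    CS.sum fun i hi => hTcs i q (hq3 i hi).1.1
  rw [dbarR_sub he hq1 hq2 hsum, dbarR_sum he hq1 fun i hi => hTcs i q (hq3 i hi).1.1]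
  have h5 : ∀ i ∈ S.I p, dbarR e (fun q => Pl.T (t i) ((S.c i).e q)) q =
      S.χ i q * dbarR e u q := by
    intro i hi
    have hqi : q ∈ (S.c i).e.source := (hq3 i hi).1.1
    rw [dbarR_trans (S.c i).mem he hqi hq1 (hTcs i q hqi), dbarR_comp_chart hqi,
      dbar_T (ht i) (hc i), (hq3 i hi).2, dbarR_trans (S.c i).mem he hqi hq1 hq2]
    simp only [smul_eq_mul]
    ring
  rw [Finset.sum_congr rfl h5, ← Finset.sum_mul, hq4, one_mul, sub_self]

end Sys

end Pool.Agent.W_4d259d_h6
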