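import Pool.Agent.W_4d259d_h6.GhS
import Pool.Agent.W_4d259d_h6.SysL

/-!
# `(P t, t + K t)` is a solution
-/

noncomputable section

namespace Pool.Agent.W_4d259d_h6

open Set Filter Topology Manifold TopologicalSpace Metric MeasureTheory
open scoped ContDiff Real ENNReal
open Pool.Agent.W_4d259d_h46 Pool.Agent.W_4d259d_h46.Defs

variable {R : Type*} [TopologicalSpace R] [ChartedSpace ℂ R] [T2Space R]
  [IsManifold (modelWithCornersSelf ℂ ℂ) ω R]

namespace Sys

variable (S : Sys R)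

theorem ghp_dn_zero (i : Fin S.m) (z : ℂ) : S.dn (0 : C(S.XX, ℂ)) i z = 0 := by
  unfold dn
  split_ifs <;> rfl

theorem ghp_dn_sum {ι : Type*} (s : Finset ι) (τ : ι → C(S.XX, ℂ)) (i : Fin S.m) (z : ℂ) :
    S.dn (∑ k ∈ s, τ k) i z = ∑ k ∈ s, S.dn (τ k) i z := by
  classical
  induction s using Finset.induction_on with
  | empty => rw [Finset.sum_empty, Finset.sum_empty, ghp_dn_zero]
  | insert a s ha ih => rw [Finset.sum_insert ha, Finset.sum_insert ha, S.dn_add, ih]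

/-- `(P t, t + K t)` is a solution.
Proof: `p ∈ W0`, `I = I p`.  Near `p`: `eta c_k = 1` for `k ∈ I`, so
`Ph - Σ_{i ∈ I} T t_i ∘ e_i = Σ_{k ∉ I} eta c_k (H_k ∘ e_k) =: u`; `p ∉ cl_k 1` for `k ∉ I`, so `u`
is smooth at `p` (`etah_cs`), and `dbarR e_i u = Σ_k Om c_k H_k e_i` near `p` (`dbarR_etah`,
`Om_near` for `k ∈ I`).  Apply `local_lemma` to `u` and `t = dn (Kh)` (`dn_smooth`). -/
theorem sol_P {t : Fin S.m → ℂ → ℂ} {M : ℝ} (ht : S.Den t M) :
    S.Sol (S.Ph fun k => Pl.T (t k))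
      (fun i z => t i z + S.dn (S.Kh fun k => Pl.T (t k)) i z) := by
  classical
  intro p hp
  have hE : ∀ k, Ext1 (Pl.T (t k)) := fun k => Ext1.T (ht k)
  set H : Fin S.m → ℂ → ℂ := fun k => Pl.T (t k) with hH
  set J : Finset (Fin S.m) := Finset.univ \ S.I p with hJ
  have hJ1 : ∀ k ∈ J, p ∉ (S.c k).cl 1 := by
    intro k hk hc
    have h1 : k ∉ S.I p := (Finset.mem_sdiff.1 hk).2
    exact h1 (S.mem_I.2 ⟨hc.1, lt_of_le_of_lt hc.2 (by norm_num)⟩)
  set u : R → ℂ := fun q => ∑ k ∈ J, eta (S.c k) q * H k ((S.c k).e q) with hu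
  have hu1 : CS 1 u p := CS.sum fun k hk =>
    (etah_cs (S.c k) (hE k) (hJ1 k hk)).of_le (by exact_mod_cast le_top)
  have hdn : ∀ i z, S.dn (S.Kh H) i z = ∑ k, S.dn (S.Gh (S.c k) (H k)) i z := fun i z =>
    S.ghp_dn_sum Finset.univ _ i z
  have hsm := fun k => S.Gh_smooth (S.c k) (hE k)
  have hcd : ∀ i, ContDiff ℝ 1 (S.dn (S.Kh H) i) := by
    intro i
    have h1 : S.dn (S.Kh H) i = fun z => ∑ k, S.dn (S.Gh (S.c k) (H k)) i z := by
      funext z
      exact hdn i z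
    rw [h1]
    exact ContDiff.sum fun k _ => (hsm k).1 i
  have hcc : ∀ i, HasCompactSupport (S.dn (S.Kh H) i) := by
    intro i
    refine HasCompactSupport.intro (isCompact_closedBall (0 : ℂ) 1) fun z hz => ?_
    exact (S.dn_den (S.Kh H) i).off z hz
  have hcl : ∀ k, IsClosed ((S.c k).cl 1) := fun k => (S.c k).isClosed_cl (by norm_num)
  have key := S.local_lemma hp hu1 hcd hcc (by
    intro i hpi
    have hev1 : ∀ᶠ q in 𝓝 p, q ∈ (S.c i).e.source := (S.c i).e.open_source.eventually_mem hpi.1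
    have hev2 : ∀ᶠ q in 𝓝 p, ∀ k ∈ S.I p, Om (S.c k) (H k) (S.c i).e q = 0 := by
      rw [Filter.eventually_all_finset]
      intro k hk
      exact Om_near (S.c k) (H k) hpi.1 (S.mem_I.1 hk)
    have hev3 : ∀ᶠ q in 𝓝 p, ∀ k ∈ J, q ∉ (S.c k).cl 1 := by
      rw [Filter.eventually_all_finset]
      intro k hk
      exact (hcl k).isOpen_compl.eventually_mem (hJ1 k hk)
    filter_upwards [hev1, hev2, hev3] with q hq1 hq2 hq3
    have h1 : S.dn (S.Kh H) i ((S.c i).e q) = S.χ i q * ∑ k, Om (S.c k) (H k) (S.c i).e q := by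
      rw [hdn, Finset.mul_sum]
      exact Finset.sum_congr rfl fun k _ => (hsm k).2.2 i q hq1
    have h2 : ∑ k, Om (S.c k) (H k) (S.c i).e q = ∑ k ∈ J, Om (S.c k) (H k) (S.c i).e q := by
      rw [hJ, ← Finset.sum_sdiff (Finset.subset_univ (S.I p)), Finset.sum_eq_zero (s := S.I p) hq2,
        add_zero]
    have h3 : dbarR (S.c i).e u q = ∑ k ∈ J, Om (S.c k) (H k) (S.c i).e q := by
      rw [hu, dbarR_sum (S.c i).mem hq1 fun k hk =>
        (etah_cs (S.c k) (hE k) (hq3 k hk)).of_le (by exact_mod_cast le_top)]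
      exact Finset.sum_congr rfl fun k hk => dbarR_etah (S.c k) (hE k) (S.c i).mem hq1 (hq3 k hk)
    rw [h1, h2, h3])
  refine key.congr ?_
  have hev : ∀ᶠ q in 𝓝 p, ∀ k ∈ S.I p, eta (S.c k) q = 1 := by
    rw [Filter.eventually_all_finset]
    intro k hk
    filter_upwards [((S.c k).isOpen_op 2).eventually_mem (S.mem_I.1 hk)] with q hq
    exact eta_one _ hq
  filter_upwards [hev] with q hq
  have h1 : S.Ph H q = (∑ k ∈ S.I p, H k ((S.c k).e q)) + u q := by
    rw [Ph, ← Finset.sum_sdiff (Finset.subset_univ (S.I p)), add_comm]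
    congr 1
    refine Finset.sum_congr rfl fun k hk => ?_
    rw [hq k hk, one_mul]
  have h2 : ∀ i, Pl.T (fun z => t i z + S.dn (S.Kh H) i z) ((S.c i).e q)
      = H i ((S.c i).e q) + Pl.T (S.dn (S.Kh H) i) ((S.c i).e q) := fun i =>
    Pl.T_add (ht i) (S.dn_den (S.Kh H) i) _
  show u q - _ = S.Ph H q - _
  rw [h1]
  simp only [h2]
  rw [Finset.sum_add_distrib]
  ring

end Sys

end Pool.Agent.W_4d259d_h6
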