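import Pool.Agent.W_4d259d_h6.Sys

/-!
# Smooth tuples
-/

noncomputable section

namespace Pool.Agent.W_4d259d_h6

open Set Filter Topology Manifold TopologicalSpace Metric MeasureTheory
open scoped ContDiff Real ENNReal
open Pool.Agent.W_4d259d_h46 Pool.Agent.W_4d259d_h46.Defs

variable {R : Type*} [TopologicalSpace R] [ChartedSpace ℂ R] [T2Space R]
  [IsManifold (modelWithCornersSelf ℂ ℂ) ω R]

namespace Sys

variable (S : Sys R)

/-- Tuples `χ_i om_i` with smooth `om_i` give `C¹` densities with compact support. -/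
theorem dn_smooth {τ : C(S.XX, ℂ)} {om : Fin S.m → R → ℂ}
    (ho : ∀ i, ∀ p ∈ (S.c i).op 1, CS 1 (om i) p)
    (h : ∀ i, ∀ z : ↥(closedBall (0 : ℂ) 1),
      τ (i, z) = S.χ i ((S.c i).e.symm z) * om i ((S.c i).e.symm z)) :
    (∀ i, ContDiff ℝ 1 (S.dn τ i)) ∧ (∀ i, HasCompactSupport (S.dn τ i)) ∧
      ∀ i, ∀ p ∈ (S.c i).e.source, S.dn τ i ((S.c i).e p) = S.χ i p * om i p := by
  have hin : ∀ i, ∀ z : ℂ, ‖z‖ ≤ 1 →
      S.dn τ i z = S.χ i ((S.c i).e.symm z) * om i ((S.c i).e.symm z) := by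
    intro i z hz
    have hz' : z ∈ closedBall (0 : ℂ) 1 := mem_closedBall_zero_iff.2 hz
    simp only [dn]
    rw [dif_pos hz', h]
  have hout : ∀ i, ∀ z : ℂ, 3 / 4 < ‖z‖ → S.dn τ i z = 0 := by
    intro i z hz
    by_cases h1 : ‖z‖ ≤ 1
    · rw [hin i z h1]
      have h2 := (S.c i).symm_mem (z := z) (by linarith)
      rw [S.off i _ (fun hcl => by
        have := hcl.2
        rw [h2.2] at this
        linarith), zero_mul]
    · simp only [dn]
      rw [dif_neg (fun hm => h1 (mem_closedBall_zero_iff.1 hm))]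
  refine ⟨fun i => ?_, fun i => ?_, fun i p hp => ?_⟩
  · rw [contDiff_iff_contDiffAt]
    intro z
    by_cases hz : ‖z‖ < 1
    · have h2 := (S.c i).symm_mem (z := z) (by linarith)
      have hop : (S.c i).e.symm z ∈ (S.c i).op 1 := ⟨h2.1, by rw [h2.2]; exact hz⟩
      have hχ : ContDiffAt ℝ 1 (S.χ i ∘ (S.c i).e.symm) z := by
        have := (S.cs i ((S.c i).e.symm z)) (S.c i).e (S.c i).mem h2.1
        rw [h2.2] at this
        exact this.of_le (by exact_mod_cast le_top)
      have ho' : ContDiffAt ℝ 1 (om i ∘ (S.c i).e.symm) z := by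
        have := ho i _ hop (S.c i).e (S.c i).mem h2.1
        rwa [h2.2] at this
      refine (hχ.mul ho').congr_of_eventuallyEq ?_
      have hev : ∀ᶠ w in 𝓝 z, ‖w‖ < 1 := (isOpen_lt continuous_norm continuous_const).mem_nhds hz
      filter_upwards [hev] with w hw
      exact hin i w hw.le
    · have hz' : 3 / 4 < ‖z‖ := by
        rw [not_lt] at hz
        linarith
      have hev : ∀ᶠ w in 𝓝 z, (3 / 4 : ℝ) < ‖w‖ :=
        (isOpen_lt continuous_const continuous_norm).mem_nhds hz'
      refine (contDiffAt_const (c := (0 : ℂ))).congr_of_eventuallyEq ?_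
      filter_upwards [hev] with w hw
      exact hout i w hw
  · refine HasCompactSupport.intro (isCompact_closedBall (0 : ℂ) 1) fun z hz => ?_
    apply hout
    rw [mem_closedBall_zero_iff, not_le] at hz
    linarith
  · by_cases h1 : ‖(S.c i).e p‖ ≤ 1
    · rw [hin i _ h1, (S.c i).e.left_inv hp]
    · rw [not_le] at h1
      rw [hout i _ (by linarith), S.off i p (fun hcl => by
        have := hcl.2
        linarith), zero_mul]

end Sys

end Pool.Agent.W_4d259d_h6
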