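import Pool.Agent.W_4d259d_h6.Gh
import Pool.Agent.W_4d259d_h6.SysD

/-!
# Smoothness of `Gh`
-/

noncomputable section

namespace Pool.Agent.W_4d259d_h6

open Set Filter Topology Manifold TopologicalSpace Metric MeasureTheory
open scoped ContDiff Real ENNReal
open Pool.Agent.W_4d259d_h46 Pool.Agent.W_4d259d_h46.Defs

variable {R : Type*} [TopologicalSpace R] [ChartedSpace ℂ R] [T2Space R]
  [IsManifold (modelWithCornersSelf ℂ ℂ) ω R]

namespace Sys

variable (S : Sys R)

/-- The densities of `Gh` are `C¹` with compact support, and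
`dn (Gh c h) i ∘ e_i = χ_i Om c h e_i`. -/
theorem Gh_smooth (c : DiscChart R) {h : ℂ → ℂ} (hh : Ext1 h) :
    (∀ i, ContDiff ℝ 1 (S.dn (S.Gh c h) i)) ∧ (∀ i, HasCompactSupport (S.dn (S.Gh c h) i)) ∧
      ∀ i, ∀ p ∈ (S.c i).e.source,
        S.dn (S.Gh c h) i ((S.c i).e p) = S.χ i p * Om c h (S.c i).e p :=
  S.dn_smooth (fun _ _ hp => (Om_cs c hh (S.c _).mem hp.1).of_le (by norm_num)) fun i z =>
    S.Gh_apply c hh i z

end Sys

end Pool.Agent.W_4d259d_h6
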