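import Pool.Agent.W_4d259d_h46.HB

/-!
# Good surfaces: (SPLIT) and (ZERO) with disc charts
-/

noncomputable section

namespace Pool.Agent.W_4d259d_h6

open Set Filter Topology Manifold TopologicalSpace Metric
open scoped ContDiff
open Pool.Agent.W_4d259d_h46 Pool.Agent.W_4d259d_h46.Defs

/-- A disc chart: a holomorphic chart of `R` whose image contains the closed disc of radius 3. -/
structure DiscChart (R : Type*) [TopologicalSpace R] [ChartedSpace ℂ R] where
  e : OpenPartialHomeomorph R ℂ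
  mem : e ∈ IsManifold.maximalAtlas (modelWithCornersSelf ℂ ℂ) ω R
  sub : closedBall (0 : ℂ) 3 ⊆ e.target

/-- The open subset `e⁻¹(U)` of `R`. -/
def DiscChart.pre {R : Type*} [TopologicalSpace R] [ChartedSpace ℂ R] (c : DiscChart R)
    (U : Opens ℂ) : Opens R :=
  ⟨c.e.source ∩ c.e ⁻¹' U, c.e.isOpen_inter_preimage U.2⟩

/-- A planar bump inside the unit disc. -/
structure PBump where
  N1 : Opens ℂ
  N : Opens ℂ
  le : N1 ≤ N
  sub : (N : Set ℂ) ⊆ ball 0 1
  χ : ℂ → ℝ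
  smooth : ContDiff ℝ ∞ χ
  tsup : tsupport χ ⊆ N
  mem01 : ∀ z, χ z ∈ Icc (0 : ℝ) 1
  one : ∀ z ∈ N1, χ z = 1

theorem PBump.hasCompactSupport (b : PBump) : HasCompactSupport b.χ :=
  HasCompactSupport.of_support_subset_isCompact (isCompact_closedBall (0 : ℂ) 1)
    ((subset_tsupport _).trans (b.tsup.trans (b.sub.trans ball_subset_closedBall)))

/-- A holomorphic function on `W` whose only zero is `p`, and it is simple. -/
structure OneZero {R : Type*} [TopologicalSpace R] [ChartedSpace ℂ R] (W : Opens R) (p : R)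
    (q : R → ℂ) : Prop where
  hol : HolOn ℂ q W
  zero : q p = 0
  simple : ∀ e ∈ IsManifold.maximalAtlas (modelWithCornersSelf ℂ ℂ) ω R, p ∈ e.source →
    deriv (q ∘ e.symm) (e p) ≠ 0
  ne : ∀ z ∈ W, z ≠ p → q z ≠ 0

/-- Good surfaces. -/
structure Good (R : Type*) [TopologicalSpace R] [ChartedSpace ℂ R] : Prop where
  split : ∀ (c : DiscChart R) (b : PBump) (WA : Opens R), IsCompact (closure (WA : Set R)) →
    ∀ (F : Type) [NormedAddCommGroup F] [NormedSpace ℂ F] [FiniteDimensional ℂ F],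
      ∃ (SA : HB (WA ⊓ c.pre b.N) F →L[ℂ] HB WA F)
        (SB : HB (WA ⊓ c.pre b.N) F →L[ℂ] HB (c.pre b.N1 ⊔ (WA ⊓ c.pre b.N)) F),
        ∀ y : HB (WA ⊓ c.pre b.N) F, ∀ z ∈ WA ⊓ c.pre b.N, y.fn z = (SA y).fn z - (SB y).fn z
  zero : ∀ (W : Opens R), IsCompact (closure (W : Set R)) → ∀ p ∈ W, ∃ q, OneZero W p q

end Pool.Agent.W_4d259d_h6
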