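import Pool.Agent.W_4d259d_h6.PolD
import Pool.Agent.W_4d259d_h6.Al

/-!
# The kernel, the measure, and `KK = K`
-/

noncomputable section

namespace Pool.Agent.W_4d259d_h6

open Set Filter Topology Manifold TopologicalSpace Metric MeasureTheory
open scoped ContDiff Real ENNReal
open Pool.Agent.W_4d259d_h46 Pool.Agent.W_4d259d_h46.Defs

variable {R : Type*} [TopologicalSpace R] [ChartedSpace ℂ R] [T2Space R]
  [IsManifold (modelWithCornersSelf ℂ ℂ) ω R]

namespace Sys

variable (S : Sys R)

/-- The kernel of `K`. -/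
def kap : C(S.XX, C(S.XX, ℂ)) :=
  ⟨fun y => ((π : ℂ)⁻¹) • S.pol (S.c y.1) y.2, by
    rw [continuous_prod_of_discrete_left]
    intro i
    have h1 : Continuous fun z : ↥(closedBall (0 : ℂ) 1) => S.pol (S.c i) (z : ℂ) :=
      (S.pol_continuousOn (S.c i)).comp_continuous continuous_subtype_val fun z => z.2
    exact h1.const_smul ((π : ℂ)⁻¹)⟩

/-- The measure: area on the closed unit discs. -/
def nu : Measure S.XX := (Measure.count : Measure (Fin S.m)).prod ((volume : Measure ℂ).comap Subtype.val)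

theorem finite_comap_ball : IsFiniteMeasure ((volume : Measure ℂ).comap
    (Subtype.val : ↥(closedBall (0 : ℂ) 1) → ℂ)) := by
  refine ⟨?_⟩
  rw [comap_subtype_coe_apply measurableSet_closedBall]
  exact (measure_mono (Subtype.coe_image_subset _ _)).trans_lt measure_closedBall_lt_top

instance : IsFiniteMeasure S.nu := by
  have h1 := finite_comap_ball
  unfold nu
  infer_instance

/-- The abstract integral operator is `K` on densities of continuous functions.
Proof: evaluate at `(i, z)` (`ContinuousMap.evalCLM`, `ContinuousLinearMap.integral_comp_comm`),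
`integral_prod`, `integral_count` (finite sum over `k`), integral over the subtype = integral over
`closedBall 0 1` (`integral_subtype_comap`); for each `k` the factor
`χ_i(p) dbarR e_i (eta c_k) p` comes out and `(1/π) ∫ f(k,w) (c_k.e p - w)⁻¹ = T (dn f k)`. -/
theorem KK_eq (f : C(S.XX, ℂ)) : KK S.nu S.kap f = S.Kh fun k => Pl.T (S.dn f k) := by
  have hfc := finite_comap_ball
  ext ⟨i, z⟩
  set p : R := (S.c i).e.symm z with hp
  -- the left hand side
  have hL : KK S.nu S.kap f (i, z) = ∫ y, f y * S.kap y (i, z) ∂S.nu := by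
    rw [KK_apply]
    have h1 := ContinuousLinearMap.integral_comp_comm
      (ContinuousMap.evalCLM ℂ (i, z) : C(S.XX, ℂ) →L[ℂ] ℂ) (integrable_smul S.nu f S.kap)
    have h2 : (∫ y, f y • S.kap y ∂S.nu) (i, z)
        = (ContinuousMap.evalCLM ℂ (i, z) : C(S.XX, ℂ) →L[ℂ] ℂ) (∫ y, f y • S.kap y ∂S.nu) := rfl
    rw [h2, ← h1]
    refine integral_congr_ae (Eventually.of_forall fun y => ?_)
    rfl
  have hkap : ∀ y : S.XX, S.kap y (i, z) = (π : ℂ)⁻¹ * (S.χ i p
      * (dbarR (S.c i).e (eta (S.c y.1)) p * ((S.c y.1).e p - (y.2 : ℂ))⁻¹)) := by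
    intro y
    have h1 : S.kap y (i, z) = (π : ℂ)⁻¹ * S.pol (S.c y.1) y.2 (i, z) := rfl
    have h2 : ‖(y.2 : ℂ)‖ ≤ 1 := mem_closedBall_zero_iff.1 y.2.2
    rw [h1, pol, S.Gh_apply _ (Ext1.pole h2)]
    rfl
  have hint : Integrable (fun y : S.XX => f y * S.kap y (i, z)) S.nu := by
    have hc : Continuous fun y : S.XX => f y * S.kap y (i, z) := by
      refine f.continuous.mul ?_
      exact (ContinuousMap.evalCLM ℂ (i, z) : C(S.XX, ℂ) →L[ℂ] ℂ).continuous.comp
        S.kap.continuous
    exact hc.integrable_of_hasCompactSupport (HasCompactSupport.of_compactSpace _)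
  rw [hL]
  unfold nu at hint ⊢
  rw [integral_prod _ hint, integral_count]
  have hR : (S.Kh fun k => Pl.T (S.dn f k)) (i, z)
      = ∑ k, S.Gh (S.c k) (Pl.T (S.dn f k)) (i, z) := by
    unfold Kh
    rw [ContinuousMap.sum_apply]
  rw [hR]
  refine Finset.sum_congr rfl fun k _ => ?_
  rw [S.Gh_apply _ (Ext1.T (S.dn_den f k))]
  have h3 : ∀ w : ↥(closedBall (0 : ℂ) 1), f (k, w) * S.kap (k, w) (i, z)
      = (fun w : ℂ => S.dn f k w * ((π : ℂ)⁻¹ * (S.χ i p
      * (dbarR (S.c i).e (eta (S.c k)) p * ((S.c k).e p - w)⁻¹)))) w := by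
    intro w
    rw [hkap]
    simp only [dn]
    rw [dif_pos w.2]
  simp only [h3]
  rw [integral_subtype_comap measurableSet_closedBall
    (fun w : ℂ => S.dn f k w * ((π : ℂ)⁻¹ * (S.χ i p
      * (dbarR (S.c i).e (eta (S.c k)) p * ((S.c k).e p - w)⁻¹))))]
  rw [setIntegral_eq_integral_of_forall_compl_eq_zero (fun w hw => by
    simp only [dn]
    rw [dif_neg hw, zero_mul])]
  simp only [Om, Pl.T]
  rw [smul_eq_mul, ← integral_const_mul, ← integral_const_mul, ← integral_const_mul]
  refine integral_congr_ae (Eventually.of_forall fun w => ?_)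
  simp only [smul_eq_mul]
  ring

end Sys

end Pool.Agent.W_4d259d_h6
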