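import Pool.Agent.W_4d259d_h6.GhN

/-!
# The pole tuples depend holomorphically on the pole
-/

noncomputable section

namespace Pool.Agent.W_4d259d_h6

open Set Filter Topology Manifold TopologicalSpace Metric MeasureTheory
open scoped ContDiff Real ENNReal
open Pool.Agent.W_4d259d_h46 Pool.Agent.W_4d259d_h46.Defs

variable {R : Type*} [TopologicalSpace R] [ChartedSpace ℂ R] [T2Space R]
  [IsManifold (modelWithCornersSelf ℂ ℂ) ω R]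

namespace Sys

variable (S : Sys R)

theorem pole_ge {z a : ℂ} (hz : 2 ≤ ‖z‖) (ha : ‖a‖ ≤ 1) : 1 ≤ ‖z - a‖ := by
  have h2 : ‖z‖ ≤ ‖z - a‖ + ‖a‖ := by
    calc ‖z‖ = ‖(z - a) + a‖ := by rw [sub_add_cancel]
      _ ≤ _ := norm_add_le _ _
  linarith

theorem pole_inv_le {z a : ℂ} (hz : 2 ≤ ‖z‖) (ha : ‖a‖ ≤ 1) : ‖(z - a)⁻¹‖ ≤ 1 := by
  rw [norm_inv]
  exact inv_le_one_of_one_le₀ (pole_ge hz ha)

theorem pole_ne {z a : ℂ} (hz : 2 ≤ ‖z‖) (ha : ‖a‖ ≤ 1) : z - a ≠ 0 := by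
  intro h
  have := pole_ge hz ha
  rw [h, norm_zero] at this
  linarith

theorem Ext1.sub' {h h' : ℂ → ℂ} (hh : Ext1 h) (hh' : Ext1 h') : Ext1 fun z => h z + -1 * h' z :=
  DifferentiableOn.add hh (DifferentiableOn.const_mul hh' (-1))

theorem Gh_sub' (c : DiscChart R) {h h' : ℂ → ℂ} (hh : Ext1 h) (hh' : Ext1 h') :
    S.Gh c (fun z => h z + -1 * h' z) = S.Gh c h - S.Gh c h' := by
  have h1 : Ext1 fun z => -1 * h' z := DifferentiableOn.const_mul hh' (-1)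
  rw [S.Gh_add c hh h1, S.Gh_smul c (-1) hh', neg_one_smul, ← sub_eq_add_neg]

/-- `(z-a')⁻¹ - (z-a)⁻¹ - (a'-a) (z-a)⁻² = (a'-a)² (z-a')⁻¹ (z-a)⁻²`, at most `‖a'-a‖²` for
`‖z‖ ≥ 2`; use `Gh_norm`, `Gh_add`, `Gh_smul`. -/
theorem pol_hasDerivAt (c : DiscChart R) {a : ℂ} (ha : ‖a‖ < 1) :
    HasDerivAt (S.pol c) (S.Gh c fun z => ((z - a) ^ 2)⁻¹) a := by
  obtain ⟨M, hM0, hM⟩ := S.Gh_norm c
  have key : ∀ a' : ℂ, ‖a'‖ < 1 →
      ‖S.pol c a' - S.pol c a - (a' - a) • S.Gh c fun z => ((z - a) ^ 2)⁻¹‖ ≤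
        M * ‖a' - a‖ ^ 2 := by
    intro a' ha'
    have e1 : Ext1 fun z => (z - a')⁻¹ := Ext1.pole ha'.le
    have e2 : Ext1 fun z => (z - a)⁻¹ := Ext1.pole ha.le
    have e3 : Ext1 fun z => ((z - a) ^ 2)⁻¹ := Ext1.pole2 ha.le
    have e4 : Ext1 fun z => (a' - a) * ((z - a) ^ 2)⁻¹ := DifferentiableOn.const_mul e3 (a' - a)
    have e5 := Ext1.sub' e1 e2
    have h1 : S.pol c a' - S.pol c a - (a' - a) • (S.Gh c fun z => ((z - a) ^ 2)⁻¹) =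
        S.Gh c (fun z => ((z - a')⁻¹ + -1 * (z - a)⁻¹) + -1 * ((a' - a) * ((z - a) ^ 2)⁻¹)) := by
      rw [S.Gh_sub' c e5 e4, S.Gh_sub' c e1 e2, S.Gh_smul c (a' - a) e3]
      rfl
    rw [h1]
    refine hM _ (Ext1.sub' e5 e4) _ ?_ (by positivity)
    intro z hz
    have hne' := pole_ne hz ha'.le
    have hne := pole_ne hz ha.le
    have h2 : ((z - a')⁻¹ + -1 * (z - a)⁻¹) + -1 * ((a' - a) * ((z - a) ^ 2)⁻¹) =
        (a' - a) ^ 2 * ((z - a')⁻¹ * ((z - a)⁻¹ * (z - a)⁻¹)) := by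
      field_simp
      ring
    rw [h2, norm_mul, norm_pow, norm_mul, norm_mul]
    have h3 := pole_inv_le hz ha'.le
    have h4 := pole_inv_le hz ha.le
    have h5 : ‖(z - a')⁻¹‖ * (‖(z - a)⁻¹‖ * ‖(z - a)⁻¹‖) ≤ 1 * (1 * 1) := by
      gcongr
    calc ‖a' - a‖ ^ 2 * (‖(z - a')⁻¹‖ * (‖(z - a)⁻¹‖ * ‖(z - a)⁻¹‖))
        ≤ ‖a' - a‖ ^ 2 * (1 * (1 * 1)) := by gcongr
      _ = ‖a' - a‖ ^ 2 := by ring
  rw [hasDerivAt_iff_isLittleO]
  rw [Asymptotics.isLittleO_iff]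
  intro ε hε
  have h1 : ∀ᶠ a' in 𝓝 a, ‖a'‖ < 1 :=
    (isOpen_lt continuous_norm continuous_const).mem_nhds ha
  have h2 : ∀ᶠ a' in 𝓝 a, dist a' a < ε / (M + 1) :=
    Metric.eventually_nhds_iff_ball.2 ⟨ε / (M + 1), by positivity, fun y hy => hy⟩
  filter_upwards [h1, h2] with a' h3 h4
  refine (key a' h3).trans ?_
  rw [dist_eq_norm] at h4
  have h5 : M * ‖a' - a‖ ≤ ε := by
    have h6 : (M + 1) * ‖a' - a‖ ≤ (M + 1) * (ε / (M + 1)) :=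
      mul_le_mul_of_nonneg_left h4.le (by linarith)
    rw [mul_div_cancel₀ _ (by linarith)] at h6
    have := norm_nonneg (a' - a)
    linarith
  calc M * ‖a' - a‖ ^ 2 = (M * ‖a' - a‖) * ‖a' - a‖ := by ring
    _ ≤ ε * ‖a' - a‖ := mul_le_mul_of_nonneg_right h5 (norm_nonneg _)

/-- Lipschitz: `‖(z-a)⁻¹ - (z-a')⁻¹‖ ≤ ‖a - a'‖` for `‖z‖ ≥ 2`. -/
theorem pol_continuousOn (c : DiscChart R) : ContinuousOn (S.pol c) (closedBall (0 : ℂ) 1) := by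
  obtain ⟨M, hM0, hM⟩ := S.Gh_norm c
  have hL : LipschitzOnWith ⟨M, hM0⟩ (S.pol c) (closedBall (0 : ℂ) 1) := by
    refine LipschitzOnWith.of_dist_le_mul fun a ha a' ha' => ?_
    rw [mem_closedBall_zero_iff] at ha ha'
    rw [dist_eq_norm, dist_eq_norm]
    have e1 : Ext1 fun z => (z - a)⁻¹ := Ext1.pole ha
    have e2 : Ext1 fun z => (z - a')⁻¹ := Ext1.pole ha'
    have h1 : S.pol c a - S.pol c a' = S.Gh c (fun z => (z - a)⁻¹ + -1 * (z - a')⁻¹) := by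
      rw [S.Gh_sub' c e1 e2]
      rfl
    rw [h1]
    refine hM _ (Ext1.sub' e1 e2) _ ?_ (norm_nonneg _)
    intro z hz
    have hne' := pole_ne hz ha'
    have hne := pole_ne hz ha
    have h2 : (z - a)⁻¹ + -1 * (z - a')⁻¹ = (a - a') * ((z - a)⁻¹ * (z - a')⁻¹) := by
      field_simp
      ring
    rw [h2, norm_mul, norm_mul]
    have h3 := pole_inv_le hz ha'
    have h4 := pole_inv_le hz ha
    calc ‖a - a'‖ * (‖(z - a)⁻¹‖ * ‖(z - a')⁻¹‖) ≤ ‖a - a'‖ * (1 * 1) := by gcongr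
      _ = ‖a - a'‖ := by ring
  exact hL.continuousOn

end Sys

end Pool.Agent.W_4d259d_h6
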