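import Pool.Agent.W_4d259d_h6.GhS
import Pool.Agent.W_4d259d_h6.SysL

/-!
# Independence of the pole tuple of the chart
-/

noncomputable section

namespace Pool.Agent.W_4d259d_h6

open Set Filter Topology Manifold TopologicalSpace Metric MeasureTheory
open scoped ContDiff Real ENNReal
open Pool.Agent.W_4d259d_h46 Pool.Agent.W_4d259d_h46.Defs

variable {R : Type*} [TopologicalSpace R] [ChartedSpace ℂ R] [T2Space R]
  [IsManifold (modelWithCornersSelf ℂ ℂ) ω R]

/-- The function `(c.e - c.e p)⁻¹` is holomorphic near the points `q ≠ p` of the chart. -/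
private theorem PolI_pole_HA (c : DiscChart R) {p q : R} (hp : p ∈ c.e.source)
    (hq : q ∈ c.e.source) (hne : q ≠ p) : HA (fun x => (c.e x - c.e p)⁻¹) q := by
  refine HA.comp_chart (f := fun z => (z - c.e p)⁻¹) c.mem hq ?_
  refine (analyticAt_id.sub analyticAt_const).inv ?_
  intro h0
  exact hne (c.e.injOn hq hp (sub_eq_zero.1 h0))

/-- `op r` is contained in `cl s`. -/
private theorem PolI_op_cl {c : DiscChart R} {p : R} {r s : ℝ} (hrs : r ≤ s) (h : p ∈ c.op r) :
    p ∈ c.cl s := ⟨h.1, h.2.le.trans hrs⟩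

private theorem PolI_not_cl {c : DiscChart R} {q : R} (h : q ∉ c.op 2) : q ∉ c.cl 1 :=
  fun h' => h ⟨h'.1, h'.2.trans_lt (by norm_num)⟩

/-- `eta c (c.e - c.e p)⁻¹` is smooth off `p`. -/
private theorem PolI_cs (c : DiscChart R) {p q : R} (hp : p ∈ c.op 1) (hne : q ≠ p) :
    CS ∞ (fun x => eta c x * (c.e x - c.e p)⁻¹) q := by
  by_cases h2 : q ∈ c.op 2
  · exact (eta_cs c q).mul ((PolI_pole_HA c hp.1 h2.1 hne).cs ∞)
  · exact etah_cs c (Ext1.pole hp.2.le) (PolI_not_cl h2)

/-- `∂̄ (eta c (c.e - c.e p)⁻¹)` off `p`. -/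
private theorem PolI_dbar (c : DiscChart R) {p q : R} (hp : p ∈ c.op 1) (hne : q ≠ p)
    {e : OpenPartialHomeomorph R ℂ} (he : e ∈ MA R) (hq : q ∈ e.source) :
    dbarR e (fun x => eta c x * (c.e x - c.e p)⁻¹) q = Om c (fun z => (z - c.e p)⁻¹) e q := by
  by_cases h2 : q ∈ c.op 2
  · rw [(Om_near c (fun z => (z - c.e p)⁻¹) hq h2).self_of_nhds]
    refine dbarR_of_HA he hq ?_
    refine (PolI_pole_HA c hp.1 h2.1 hne).congr ?_
    filter_upwards [(c.isOpen_op 2).mem_nhds h2] with x hx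
    rw [eta_one c hx, one_mul]
  · exact dbarR_etah c (Ext1.pole hp.2.le) he hq (PolI_not_cl h2)

/-- The removable singularity. -/
private theorem PolI_removable {φ : ℂ → ℂ} {a : ℂ} (hφ : AnalyticAt ℂ φ a)
    (h0 : deriv φ a ≠ 0) : ∃ G : ℂ → ℂ, AnalyticAt ℂ G a ∧
      ∀ᶠ w in 𝓝 a, w ≠ a → (w - a)⁻¹ - deriv φ a * (φ w - φ a)⁻¹ = G w := by
  have hD : AnalyticAt ℂ (dslope φ a) a := by
    obtain ⟨P, hP⟩ := hφ
    exact hP.has_fpower_series_dslope_fslope.analyticAt
  have hDD : AnalyticAt ℂ (dslope (dslope φ a) a) a := by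
    obtain ⟨P, hP⟩ := hD
    exact hP.has_fpower_series_dslope_fslope.analyticAt
  have hDa : dslope φ a a = deriv φ a := dslope_same φ a
  have hne : dslope φ a a ≠ 0 := by rw [hDa]; exact h0
  refine ⟨fun w => dslope (dslope φ a) a w / dslope φ a w, hDD.div hD hne, ?_⟩
  filter_upwards [hD.continuousAt.eventually_ne hne] with w hw hwa
  have h1 : φ w - φ a = (w - a) * dslope φ a w := by
    have := sub_smul_dslope φ a w
    rw [smul_eq_mul] at this
    exact this.symm
  have h2 : dslope φ a w - deriv φ a = (w - a) * dslope (dslope φ a) a w := by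
    have := sub_smul_dslope (dslope φ a) a w
    rw [smul_eq_mul, hDa] at this
    exact this.symm
  have h3 : w - a ≠ 0 := sub_ne_zero.2 hwa
  rw [h1]
  field_simp
  linear_combination h2

namespace Sys

variable (S : Sys R)

/-- Independence of the chart: for two disc charts at `p`, the two pole tuples agree up to a
nonzero factor and a tuple which has a bounded solution.
Proof: `a = c.e p`, `a' = c'.e p`, `γ = deriv (c'.e ∘ c.e.symm) a`;
`u = eta c/(c.e - a) - γ eta c'/(c'.e - a')` off `p`, with the removable singularity filled in;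
`u` is smooth on `R` with compact support (so bounded), holomorphic near `p`, and
`dbarR e_i u = Om c .. e_i - γ Om c' .. e_i`.  Apply `local_lemma` at every point of `W0`. -/
theorem pole_indep (c c' : DiscChart R) {p : R} (hp : p ∈ c.op 1) (hp' : p ∈ c'.op 1) :
    ∃ γ : ℂ, γ ≠ 0 ∧ ∃ u : R → ℂ, (∃ M, ∀ q, ‖u q‖ ≤ M) ∧
      S.Sol u (S.dn (S.pol c (c.e p) - γ • S.pol c' (c'.e p))) := by
  classical
  set γ : ℂ := deriv (c'.e ∘ c.e.symm) (c.e p) with hγ
  have hγ0 : γ ≠ 0 := trans_deriv_ne c.mem c'.mem hp.1 hp'.1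
  obtain ⟨G, hG, hGe⟩ := PolI_removable (trans_analyticAt c.mem c'.mem hp.1 hp'.1) hγ0
  set u : R → ℂ := fun q => if q = p then G (c.e p) else
    eta c q * (c.e q - c.e p)⁻¹ - γ * (eta c' q * (c'.e q - c'.e p)⁻¹) with hu
  have hp2 : p ∈ c.op 2 := ⟨hp.1, hp.2.trans (by norm_num)⟩
  have hp2' : p ∈ c'.op 2 := ⟨hp'.1, hp'.2.trans (by norm_num)⟩
  -- near `p`
  have hup : HA u p := by
    refine (HA.comp_chart c.mem hp.1 hG).congr ?_
    have h1 : Tendsto c.e (𝓝 p) (𝓝 (c.e p)) := c.e.continuousAt hp.1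
    filter_upwards [h1.eventually hGe, (c.isOpen_op 2).mem_nhds hp2,
      (c'.isOpen_op 2).mem_nhds hp2'] with q hq h2 h2'
    by_cases hqp : q = p
    · simp [hu, hqp]
    · have hne : c.e q ≠ c.e p := fun h => hqp (c.e.injOn h2.1 hp.1 h)
      have h3 := hq hne
      simp only [Function.comp_apply] at h3
      rw [c.e.left_inv h2.1, c.e.left_inv hp.1] at h3
      simp only [hu, if_neg hqp]
      rw [eta_one c h2, eta_one c' h2', one_mul, one_mul]
      exact h3.symm
  -- off `p`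
  have huq : ∀ q, q ≠ p → u =ᶠ[𝓝 q] fun q =>
      eta c q * (c.e q - c.e p)⁻¹ - γ * (eta c' q * (c'.e q - c'.e p)⁻¹) := by
    intro q hq
    filter_upwards [isOpen_ne.mem_nhds hq] with x hx
    simp only [hu]
    exact if_neg hx
  have hcs : ∀ q, CS ∞ u q := by
    intro q
    by_cases hq : q = p
    · rw [hq]; exact hup.cs ∞
    · exact ((PolI_cs c hp hq).sub ((CS.const ∞ γ q).mul (PolI_cs c' hp' hq))).congr
        (huq q hq).symm
  have hcs1 : ∀ q, CS 1 u q := fun q => (hcs q).of_le (by norm_num)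
  -- bounded
  have hbd : ∃ M, ∀ q, ‖u q‖ ≤ M := by
    have hK : IsCompact (c.cl (5 / 2) ∪ c'.cl (5 / 2)) :=
      (c.isCompact_cl (by norm_num)).union (c'.isCompact_cl (by norm_num))
    obtain ⟨M, hM⟩ := hK.exists_bound_of_continuousOn (f := u)
      (fun q _ => ((hcs q).continuousAt).continuousWithinAt)
    refine ⟨max M 0, fun q => ?_⟩
    by_cases hq : q ∈ c.cl (5 / 2) ∪ c'.cl (5 / 2)
    · exact (hM q hq).trans (le_max_left _ _)
    · rw [mem_union, not_or] at hq
      have hqp : q ≠ p := by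
        rintro rfl
        exact hq.1 (PolI_op_cl (by norm_num) hp)
      have : u q = 0 := by
        simp only [hu, if_neg hqp]
        rw [eta_off c hq.1, eta_off c' hq.2]
        ring
      rw [this, norm_zero]
      exact le_max_right _ _
  -- `∂̄ u`
  have hdb : ∀ e ∈ MA R, ∀ q ∈ e.source, ∀ᶠ x in 𝓝 q, dbarR e u x =
      Om c (fun z => (z - c.e p)⁻¹) e x - γ * Om c' (fun z => (z - c'.e p)⁻¹) e x := by
    intro e he q hq
    by_cases hqp : q = p
    · subst hqp
      filter_upwards [hup.eventually, Om_near c (fun z => (z - c.e q)⁻¹) hq hp2,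
        Om_near c' (fun z => (z - c'.e q)⁻¹) hq hp2', e.open_source.mem_nhds hq] with x h1 h2 h3 h4
      rw [h2, h3, dbarR_of_HA he h4 h1]
      ring
    · filter_upwards [isOpen_ne.mem_nhds hqp, e.open_source.mem_nhds hq] with x hx hxe
      rw [dbarR_congr hxe (huq x hx)]
      have h1 : CS 1 (fun x => eta c x * (c.e x - c.e p)⁻¹) x :=
        (PolI_cs c hp hx).of_le (by norm_num)
      have h2 : CS 1 (fun x => eta c' x * (c'.e x - c'.e p)⁻¹) x :=
        (PolI_cs c' hp' hx).of_le (by norm_num)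
      rw [dbarR_sub he hxe h1 ((CS.const 1 γ x).mul h2),
        dbarR_mul he hxe (CS.const 1 γ x) h2, PolI_dbar c hp hx he hxe,
        PolI_dbar c' hp' hx he hxe, dbarR_of_HA he hxe (HA.const γ x)]
      ring
  refine ⟨γ, hγ0, u, hbd, fun q hq => ?_⟩
  have hg := S.Gh_smooth c (Ext1.pole hp.2.le)
  have hg' := S.Gh_smooth c' (Ext1.pole hp'.2.le)
  have hdn : ∀ i z, S.dn (S.pol c (c.e p) - γ • S.pol c' (c'.e p)) i z =
      S.dn (S.pol c (c.e p)) i z + (-γ) * S.dn (S.pol c' (c'.e p)) i z := by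
    intro i z
    rw [sub_eq_add_neg, ← neg_smul, dn_add, dn_smul]
  have hdn' : ∀ i, S.dn (S.pol c (c.e p) - γ • S.pol c' (c'.e p)) i = fun z =>
      S.dn (S.pol c (c.e p)) i z + (-γ) * S.dn (S.pol c' (c'.e p)) i z :=
    fun i => funext (hdn i)
  refine S.local_lemma hq (hcs1 q) ?_ ?_ ?_
  · intro i
    rw [hdn' i]
    exact (hg.1 i).add (contDiff_const.mul (hg'.1 i))
  · intro i
    rw [hdn' i]
    exact (hg.2.1 i).add ((hg'.2.1 i).mul_left)
  · intro i hi
    filter_upwards [hdb (S.c i).e (S.c i).mem q hi.1, (S.c i).e.open_source.mem_nhds hi.1]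
      with x hx hxe
    rw [hx, hdn]
    have h1 := hg.2.2 i x hxe
    have h2 := hg'.2.2 i x hxe
    simp only [pol]
    rw [h1, h2]
    ring

end Sys

end Pool.Agent.W_4d259d_h6
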