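import Pool.Agent.W_4d259d_h6.PolD
import Pool.Agent.W_4d259d_h6.PolI
import Pool.Agent.W_4d259d_h6.Dc2

/-!
# Pole moving
-/

noncomputable section

namespace Pool.Agent.W_4d259d_h6

open Set Filter Topology Manifold TopologicalSpace Metric MeasureTheory
open scoped ContDiff Real ENNReal
open Pool.Agent.W_4d259d_h46 Pool.Agent.W_4d259d_h46.Defs

variable {R : Type*} [TopologicalSpace R] [ChartedSpace ℂ R] [T2Space R]
  [IsManifold (modelWithCornersSelf ℂ ℂ) ω R]

namespace Sys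

variable (S : Sys R)

/-- The pole tuple of a disc chart whose disc of radius `5/2` does not meet `W0` is solved by
`0` (`local_lemma` with `u = 0`: near a point of `W0` the form is `0`, `Om_off`). -/
theorem pole_zero (c : DiscChart R) (hc : Disjoint (c.cl (5 / 2)) (S.W0 : Set R)) {a : ℂ}
    (ha : ‖a‖ < 1) : S.Sol (fun _ => 0) (S.dn (S.pol c a)) := by
  intro q hq
  have hg := S.Gh_smooth c (Ext1.pole ha.le)
  refine S.local_lemma hq (CS.const 1 (0 : ℂ) q) hg.1 hg.2.1 ?_
  intro i hi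
  have hqc : q ∉ c.cl (5 / 2) := fun h => disjoint_left.1 hc h hq
  filter_upwards [Om_off c (fun z => (z - a)⁻¹) hi.1 hqc, (S.c i).e.open_source.mem_nhds hi.1]
    with x hx hxe
  have h1 := hg.2.2 i x hxe
  rw [hx, mul_zero] at h1
  rw [dbarR_of_HA (S.c i).mem hxe (HA.const (0 : ℂ) x), mul_zero]
  exact h1

/-- The points at which all pole tuples are killed. -/
private def PolM_Z (μ : C(S.XX, ℂ) →L[ℂ] ℂ) : Set R :=
  {p | ∀ c : DiscChart R, p ∈ c.op 1 → μ (S.pol c (c.e p)) = 0}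

private theorem PolM_indep (μ : C(S.XX, ℂ) →L[ℂ] ℂ)
    (hμ : ∀ u : R → ℂ, (∃ M, ∀ q, ‖u q‖ ≤ M) → ∀ τ, S.Sol u (S.dn τ) → μ τ = 0)
    (c c' : DiscChart R) {p : R} (hp : p ∈ c.op 1) (hp' : p ∈ c'.op 1)
    (h0 : μ (S.pol c' (c'.e p)) = 0) : μ (S.pol c (c.e p)) = 0 := by
  obtain ⟨γ, -, u, hu, hs⟩ := S.pole_indep c c' hp hp'
  have h1 := hμ u hu _ hs
  rw [map_sub, map_smul, h0, smul_zero, sub_zero] at h1
  exact h1

private theorem PolM_compl (μ : C(S.XX, ℂ) →L[ℂ] ℂ)
    (hμ : ∀ u : R → ℂ, (∃ M, ∀ q, ‖u q‖ ≤ M) → ∀ τ, S.Sol u (S.dn τ) → μ τ = 0) :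
    (closure (S.W0 : Set R))ᶜ ⊆ S.PolM_Z μ := by
  intro p hp c hpc
  obtain ⟨c', hpc', h0, hsub⟩ := exists_discChart p (isClosed_closure.isOpen_compl.mem_nhds hp)
  have hp1 : p ∈ c'.op 1 := ⟨hpc', by rw [h0, norm_zero]; exact one_pos⟩
  refine S.PolM_indep μ hμ c c' hpc hp1 ?_
  refine hμ (fun _ => 0) ⟨0, fun q => by rw [norm_zero]⟩ _ (S.pole_zero c' ?_ hp1.2)
  rw [disjoint_left]
  intro q hq hq'
  exact hsub hq.1 (subset_closure hq')

/-- In a disc chart: a functional which kills the poles of a nonempty open set of the disc kills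
all. -/
private theorem PolM_disc (μ : C(S.XX, ℂ) →L[ℂ] ℂ) (c : DiscChart R) {a₀ : ℂ} (ha₀ : ‖a₀‖ < 1)
    (h : ∀ᶠ a in 𝓝 a₀, μ (S.pol c a) = 0) {a : ℂ} (ha : ‖a‖ < 1) : μ (S.pol c a) = 0 := by
  have hd : DifferentiableOn ℂ (fun a => μ (S.pol c a)) (ball (0 : ℂ) 1) := by
    intro b hb
    have h1 := S.pol_hasDerivAt c (mem_ball_zero_iff.1 hb)
    exact (μ.hasFDerivAt.comp_hasDerivAt b h1).differentiableAt.differentiableWithinAt
  have h2 := (hd.analyticOnNhd isOpen_ball).eqOn_zero_of_preconnected_of_eventuallyEq_zero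
    (convex_ball (0 : ℂ) 1).isPreconnected (mem_ball_zero_iff.2 ha₀) h
  exact h2 (mem_ball_zero_iff.2 ha)

/-- POLE MOVING: a continuous functional which kills all tuples with a bounded solution kills all
poles.
Proof: `Z` = interior of the set of all `p` such that `μ (pol c (c.e p)) = 0` for all disc charts
`c` with `p ∈ c.op 1`.  `Z` contains the complement of `closure W0` (small disc charts,
`pole_zero`, then `pole_indep`), which is not empty (`R` is not compact).  `Z` is closed: if `p`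
is in the closure take a disc chart `c` centred at `p`; `a ↦ μ (pol c a)` is holomorphic on
`ball 0 1` and vanishes on a nonempty open set, so everywhere; by `pole_indep` all of `c.op 1`
is in `Z`.  `R` is connected, so `Z = univ`; `‖a‖ = 1` by continuity. -/
theorem mu_pol [ConnectedSpace R] [NoncompactSpace R] (μ : C(S.XX, ℂ) →L[ℂ] ℂ)
    (hμ : ∀ u : R → ℂ, (∃ M, ∀ q, ‖u q‖ ≤ M) → ∀ τ, S.Sol u (S.dn τ) → μ τ = 0)
    (c : DiscChart R) {a : ℂ} (ha : ‖a‖ ≤ 1) : μ (S.pol c a) = 0 := by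
  -- the interior of the set of killed points is everything
  have hne : (interior (S.PolM_Z μ)).Nonempty := by
    have h1 : (closure (S.W0 : Set R)) ≠ univ := by
      intro h
      have := S.cpt
      rw [h] at this
      exact noncompact_univ R this
    obtain ⟨p, hp⟩ := (ne_univ_iff_exists_notMem _).1 h1
    exact ⟨p, interior_maximal (S.PolM_compl μ hμ) isClosed_closure.isOpen_compl hp⟩
  have hcl : IsClosed (interior (S.PolM_Z μ)) := by
    rw [← closure_subset_iff_isClosed]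
    intro p hp
    obtain ⟨c₁, hpc, h0, -⟩ := exists_discChart (R := R) p univ_mem
    have hp1 : p ∈ c₁.op 1 := ⟨hpc, by rw [h0, norm_zero]; exact one_pos⟩
    obtain ⟨q₀, hq₀, hq₀Z⟩ := mem_closure_iff.1 hp _ (c₁.isOpen_op 1) hp1
    have hev : ∀ᶠ b in 𝓝 (c₁.e q₀), μ (S.pol c₁ b) = 0 := by
      have h1 : Tendsto c₁.e.symm (𝓝 (c₁.e q₀)) (𝓝 q₀) := by
        have := c₁.e.continuousAt_symm (c₁.e.map_source hq₀.1)
        rwa [ContinuousAt, c₁.e.left_inv hq₀.1] at this
      filter_upwards [h1.eventually (isOpen_interior.mem_nhds hq₀Z),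
        h1.eventually ((c₁.isOpen_op 1).mem_nhds hq₀),
        c₁.e.open_target.mem_nhds (c₁.e.map_source hq₀.1)] with b hb hb1 hbt
      have := interior_subset hb c₁ hb1
      rwa [c₁.e.right_inv hbt] at this
    refine interior_maximal ?_ (c₁.isOpen_op 1) hp1
    intro q hq c₂ hq2
    exact S.PolM_indep μ hμ c₂ c₁ hq2 hq (S.PolM_disc μ c₁ hq₀.2 hev hq.2)
  have huniv : interior (S.PolM_Z μ) = univ :=
    IsClopen.eq_univ ⟨hcl, isOpen_interior⟩ hne
  have hball : EqOn (fun a => μ (S.pol c a)) (fun _ => 0) (ball (0 : ℂ) 1) := by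
    intro b hb
    have hb1 := mem_ball_zero_iff.1 hb
    have h1 := c.symm_mem (z := b) (hb1.le.trans (by norm_num))
    have h2 : c.e.symm b ∈ c.op 1 := ⟨h1.1, by rw [h1.2]; exact hb1⟩
    have h3 : c.e.symm b ∈ interior (S.PolM_Z μ) := by rw [huniv]; trivial
    have h4 := interior_subset h3 c h2
    rw [h1.2] at h4
    exact h4
  have hcont : ContinuousOn (fun a => μ (S.pol c a)) (closedBall (0 : ℂ) 1) :=
    μ.continuous.comp_continuousOn (S.pol_continuousOn c)
  have h5 := hball.of_subset_closure hcont continuousOn_const ball_subset_closedBall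
    (by rw [closure_ball (0 : ℂ) one_ne_zero])
  exact h5 (mem_closedBall_zero_iff.2 ha)

end Sys

end Pool.Agent.W_4d259d_h6
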