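import Pool.Agent.W_4d259d_h44.Iface

/-!
# Runge exhaustions
-/

noncomputable section

namespace Pool.Agent.W_4d259d_h6

open Set Filter Topology Manifold TopologicalSpace
open Pool.Agent.W_4d259d_h46.Defs Pool.Agent.W_4d259d_h44

section hull

variable {R : Type*} [TopologicalSpace R]

/-- Two components of a set which meet are equal. -/
theorem comp_eq_of_mem {F : Set R} {x y z : R} (hx : z ∈ connectedComponentIn F x)
    (hy : z ∈ connectedComponentIn F y) : connectedComponentIn F x = connectedComponentIn F y := by
  rw [connectedComponentIn_eq hx, connectedComponentIn_eq hy]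

/-- The closure of a component of an open set adds only points off the set. -/
theorem closure_comp_inter [LocallyConnectedSpace R] {F : Set R} (hF : IsOpen F) {x y : R}
    (hy : y ∈ closure (connectedComponentIn F x)) (hyF : y ∈ F) : y ∈ connectedComponentIn F x := by
  have h1 : IsOpen (connectedComponentIn F y) := hF.connectedComponentIn
  have h2 : y ∈ connectedComponentIn F y := mem_connectedComponentIn hyF
  obtain ⟨z, hz1, hz2⟩ := mem_closure_iff.1 hy _ h1 h2
  rw [comp_eq_of_mem hz2 hz1]
  exact h2

/-- The hull: `C` and the relatively compact components of its complement. -/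
def hull (C : Set R) : Set R :=
  C ∪ {x | x ∈ Cᶜ ∧ IsCompact (closure (connectedComponentIn Cᶜ x))}

theorem subset_hull (C : Set R) : C ⊆ hull C := subset_union_left

theorem compl_hull (C : Set R) :
    (hull C)ᶜ = {x | x ∈ Cᶜ ∧ ¬ IsCompact (closure (connectedComponentIn Cᶜ x))} := by
  ext x
  simp only [hull, mem_compl_iff, mem_union, mem_ofPred_eq, not_or, not_and]
  constructor
  · rintro ⟨h1, h2⟩
    exact ⟨h1, h2 h1⟩
  · rintro ⟨h1, h2⟩
    exact ⟨h1, fun _ => h2⟩

theorem isClosed_hull [LocallyConnectedSpace R] {C : Set R} (hC : IsClosed C) :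
    IsClosed (hull C) := by
  rw [← isOpen_compl_iff, compl_hull, isOpen_iff_mem_nhds]
  rintro x ⟨h1, h2⟩
  have h3 : IsOpen (connectedComponentIn Cᶜ x) := hC.isOpen_compl.connectedComponentIn
  filter_upwards [h3.mem_nhds (mem_connectedComponentIn h1)] with y hy
  refine ⟨connectedComponentIn_subset _ _ hy, ?_⟩
  rw [← connectedComponentIn_eq hy]
  exact h2

/-- The component of the complement of the hull. -/
theorem comp_compl_hull {C : Set R} {x : R} (hx : x ∈ (hull C)ᶜ) :
    connectedComponentIn (hull C)ᶜ x = connectedComponentIn Cᶜ x := by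
  have hx' := hx
  rw [compl_hull] at hx'
  obtain ⟨h1, h2⟩ := hx'
  refine subset_antisymm (connectedComponentIn_mono x (compl_subset_compl.2 (subset_hull C))) ?_
  refine IsPreconnected.subset_connectedComponentIn isPreconnected_connectedComponentIn
    (mem_connectedComponentIn h1) ?_
  intro y hy
  rw [compl_hull]
  refine ⟨connectedComponentIn_subset _ _ hy, ?_⟩
  rw [← connectedComponentIn_eq hy]
  exact h2

theorem isRunge_hull (C : Set R) : IsRunge (hull C) := by
  intro x hx
  rw [comp_compl_hull hx]
  rw [compl_hull] at hx
  exact hx.2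

theorem isCompact_hull [T2Space R] [LocallyConnectedSpace R] [LocallyCompactSpace R]
    [ConnectedSpace R] [NoncompactSpace R] {C : Set R} (hC : IsCompact C) :
    IsCompact (hull C) := by
  obtain ⟨V, hVo, hCV, hVc⟩ := exists_isOpen_superset_and_isCompact_closure hC
  have hCo : IsOpen Cᶜ := hC.isClosed.isOpen_compl
  -- the frontier of `V` is compact, covered by finitely many components
  have hfr : IsCompact (frontier V) := hVc.of_isClosed_subset isClosed_frontier
    (frontier_subset_closure)
  have hfrC : frontier V ⊆ Cᶜ := by
    intro x hx hxC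
    rw [hVo.frontier_eq] at hx
    exact hx.2 (hCV hxC)
  obtain ⟨t, ht, htc⟩ := hfr.elim_nhds_subcover (fun x => connectedComponentIn Cᶜ x)
    (fun x hx => (hCo.connectedComponentIn).mem_nhds (mem_connectedComponentIn (hfrC hx)))
  -- the compact set which contains the hull
  let A : R → Set R := fun x =>
    open Classical in if IsCompact (closure (connectedComponentIn Cᶜ x)) then
      closure (connectedComponentIn Cᶜ x) else ∅
  have hA : ∀ x, IsCompact (A x) := by
    intro x
    by_cases h : IsCompact (closure (connectedComponentIn Cᶜ x))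
    · simp only [A, h, if_true]
    · simp only [A, h, if_false, isCompact_empty]
  have hbig : IsCompact (closure V ∪ ⋃ x ∈ t, A x) :=
    hVc.union (t.isCompact_biUnion fun x _ => hA x)
  refine hbig.of_isClosed_subset (isClosed_hull hC.isClosed) ?_
  rintro x (hx | ⟨hx1, hx2⟩)
  · exact Or.inl (subset_closure (hCV hx))
  by_cases hm : (connectedComponentIn Cᶜ x ∩ frontier V).Nonempty
  · obtain ⟨y, hy1, hy2⟩ := hm
    have h3 := htc hy2
    rw [mem_iUnion₂] at h3
    obtain ⟨z, hz, hyz⟩ := h3
    right
    rw [mem_iUnion₂]
    refine ⟨z, hz, ?_⟩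
    have h4 := comp_eq_of_mem hyz hy1
    have h5 : A z = closure (connectedComponentIn Cᶜ x) := by
      simp only [A, h4, hx2, if_true]
    rw [h5]
    exact subset_closure (mem_connectedComponentIn hx1)
  · rw [not_nonempty_iff_eq_empty] at hm
    -- the component does not meet the frontier
    by_contra hxb
    have hxV : x ∉ closure V := fun h => hxb (Or.inl h)
    have hsub : connectedComponentIn Cᶜ x ⊆ (closure V)ᶜ := by
      have hpre : IsPreconnected (connectedComponentIn Cᶜ x) := isPreconnected_connectedComponentIn
      intro y hy hyV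
      have h6 : connectedComponentIn Cᶜ x ⊆ V ∪ (closure V)ᶜ := by
        intro w hw
        by_cases hwV : w ∈ V
        · exact Or.inl hwV
        · right
          intro hwc
          have : w ∈ connectedComponentIn Cᶜ x ∩ frontier V := ⟨hw, by
            rw [hVo.frontier_eq]; exact ⟨hwc, hwV⟩⟩
          rw [hm] at this
          exact this
      have hyV' : y ∈ V := by
        rcases h6 hy with h | h
        · exact h
        · exact absurd hyV h
      obtain ⟨w, -, hw1, hw2⟩ := hpre V (closure V)ᶜ hVo isClosed_closure.isOpen_compl h6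
        ⟨y, hy, hyV'⟩ ⟨x, mem_connectedComponentIn hx1, hxV⟩
      exact hw2 (subset_closure hw1)
    have hcl : IsClosed (connectedComponentIn Cᶜ x) := by
      rw [← closure_subset_iff_isClosed]
      intro y hy
      refine closure_comp_inter hCo hy ?_
      intro hyC
      have h7 : y ∈ closure ((closure V)ᶜ) := closure_mono hsub hy
      rw [closure_compl] at h7
      exact h7 (interior_mono subset_closure (by rw [hVo.interior_eq]; exact hCV hyC))
    have huniv : connectedComponentIn Cᶜ x = univ :=
      IsClopen.eq_univ ⟨hcl, hCo.connectedComponentIn⟩ ⟨x, mem_connectedComponentIn hx1⟩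
    rw [huniv, closure_univ] at hx2
    exact noncompact_univ R hx2

end hull

theorem rungeExh (R : Type) [TopologicalSpace R] [T2Space R] [ConnectedSpace R]
    [NoncompactSpace R] [SecondCountableTopology R] [ChartedSpace ℂ R] : RungeExh R := by
  haveI : LocallyCompactSpace R := ChartedSpace.locallyCompactSpace ℂ R
  haveI : LocallyConnectedSpace R := ChartedSpace.locallyConnectedSpace ℂ R
  intro K hK hKr
  let M : CompactExhaustion R := default
  have hex : ∀ (j : ℕ) (L : {L : Set R // IsCompact L}), ∃ N : Set R, IsCompact N ∧
      (L : Set R) ∪ M j ⊆ interior N := by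
    intro j L
    exact exists_compact_superset (L.2.union (M.isCompact j))
  choose N hN1 hN2 using hex
  let L' : ℕ → {L : Set R // IsCompact L} := fun j =>
    Nat.rec ⟨K, hK⟩ (fun j L => ⟨hull (N j L), isCompact_hull (hN1 j L)⟩) j
  let LL : ℕ → Set R := fun j => (L' j).1
  refine ⟨LL, rfl, fun j => (L' j).2, ?_, ?_, ?_⟩
  · intro j
    cases j with
    | zero => exact hKr
    | succ j => exact isRunge_hull _
  · intro j
    have h1 : LL j ⊆ interior (N j (L' j)) := subset_union_left.trans (hN2 j (L' j))
    exact h1.trans (interior_mono (subset_hull _))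
  · refine eq_univ_of_forall fun x => ?_
    obtain ⟨j, hj⟩ := M.exists_mem x
    refine mem_iUnion.2 ⟨j + 1, ?_⟩
    exact subset_hull _ (interior_subset (hN2 j (L' j) (Or.inr hj)))

end Pool.Agent.W_4d259d_h6
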