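import Pool.Agent.W_4d259d_h46.PlP

/-!
# The Cauchy transform of a compactly supported `C¹` function
-/

noncomputable section

namespace Pool.Agent.W_4d259d_h6

open MeasureTheory Set Filter Topology Metric
open scoped Real ENNReal ContDiff Convolution
open Pool.Agent.W_4d259d_h46

/-- Compactly supported continuous functions are densities. -/
theorem dens_of_continuous {η : ℂ → ℂ} (h : Continuous η) (hc : HasCompactSupport η) :
    ∃ m, Pl.Dens η m (tsupport η) := by
  obtain ⟨m, hm⟩ := hc.exists_bound_of_continuous h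
  exact ⟨m, h.aestronglyMeasurable, hm, fun w hw => image_eq_zero_of_notMem_tsupport hw,
    (isClosed_tsupport η).measurableSet, hc.isCompact.measure_ne_top⟩

theorem locallyIntegrable_inv : LocallyIntegrable (fun t : ℂ => t⁻¹) (volume : Measure ℂ) := by
  rw [locallyIntegrable_iff]
  intro K hK
  have h1 := Pl.integrableOn_inv 0 hK.isClosed.measurableSet hK.measure_ne_top
  refine Integrable.mono' h1 (measurable_inv.aestronglyMeasurable) ?_
  refine Eventually.of_forall fun w => ?_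
  rw [norm_inv, zero_sub, norm_neg]

/-- `T` is a convolution. -/
theorem T_eq_conv (η : ℂ → ℂ) (z : ℂ) :
    Pl.T η z = (π : ℂ)⁻¹ • ((fun t : ℂ => t⁻¹) ⋆[ContinuousLinearMap.mul ℝ ℂ, volume] η) z := by
  rw [Pl.T, convolution, ← integral_sub_left_eq_self (fun t : ℂ =>
    (ContinuousLinearMap.mul ℝ ℂ) t⁻¹ (η (z - t))) volume z]
  congr 1
  refine integral_congr_ae (Eventually.of_forall fun w => ?_)
  simp [smul_eq_mul]

/-- `T η` is `C¹` if `η` is `C¹` with compact support: `T η = (π z)⁻¹ ⋆ η`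
(`HasCompactSupport.contDiff_convolution_right`, `z⁻¹` is locally integrable). -/
theorem T_contDiff {η : ℂ → ℂ} (h : ContDiff ℝ 1 η) (hc : HasCompactSupport η) :
    ContDiff ℝ 1 (Pl.T η) := by
  have h1 : Pl.T η = fun z =>
      (π : ℂ)⁻¹ • ((fun t : ℂ => t⁻¹) ⋆[ContinuousLinearMap.mul ℝ ℂ, volume] η) z := by
    funext z
    exact T_eq_conv η z
  rw [h1]
  exact (hc.contDiff_convolution_right (n := 1) (ContinuousLinearMap.mul ℝ ℂ)
    locallyIntegrable_inv h).const_smul _

/-- `∂̄ (T η) = η`: the derivative of the convolution is the convolution with the derivative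
(`HasCompactSupport.hasFDerivAt_convolution_right`), so `∂̄ (T η) = T (∂̄ η) = η` by `Pl.T_dbar`. -/
theorem dbar_T {η : ℂ → ℂ} (h : ContDiff ℝ 1 η) (hc : HasCompactSupport η) (z : ℂ) :
    Pl.dbar (Pl.T η) z = η z := by
  have hcf : HasCompactSupport (fderiv ℝ η) := hc.fderiv ℝ
  have hcont : Continuous (fderiv ℝ η) := h.continuous_fderiv (by norm_num)
  have h1 : HasFDerivAt (Pl.T η) ((π : ℂ)⁻¹ •
      ((fun t : ℂ => t⁻¹) ⋆[(ContinuousLinearMap.mul ℝ ℂ).precompR ℂ, volume] fderiv ℝ η) z) z := by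
    have h2 := (hc.hasFDerivAt_convolution_right (ContinuousLinearMap.mul ℝ ℂ)
      locallyIntegrable_inv h z).const_smul ((π : ℂ)⁻¹)
    refine h2.congr_of_eventuallyEq (Eventually.of_forall fun w => ?_)
    exact T_eq_conv η w
  have h3 : ∀ v, fderiv ℝ (Pl.T η) z v = Pl.T (fun w => fderiv ℝ η w v) z := by
    intro v
    rw [h1.fderiv, T_eq_conv]
    show (π : ℂ)⁻¹ • (((fun t : ℂ => t⁻¹) ⋆[(ContinuousLinearMap.mul ℝ ℂ).precompR ℂ, volume]
      fderiv ℝ η) z v) = _
    rw [convolution_precompR_apply _ locallyIntegrable_inv hcf hcont]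
  have hd : ∀ v, ∃ m S, Pl.Dens (fun w => fderiv ℝ η w v) m S := by
    intro v
    have hc' : HasCompactSupport fun w => fderiv ℝ η w v := hc.fderiv_apply ℝ v
    obtain ⟨m, hm⟩ := dens_of_continuous (hcont.clm_apply continuous_const) hc'
    exact ⟨m, _, hm⟩
  obtain ⟨m1, S1, hd1⟩ := hd 1
  obtain ⟨m2, S2, hd2⟩ := hd Complex.I
  have hd3 : Pl.Dens (fun w => Complex.I • fderiv ℝ η w Complex.I) m2 S2 := by
    refine ⟨hd2.meas.const_smul Complex.I, fun w => ?_, fun w hw => ?_, hd2.mS, hd2.fin⟩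
    · rw [norm_smul, Complex.norm_I, one_mul]
      exact hd2.le w
    · rw [hd2.off w hw, smul_zero]
  rw [Pl.dbar, h3, h3, ← Pl.T_smul, ← Pl.T_add hd1 hd3, ← Pl.T_smul]
  exact Pl.T_dbar h hc z

end Pool.Agent.W_4d259d_h6
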