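import Pool.Agent.W_4d259d_h6.Eta
import Pool.Agent.W_4d259d_h6.TC1

/-!
# Systems of disc charts with a partition of unity; solutions of `∂̄ u = t`
-/

noncomputable section

namespace Pool.Agent.W_4d259d_h6

open Set Filter Topology Manifold TopologicalSpace Metric
open scoped ContDiff
open Pool.Agent.W_4d259d_h46 Pool.Agent.W_4d259d_h46.Defs

/-- Finitely many disc charts and a partition of unity on the relatively compact open set `W0`. -/
structure Sys (R : Type*) [TopologicalSpace R] [ChartedSpace ℂ R] where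
  m : ℕ
  c : Fin m → DiscChart R
  W0 : Opens R
  χ : Fin m → R → ℂ
  cs : ∀ i p, CS ∞ (χ i) p
  off : ∀ i, ∀ p, p ∉ (c i).cl (3 / 4) → χ i p = 0
  sum : ∀ p ∈ W0, ∑ i, χ i p = 1
  cpt : IsCompact (closure (W0 : Set R))

variable {R : Type*} [TopologicalSpace R] [ChartedSpace ℂ R]

namespace Sys

variable (S : Sys R)

/-- The compact space on which the tuples of densities live. -/
abbrev XX : Type := Fin S.m × ↥(closedBall (0 : ℂ) 1)

/-- The densities of a tuple of continuous functions on the closed unit discs. -/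
def dn (τ : C(S.XX, ℂ)) (i : Fin S.m) (z : ℂ) : ℂ :=
  open Classical in if h : z ∈ closedBall (0 : ℂ) 1 then τ (i, ⟨z, h⟩) else 0

/-- A tuple of densities on the closed unit discs, bounded by `M`. -/
def Den (t : Fin S.m → ℂ → ℂ) (M : ℝ) : Prop := ∀ i, Pl.Dens (t i) M (closedBall (0 : ℂ) 1)

theorem dn_den (τ : C(S.XX, ℂ)) : S.Den (S.dn τ) ‖τ‖ := by
  intro i
  have hoff : ∀ w, w ∉ closedBall (0 : ℂ) 1 → S.dn τ i w = 0 := by
    intro w hw
    unfold dn
    rw [dif_neg hw]
  have hcont : ContinuousOn (S.dn τ i) (closedBall (0 : ℂ) 1) := by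
    rw [continuousOn_iff_continuous_domRestrict]
    have h1 : (closedBall (0 : ℂ) 1).domRestrict (S.dn τ i) = fun z => τ (i, z) := by
      funext z
      show S.dn τ i z.1 = τ (i, z)
      unfold dn
      rw [dif_pos z.2]
    rw [h1]
    exact τ.continuous.comp (continuous_const.prodMk continuous_id)
  refine ⟨?_, ?_, hoff, measurableSet_closedBall, ?_⟩
  · have h1 : (closedBall (0 : ℂ) 1).indicator (S.dn τ i) = S.dn τ i := by
      rw [Set.indicator_eq_self]
      intro w hw
      by_contra h2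
      exact hw (hoff w h2)
    rw [← h1, aestronglyMeasurable_indicator_iff measurableSet_closedBall]
    exact hcont.aestronglyMeasurable measurableSet_closedBall
  · intro w
    unfold dn
    split_ifs with h
    · exact τ.norm_coe_le_norm _
    · rw [norm_zero]
      exact norm_nonneg _
  · exact MeasureTheory.measure_closedBall_lt_top.ne

theorem dn_add (τ τ' : C(S.XX, ℂ)) (i : Fin S.m) (z : ℂ) :
    S.dn (τ + τ') i z = S.dn τ i z + S.dn τ' i z := by
  unfold dn
  split_ifs with h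
  · rfl
  · rw [add_zero]

theorem dn_smul (a : ℂ) (τ : C(S.XX, ℂ)) (i : Fin S.m) (z : ℂ) :
    S.dn (a • τ) i z = a * S.dn τ i z := by
  unfold dn
  split_ifs with h
  · rfl
  · rw [mul_zero]

/-- The charts whose disc of radius 2 contains `p`. -/
def I (p : R) : Finset (Fin S.m) := open Classical in Finset.univ.filter fun i => p ∈ (S.c i).op 2

theorem mem_I {p : R} {i : Fin S.m} : i ∈ S.I p ↔ p ∈ (S.c i).op 2 := by
  simp [I]

/-- `∂̄ u = t` on `W0`: `u - Σ T t_i` is holomorphic near every point of `W0`. -/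
def Sol (u : R → ℂ) (t : Fin S.m → ℂ → ℂ) : Prop :=
  ∀ p ∈ S.W0, HA (fun q => u q - ∑ i ∈ S.I p, Pl.T (t i) ((S.c i).e q)) p

variable [T2Space R] [IsManifold (modelWithCornersSelf ℂ ℂ) ω R]

theorem Sol.add {u u' : R → ℂ} {t t' : Fin S.m → ℂ → ℂ} {M M' : ℝ} (ht : S.Den t M)
    (ht' : S.Den t' M') (h : S.Sol u t) (h' : S.Sol u' t') :
    S.Sol (fun q => u q + u' q) (fun i z => t i z + t' i z) := by
  intro p hp
  refine ((h p hp).add (h' p hp)).congr (Eventually.of_forall fun q => ?_)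
  have h1 : ∑ i ∈ S.I p, Pl.T (fun z => t i z + t' i z) ((S.c i).e q) =
      ∑ i ∈ S.I p, Pl.T (t i) ((S.c i).e q) + ∑ i ∈ S.I p, Pl.T (t' i) ((S.c i).e q) := by
    rw [← Finset.sum_add_distrib]
    exact Finset.sum_congr rfl fun i _ => Pl.T_add (ht i) (ht' i) _
  show _ = u q + u' q - ∑ i ∈ S.I p, Pl.T (fun z => t i z + t' i z) ((S.c i).e q)
  rw [h1]
  ring

theorem Sol.sub {u u' : R → ℂ} {t t' : Fin S.m → ℂ → ℂ} {M M' : ℝ} (ht : S.Den t M)
    (ht' : S.Den t' M') (h : S.Sol u t) (h' : S.Sol u' t') :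
    S.Sol (fun q => u q - u' q) (fun i z => t i z - t' i z) := by
  intro p hp
  refine ((h p hp).sub (h' p hp)).congr (Eventually.of_forall fun q => ?_)
  have h1 : ∑ i ∈ S.I p, Pl.T (fun z => t i z - t' i z) ((S.c i).e q) =
      ∑ i ∈ S.I p, Pl.T (t i) ((S.c i).e q) - ∑ i ∈ S.I p, Pl.T (t' i) ((S.c i).e q) := by
    rw [← Finset.sum_sub_distrib]
    exact Finset.sum_congr rfl fun i _ => Pl.T_sub (ht i) (ht' i) _
  show _ = u q - u' q - ∑ i ∈ S.I p, Pl.T (fun z => t i z - t' i z) ((S.c i).e q)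
  rw [h1]
  ring

theorem Sol.smul {u : R → ℂ} {t : Fin S.m → ℂ → ℂ} (a : ℂ) (h : S.Sol u t) :
    S.Sol (fun q => a * u q) (fun i z => a * t i z) := by
  intro p hp
  refine ((HA.const a p).mul (h p hp)).congr (Eventually.of_forall fun q => ?_)
  have h1 : ∑ i ∈ S.I p, Pl.T (fun z => a * t i z) ((S.c i).e q) =
      a * ∑ i ∈ S.I p, Pl.T (t i) ((S.c i).e q) := by
    rw [Finset.mul_sum]
    exact Finset.sum_congr rfl fun i _ => Pl.T_smul a (t i) _
  show a * _ = a * u q - ∑ i ∈ S.I p, Pl.T (fun z => a * t i z) ((S.c i).e q)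
  rw [h1]
  ring

/-- The partition of unity near `p ∈ W0` only uses the charts in `I p`. -/
theorem sum_near {p : R} (hp : p ∈ S.W0) : ∀ᶠ q in 𝓝 p, ∑ i ∈ S.I p, S.χ i q = 1 := by
  have h1 : ∀ᶠ q in 𝓝 p, q ∈ S.W0 := S.W0.isOpen.mem_nhds hp
  have h2 : ∀ᶠ q in 𝓝 p, ∀ i : Fin S.m, i ∉ S.I p → S.χ i q = 0 := by
    rw [eventually_all]
    intro i
    by_cases hi : i ∈ S.I p
    · exact Eventually.of_forall fun q h => absurd hi h
    · have h3 : p ∉ (S.c i).cl (3 / 4) := by
        intro h4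
        refine hi (mem_I S |>.2 ⟨h4.1, lt_of_le_of_lt h4.2 (by norm_num)⟩)
      have h5 : ((S.c i).cl (3 / 4))ᶜ ∈ 𝓝 p :=
        ((S.c i).isClosed_cl (by norm_num)).isOpen_compl.mem_nhds h3
      filter_upwards [h5] with q hq _
      exact S.off i q hq
  filter_upwards [h1, h2] with q hq1 hq2
  rw [← S.sum q hq1]
  refine Finset.sum_subset (Finset.subset_univ _) ?_
  intro i _ hi
  exact hq2 i hi

end Sys

end Pool.Agent.W_4d259d_h6
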