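import Pool.Agent.W_4d259d_h6.SplA
import Pool.Agent.W_4d259d_h6.Sys
import Pool.Agent.W_4d259d_h46.PlS

/-!
# Local solutions
-/

noncomputable section

namespace Pool.Agent.W_4d259d_h6

open Set Filter Topology Manifold TopologicalSpace Metric MeasureTheory
open scoped ContDiff Real ENNReal
open Pool.Agent.W_4d259d_h46 Pool.Agent.W_4d259d_h46.Defs

variable {R : Type*} [TopologicalSpace R] [ChartedSpace ℂ R] [T2Space R]
  [IsManifold (modelWithCornersSelf ℂ ℂ) ω R]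

/-- Near a point of `O` (inside the disc): `χ y - T (y ∂̄χ)` is holomorphic (`Pl.T_solve`). -/
theorem ydens_hol (c : DiscChart R) {χ : ℂ → ℝ} (hχ : ContDiff ℝ ∞ χ)
    (hc : HasCompactSupport χ) (hs : ∀ z ∈ tsupport χ, z ∈ ball (0 : ℂ) 1) {O : Opens R}
    (y : HB O ℂ) {p : R} (hp : p ∈ O) (hp1 : p ∈ c.op 1) :
    HA (fun q => (χ (c.e q) : ℂ) * y.fn q - Pl.T (ydens c χ y.fn) (c.e q)) p := by
  obtain ⟨B, hB, hD⟩ := ydens_dens c hχ hc hs
  have hχ' : ContDiff ℝ ∞ (fun w => (χ w : ℂ)) := Complex.ofRealCLM.contDiff.comp hχ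
  have ht : ball (0 : ℂ) 1 ⊆ c.e.target :=
    (ball_subset_closedBall.trans (closedBall_subset_closedBall (by norm_num))).trans c.sub
  have hU : IsOpen (ball (0 : ℂ) 1 ∩ c.e.symm ⁻¹' (O : Set R)) :=
    (c.e.symm.continuousOn.mono ht).isOpen_inter_preimage isOpen_ball O.isOpen
  have hyA : ∀ z ∈ ball (0 : ℂ) 1 ∩ c.e.symm ⁻¹' (O : Set R),
      AnalyticAt ℂ (fun z => y.fn (c.e.symm z)) z := by
    intro z hz
    have h1 : HA y.fn (c.e.symm z) := (holOn_iff_HA O.isOpen).1 y.fn_hol _ hz.2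
    have h2 := h1 c.e c.mem (c.e.map_target (ht hz.1))
    rw [c.e.right_inv (ht hz.1)] at h2
    exact h2
  have hg : ContDiffOn ℝ 1 (fun z => (χ z : ℂ) * y.fn (c.e.symm z))
      (ball (0 : ℂ) 1 ∩ c.e.symm ⁻¹' (O : Set R)) := by
    intro z hz
    exact ((hχ'.contDiffAt.of_le (by norm_cast)).mul
      ((hyA z hz).restrictScalars.contDiffAt)).contDiffWithinAt
  have he : ∀ z ∈ ball (0 : ℂ) 1 ∩ c.e.symm ⁻¹' (O : Set R),
      Pl.dbar (fun z => (χ z : ℂ) * y.fn (c.e.symm z)) z = ydens c χ y.fn z := by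
    intro z hz
    have h1 := Pl.dbar_smul (l := fun w => (χ w : ℂ)) (u := fun z => y.fn (c.e.symm z)) (z := z)
      (hχ'.contDiffAt.differentiableAt (by simp))
      ((hyA z hz).differentiableAt.restrictScalars ℝ)
    simp only [smul_eq_mul] at h1
    rw [h1, Pl.dbar_eq_zero (hyA z hz).differentiableAt, mul_zero, zero_add]
    rfl
  have h3 := Pl.T_solve (hD O y) hU hg he
  have hmem : c.e p ∈ ball (0 : ℂ) 1 ∩ c.e.symm ⁻¹' (O : Set R) := by
    refine ⟨mem_ball_zero_iff.2 hp1.2, ?_⟩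
    show c.e.symm (c.e p) ∈ O
    rw [c.e.left_inv hp1.1]
    exact hp
  have h4 : AnalyticAt ℂ (fun z => (χ z : ℂ) * y.fn (c.e.symm z) - Pl.T (ydens c χ y.fn) z)
      (c.e p) := h3.analyticAt (hU.mem_nhds hmem)
  refine (HA.comp_chart c.mem hp1.1 h4).congr ?_
  filter_upwards [c.e.open_source.mem_nhds hp1.1] with q hq
  rw [c.e.left_inv hq]

/-- The tuple with one entry. -/
def single (S : Sys R) (i0 : Fin S.m) (η : ℂ → ℂ) (i : Fin S.m) (z : ℂ) : ℂ :=
  if i = i0 then η z else 0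

/-- The Cauchy transform of `0`. -/
theorem T_zero' (z : ℂ) : Pl.T (fun _ : ℂ => (0 : ℂ)) z = 0 := by
  simp [Pl.T]

theorem sum_single (S : Sys R) (i0 : Fin S.m) (η : ℂ → ℂ) (p q : R) :
    ∑ i ∈ S.I p, Pl.T (single S i0 η i) ((S.c i).e q) =
      if i0 ∈ S.I p then Pl.T η ((S.c i0).e q) else 0 := by
  have h1 : ∀ i, i ≠ i0 → Pl.T (single S i0 η i) ((S.c i).e q) = 0 := by
    intro i hi
    have : single S i0 η i = fun _ => 0 := by
      funext z
      exact if_neg hi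
    rw [this, T_zero']
  have h2 : single S i0 η i0 = η := by
    funext z
    exact if_pos rfl
  split_ifs with h
  · rw [Finset.sum_eq_single i0 (fun i _ hi => h1 i hi) (fun h' => absurd h h'), h2]
  · refine Finset.sum_eq_zero fun i hi => h1 i ?_
    rintro rfl
    exact h hi

/-- If `∂̄ v = single η`, and `p ∈ W0` lies in the disc of radius 2 of the chart `i0`, then
`v - T η ∘ e` is holomorphic near `p`. -/
theorem sol_single (S : Sys R) (i0 : Fin S.m) {η : ℂ → ℂ} {v : R → ℂ}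
    (hv : S.Sol v (single S i0 η)) {p : R} (hp : p ∈ S.W0) (hp2 : p ∈ (S.c i0).op 2) :
    HA (fun q => v q - Pl.T η ((S.c i0).e q)) p := by
  refine (hv p hp).congr (Eventually.of_forall fun q => ?_)
  simp only
  rw [sum_single, if_pos (S.mem_I.2 hp2)]

/-- If moreover `η` vanishes near `e p` (or `p` is off the disc of radius `2`), then `v` is
holomorphic near `p`. -/
theorem sol_single_zero (S : Sys R) (i0 : Fin S.m) {η : ℂ → ℂ} {M : ℝ} {v : R → ℂ}
    (hη : Pl.Dens η M (closedBall (0 : ℂ) 1)) (hv : S.Sol v (single S i0 η)) {p : R}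
    (hp : p ∈ S.W0) (h0 : p ∈ (S.c i0).op 2 → ∀ᶠ z in 𝓝 ((S.c i0).e p), η z = 0) :
    HA v p := by
  by_cases hp2 : p ∈ (S.c i0).op 2
  · have h1 := sol_single S i0 hv hp hp2
    have h2 : AnalyticAt ℂ (Pl.T η) ((S.c i0).e p) := by
      obtain ⟨U, hU, hUo, hpU⟩ := _root_.eventually_nhds_iff.1 (h0 hp2)
      exact (Pl.T_hol hη hUo hU).analyticAt (hUo.mem_nhds hpU)
    refine (h1.add (HA.comp_chart (S.c i0).mem hp2.1 h2)).congr
      (Eventually.of_forall fun q => ?_)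
    simp only [sub_add_cancel]
  · refine (hv p hp).congr (Eventually.of_forall fun q => ?_)
    simp only
    rw [sum_single, if_neg (fun h => hp2 (S.mem_I.1 h)), sub_zero]

end Pool.Agent.W_4d259d_h6
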