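import Pool.Agent.W_4d259d_h6.Sys
import Pool.Agent.W_4d259d_h6.Dc2

/-!
# Existence of systems
-/

noncomputable section

namespace Pool.Agent.W_4d259d_h6

open Set Filter Topology Manifold TopologicalSpace Metric MeasureTheory
open scoped ContDiff Real ENNReal
open Pool.Agent.W_4d259d_h46 Pool.Agent.W_4d259d_h46.Defs

variable {R : Type*} [TopologicalSpace R] [ChartedSpace ℂ R] [T2Space R]
  [IsManifold (modelWithCornersSelf ℂ ℂ) ω R]

/-- the planar cut-off -/
def sysEx_rho : ContDiffBump (0 : ℂ) := ⟨1 / 2, 3 / 4, by norm_num, by norm_num⟩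

theorem sysEx_prod {ι : Type*} (s : Finset ι) {u : ι → R → ℂ} {p : R}
    (hu : ∀ i ∈ s, CS ∞ (u i) p) : CS ∞ (fun q => ∏ i ∈ s, u i q) p := by
  classical
  induction s using Finset.induction_on with
  | empty => simpa using CS.const ∞ (1 : ℂ) p
  | insert a s ha ih =>
    have h1 := (hu a (Finset.mem_insert_self a s)).mul
      (ih fun i hi => hu i (Finset.mem_insert_of_mem hi))
    refine h1.congr (Eventually.of_forall fun q => ?_)
    simp only
    rw [Finset.prod_insert ha]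

/-- Existence of systems: `ρ_i = lift (c i) ρ`, `ρ = 1` on `closedBall 0 (1/2)`, `0` off
`ball 0 (3/4)`, `χ_i = ρ_i ∏_{j<i} (1 - ρ_j)`, `W0 = ⋃ op_i (1/2)`. -/
theorem exists_sys (c0 : DiscChart R)
    {K : Set R} (hK : IsCompact K) :
    ∃ (S : Sys R) (i0 : Fin S.m), S.c i0 = c0 ∧ K ⊆ S.W0 := by
  classical
  obtain ⟨m, c, hc⟩ := exists_cover hK
  set cc : Fin (m + 1) → DiscChart R := Fin.cons c0 c with hcc
  set ρ : Fin (m + 1) → R → ℂ := fun i => (cc i).lift fun z => (sysEx_rho z : ℂ) with hρ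
  have hρoff : ∀ z : ℂ, 3 / 4 < ‖z‖ → ((sysEx_rho z : ℝ) : ℂ) = 0 := by
    intro z hz
    have h1 : sysEx_rho z = 0 := by
      apply sysEx_rho.zero_of_le_dist
      rw [dist_zero_right]
      exact hz.le
    rw [h1]
    rfl
  have hρcs : ∀ i p, CS ∞ (ρ i) p := by
    intro i p
    refine (cc i).lift_cs (r := 3 / 4) (by norm_num) ?_ hρoff p
    exact Complex.ofRealCLM.contDiff.comp sysEx_rho.contDiff
  have hρ0 : ∀ i p, p ∉ (cc i).cl (3 / 4) → ρ i p = 0 := fun i p hp =>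
    (cc i).lift_off hρoff hp
  have hρ1 : ∀ i, ∀ p ∈ (cc i).op (1 / 2), ρ i p = 1 := by
    intro i p hp
    rw [hρ]
    simp only
    rw [(cc i).lift_of_mem _ hp.1]
    have h1 : sysEx_rho ((cc i).e p) = 1 := by
      apply sysEx_rho.one_of_mem_closedBall
      rw [mem_closedBall_zero_iff]
      exact hp.2.le
    rw [h1]
    rfl
  set W0 : Opens R := ⟨⋃ i, (cc i).op (1 / 2), isOpen_iUnion fun i => (cc i).isOpen_op _⟩ with hW0
  have hcpt : IsCompact (closure (W0 : Set R)) := by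
    have h1 : IsCompact (⋃ i, (cc i).cl (1 / 2)) :=
      isCompact_iUnion fun i => (cc i).isCompact_cl (by norm_num)
    refine h1.of_isClosed_subset isClosed_closure ?_
    refine closure_minimal ?_ h1.isClosed
    exact iUnion_mono fun i p hp => ⟨hp.1, hp.2.le⟩
  have hsum : ∀ p ∈ W0, ∑ i, (ρ i p * ∏ j ∈ Finset.univ with j < i, (1 - ρ j p)) = 1 := by
    intro p hp
    have h1 := Finset.prod_one_sub_ordered Finset.univ (fun i => ρ i p)
    obtain ⟨i, hi⟩ := mem_iUnion.1 hp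
    have h2 : ∏ i, (1 - ρ i p) = 0 :=
      Finset.prod_eq_zero (Finset.mem_univ i) (by rw [hρ1 i p hi, sub_self])
    rw [h2] at h1
    linear_combination h1
  refine ⟨⟨m + 1, cc, W0, fun i p => ρ i p * ∏ j ∈ Finset.univ with j < i, (1 - ρ j p), ?_, ?_,
    hsum, hcpt⟩, (0 : Fin (m + 1)), ?_, ?_⟩
  · intro i p
    exact (hρcs i p).mul (sysEx_prod _ fun j _ => (CS.const ∞ (1 : ℂ) p).sub (hρcs j p))
  · intro i p hp
    show ρ i p * _ = 0
    rw [hρ0 i p hp, zero_mul]
  · show (Fin.cons c0 c : Fin (m + 1) → DiscChart R) 0 = c0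
    rfl
  · intro p hp
    obtain ⟨i, hi⟩ := mem_iUnion.1 (hc hp)
    exact mem_iUnion.2 ⟨i.succ, hi⟩

end Pool.Agent.W_4d259d_h6
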