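import Pool.Agent.W_4d259d_h6.VV2
import Pool.Agent.W_4d259d_h6.SplB
import Pool.Agent.W_4d259d_h6.SysEx
import Pool.Agent.W_4d259d_h44.Base

/-!
# The splitting on a general surface
-/

noncomputable section

namespace Pool.Agent.W_4d259d_h6

open Set Filter Topology Manifold TopologicalSpace Metric MeasureTheory
open scoped ContDiff Real ENNReal
open Pool.Agent.W_4d259d_h46 Pool.Agent.W_4d259d_h46.Defs Pool.Agent.W_4d259d_h44

variable {R : Type*} [TopologicalSpace R] [ChartedSpace ℂ R] [T2Space R]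
  [IsManifold (modelWithCornersSelf ℂ ℂ) ω R]

theorem spl_dens_zero {m : ℝ} (hm : 0 ≤ m) :
    Pl.Dens (fun _ : ℂ => (0 : ℂ)) m (closedBall (0 : ℂ) 1) where
  meas := aestronglyMeasurable_const
  le := fun _ => by simpa using hm
  off := fun _ _ => rfl
  mS := measurableSet_closedBall
  fin := measure_closedBall_lt_top.ne

theorem spl_dbar_zero {χ : ℂ → ℝ} {a : ℝ} {z : ℂ} (h : ∀ᶠ w in 𝓝 z, χ w = a) :
    ∀ᶠ w in 𝓝 z, Pl.dbar (fun w => (χ w : ℂ)) w = 0 := by
  filter_upwards [h.eventually_nhds] with w hw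
  have h1 : (fun w => (χ w : ℂ)) =ᶠ[𝓝 w] fun _ => (a : ℂ) := by
    filter_upwards [hw] with x hx
    rw [hx]
  rw [Pl.dbar_congr h1]
  simp [Pl.dbar]

/-- A linear operator into `HB` from a family of bounded holomorphic functions. -/
theorem spl_operator {O U : Opens R} (f : HB O ℂ → R → ℂ) (hf : ∀ y, HolOn ℂ (f y) U) {M : ℝ}
    (hM : 0 ≤ M) (hb : ∀ y, ∀ z ∈ U, ‖f y z‖ ≤ M * ‖y‖)
    (hadd : ∀ y y', ∀ z ∈ U, f (y + y') z = f y z + f y' z)
    (hsmul : ∀ (a : ℂ) y, ∀ z ∈ U, f (a • y) z = a * f y z) :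
    ∃ L : HB O ℂ →L[ℂ] HB U ℂ, ∀ y, ∀ z ∈ U, (L y).fn z = f y z := by
  let L0 : HB O ℂ →ₗ[ℂ] HB U ℂ :=
    { toFun := fun y => HB.mk (f y) (hf y) (M * ‖y‖) (hb y)
      map_add' := by
        intro y y'
        apply HB.ext'
        intro z hz
        rw [HB.mk_fn _ _ _ _ hz, HB.fn_add, HB.mk_fn _ _ _ _ hz, HB.mk_fn _ _ _ _ hz,
          hadd y y' z hz]
      map_smul' := by
        intro a y
        apply HB.ext'
        intro z hz
        rw [HB.mk_fn _ _ _ _ hz, RingHom.id_apply, HB.fn_smul, HB.mk_fn _ _ _ _ hz,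
          hsmul a y z hz, smul_eq_mul] }
  refine ⟨L0.mkContinuous M ?_, ?_⟩
  · intro y
    refine HB.norm_le_of (mul_nonneg hM (norm_nonneg _)) fun z hz => ?_
    change ‖(HB.mk (f y) (hf y) (M * ‖y‖) (hb y)).fn z‖ ≤ _
    rw [HB.mk_fn _ _ _ _ hz]
    exact hb y z hz
  · intro y z hz
    change (HB.mk (f y) (hf y) (M * ‖y‖) (hb y)).fn z = _
    rw [HB.mk_fn _ _ _ _ hz]

/-- (SPLIT) on a connected noncompact surface.
Proof: `c0 = ⟨e, ..⟩`, `(S, i0)` from `exists_sys c0` with `K = closure WA ∪ c0.cl 1`, `χ` from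
`exists_chi`, `χR = c0.lift χ`, `VV` from `exists_VV`, `v y = VV (single S i0 (ydens c0 χ y.fn))`.
`SA y = χR y.fn - v y` on `WA`, `SB y = -(1 - χR) y.fn - v y` on `N1 ⊔ O`, `O = WA ⊓ N`.
Holomorphic at `p ∈ WA`: if `p` is in the chart and `e p ∈ tsupport χ` then `p ∈ N`, so `p ∈ O`:
`ydens_hol` + `sol_single`; otherwise `χR = 0` near `p` and the density vanishes near `e p`:
`sol_single_zero`.  At `p ∈ N1`: `χR = 1` near `p`, `∂̄χ = 0` near `e p`: `sol_single_zero`; at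
`p ∈ O`: `SB y = SA y - y`.  Bounds `(1 + C B) ‖y‖`.  Use `holOn_iff_HA`. -/
theorem split_surface [ConnectedSpace R] [NoncompactSpace R] (e : OpenPartialHomeomorph R ℂ)
    (he : e ∈ DChart R) (N1 N WA : Opens R) (h1 : closure (N1 : Set R) ⊆ N)
    (hN : closure (N : Set R) ⊆ unitOf e) (hW : IsCompact (closure (WA : Set R))) :
    ∃ (SA : HB (WA ⊓ N) ℂ →L[ℂ] HB WA ℂ) (SB : HB (WA ⊓ N) ℂ →L[ℂ] HB (N1 ⊔ (WA ⊓ N)) ℂ),
      ∀ y : HB (WA ⊓ N) ℂ, ∀ z ∈ WA ⊓ N, y.fn z = (SA y).fn z - (SB y).fn z := by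
  classical
  let c0 : DiscChart R := ⟨e, he.1, he.2⟩
  have hN' : closure (N : Set R) ⊆ c0.op 1 := by
    intro p hp
    obtain ⟨z, hz, rfl⟩ := hN hp
    have hz1 : ‖z‖ < 1 := by simpa using hz
    have h3 := c0.symm_mem (z := z) (by linarith)
    exact ⟨h3.1, by rw [h3.2]; exact hz1⟩
  have hNsub : (N : Set R) ⊆ c0.op 1 := subset_closure.trans hN'
  have hN1N : (N1 : Set R) ⊆ N := subset_closure.trans h1
  obtain ⟨S, i0, hSi, hSW⟩ := exists_sys c0 (K := closure (WA : Set R) ∪ c0.cl 1)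
    (hW.union (c0.isCompact_cl (by norm_num)))
  obtain ⟨χ, hχ, hχc, hχ01, hχs, hχ1⟩ := exists_chi c0 h1 hN'
  have hs1 : ∀ z ∈ tsupport χ, z ∈ ball (0 : ℂ) 1 := fun z hz => (hχs z hz).1
  obtain ⟨B, hB0, hB⟩ := ydens_dens c0 hχ hχc hs1
  obtain ⟨C, VV, hC0, hsol, hadd, hsmul⟩ := S.exists_VV
  let χR : R → ℂ := c0.lift fun z => (χ z : ℂ)
  let τ : HB (WA ⊓ N) ℂ → Fin S.m → ℂ → ℂ := fun y => single S i0 (ydens c0 χ y.fn)
  have hdn : ∀ y : HB (WA ⊓ N) ℂ, Pl.Dens (ydens c0 χ y.fn) (B * ‖y‖) (closedBall (0 : ℂ) 1) :=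
    fun y => hB _ y
  have hden : ∀ y : HB (WA ⊓ N) ℂ, S.Den (τ y) (B * ‖y‖) := by
    intro y i
    by_cases hi : i = i0
    · have : τ y i = ydens c0 χ y.fn := by funext z; simp [τ, single, hi]
      rw [this]
      exact hdn y
    · have : τ y i = fun _ => 0 := by funext z; simp [τ, single, hi]
      rw [this]
      exact spl_dens_zero (mul_nonneg hB0 (norm_nonneg _))
  let v : HB (WA ⊓ N) ℂ → R → ℂ := fun y => VV (τ y)
  have hBn : ∀ y : HB (WA ⊓ N) ℂ, 0 ≤ B * ‖y‖ := fun y => mul_nonneg hB0 (norm_nonneg _)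
  have hvsol : ∀ y, S.Sol (v y) (single S i0 (ydens c0 χ y.fn)) := fun y =>
    (hsol _ _ (hBn y) (hden y)).1
  have hvle : ∀ y q, ‖v y q‖ ≤ C * B * ‖y‖ := fun y q => by
    have := (hsol _ _ (hBn y) (hden y)).2 q
    rwa [← mul_assoc] at this
  have hvadd : ∀ y y' q, v (y + y') q = v y q + v y' q := by
    intro y y' q
    have h2 : τ (y + y') = fun i z => τ y i z + τ y' i z := by
      funext i z
      simp only [τ, single, ydens]
      split_ifs
      · rw [HB.fn_add]; ring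
      · simp
    change VV (τ (y + y')) q = _
    rw [h2]
    exact hadd _ _ _ _ (hden y) (hden y') q
  have hvsmul : ∀ (a : ℂ) y q, v (a • y) q = a * v y q := by
    intro a y q
    have h2 : τ (a • y) = fun i z => a * τ y i z := by
      funext i z
      simp only [τ, single, ydens]
      split_ifs
      · rw [HB.fn_smul, smul_eq_mul]; ring
      · simp
    change VV (τ (a • y)) q = _
    rw [h2]
    exact hsmul a _ _ (hden y) q
  -- the cut-off
  have hχle : ∀ q, ‖χR q‖ ≤ 1 ∧ ‖1 - χR q‖ ≤ 1 := by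
    intro q
    by_cases hq : q ∈ c0.e.source
    · have h2 : χR q = (χ (c0.e q) : ℂ) := c0.lift_of_mem _ hq
      have h3 := hχ01 (c0.e q)
      rw [h2]
      have h4 : (1 : ℂ) - (χ (c0.e q) : ℂ) = ((1 - χ (c0.e q) : ℝ) : ℂ) := by push_cast; ring
      rw [h4, Complex.norm_real, Complex.norm_real, Real.norm_eq_abs, Real.norm_eq_abs,
        abs_of_nonneg h3.1, abs_of_nonneg (by linarith [h3.2])]
      exact ⟨h3.2, by linarith [h3.1]⟩
    · have h2 : χR q = 0 := by simp [χR, DiscChart.lift, hq]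
      rw [h2]; simp
  have hχoff : ∀ z : ℂ, 1 < ‖z‖ → (χ z : ℂ) = 0 := by
    intro z hz
    by_contra hne
    have h2 : z ∈ tsupport χ := subset_tsupport _ (by
      intro h3
      exact hne (by rw [h3]; simp))
    have h3 := hs1 z h2
    rw [mem_ball_zero_iff] at h3
    linarith
  have hχnear : ∀ p ∈ c0.e.source, ∀ᶠ q in 𝓝 p, χR q = (χ (c0.e q) : ℂ) := by
    intro p hp
    filter_upwards [c0.e.open_source.mem_nhds hp] with q hq
    exact c0.lift_of_mem _ hq
  have hopS : ∀ r : ℝ, ∀ p, p ∈ (S.c i0).op r ↔ p ∈ c0.op r := by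
    intro r p; rw [hSi]
  have hopmono : c0.op 1 ⊆ c0.op 2 := fun p hp => ⟨hp.1, hp.2.trans (by norm_num)⟩
  -- holomorphy near the points of `O`
  have hO : ∀ (y : HB (WA ⊓ N) ℂ), ∀ p ∈ WA ⊓ N, p ∈ S.W0 →
      HA (fun q => χR q * y.fn q - v y q) p := by
    intro y p hp hpW
    have hp1 : p ∈ c0.op 1 := hNsub hp.2
    have h2 := ydens_hol c0 hχ hχc hs1 y hp hp1
    have h3 := sol_single S i0 (hvsol y) hpW ((hopS 2 p).2 (hopmono hp1))
    rw [hSi] at h3
    refine (h2.sub h3).congr ?_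
    filter_upwards [hχnear p hp1.1] with q hq
    rw [hq]
    ring
  -- zero density
  have hZ : ∀ (y : HB (WA ⊓ N) ℂ) (a : ℝ), ∀ p ∈ S.W0,
      (p ∈ c0.op 2 → ∀ᶠ z in 𝓝 (c0.e p), χ z = a) → HA (v y) p := by
    intro y a p hpW hp
    refine sol_single_zero S i0 (hdn y) (hvsol y) hpW ?_
    intro h2
    rw [hSi]
    filter_upwards [spl_dbar_zero (hp ((hopS 2 p).1 h2))] with z hz
    rw [ydens, hz, zero_mul]
  have hWAW : ∀ p ∈ WA, p ∈ S.W0 := fun p hp => hSW (Or.inl (subset_closure hp))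
  have hNW : ∀ p ∈ N, p ∈ S.W0 := fun p hp => hSW (Or.inr ⟨(hNsub hp).1, (hNsub hp).2.le⟩)
  have hA : ∀ (y : HB (WA ⊓ N) ℂ), ∀ p ∈ WA, HA (fun q => χR q * y.fn q - v y q) p := by
    intro y p hp
    by_cases hcase : p ∈ c0.e.source ∧ c0.e p ∈ tsupport χ
    · have h2 := (hχs _ hcase.2).2
      rw [c0.e.left_inv hcase.1] at h2
      exact hO y p ⟨hp, h2⟩ (hWAW p hp)
    · have hloc : p ∈ c0.e.source → ∀ᶠ z in 𝓝 (c0.e p), χ z = 0 := by
        intro hps
        have h2 : c0.e p ∉ tsupport χ := fun h => hcase ⟨hps, h⟩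
        filter_upwards [(isClosed_tsupport χ).isOpen_compl.mem_nhds h2] with z hz
        exact image_eq_zero_of_notMem_tsupport hz
      have hv := hZ y 0 p (hWAW p hp) fun h2 => hloc h2.1
      have hχ0 : ∀ᶠ q in 𝓝 p, χR q = 0 := by
        by_cases hps : p ∈ c0.e.source
        · have h2 := (c0.e.continuousAt hps).eventually (hloc hps)
          filter_upwards [h2, hχnear p hps] with q hq hq2
          rw [hq2, hq]; simp
        · have h2 : p ∉ c0.cl 1 := fun h => hps h.1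
          filter_upwards [(c0.isClosed_cl (r := 1) (by norm_num)).isOpen_compl.mem_nhds h2]
            with q hq
          exact c0.lift_off (r := 1) hχoff hq
      refine hv.neg.congr ?_
      filter_upwards [hχ0] with q hq
      rw [hq]; ring
  have hBB : ∀ (y : HB (WA ⊓ N) ℂ), ∀ p ∈ N1 ⊔ (WA ⊓ N),
      HA (fun q => -((1 - χR q) * y.fn q) - v y q) p := by
    intro y p hp
    rcases hp with hp | hp
    · have hpN : p ∈ N := hN1N hp
      have hps : p ∈ c0.e.source := (hNsub hpN).1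
      have hloc : ∀ᶠ z in 𝓝 (c0.e p), χ z = 1 := by
        have h2 : ∀ᶠ z in 𝓝 (c0.e p), z ∈ c0.e.target ∧ c0.e.symm z ∈ N1 := by
          refine (c0.e.open_target.eventually_mem (c0.e.map_source hps)).and ?_
          refine (c0.e.continuousAt_symm (c0.e.map_source hps)).preimage_mem_nhds ?_
          rw [c0.e.left_inv hps]
          exact N1.isOpen.mem_nhds hp
        filter_upwards [h2] with z hz
        have h3 := hχ1 _ hz.2
        rwa [c0.e.right_inv hz.1] at h3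
      have hv := hZ y 1 p (hNW p hpN) fun _ => hloc
      refine hv.neg.congr ?_
      filter_upwards [(c0.e.continuousAt hps).eventually hloc, hχnear p hps] with q hq hq2
      rw [hq2, hq]; simp
    · have h2 := hO y p hp (hWAW p hp.1)
      have h3 : HA y.fn p := (holOn_iff_HA (WA ⊓ N).isOpen).1 y.fn_hol p hp
      refine (h2.sub h3).congr (Eventually.of_forall fun q => ?_)
      ring
  have hCB : 0 ≤ C * B := mul_nonneg hC0 hB0
  obtain ⟨SA, hSA⟩ := spl_operator (U := WA) (fun (y : HB (WA ⊓ N) ℂ) q => χR q * y.fn q - v y q)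
    (fun y => (holOn_iff_HA WA.isOpen).2 (hA y)) (M := 1 + C * B) (by linarith) (by
      intro y z _
      refine (norm_sub_le _ _).trans ?_
      rw [norm_mul]
      have h2 : ‖χR z‖ * ‖y.fn z‖ ≤ 1 * ‖y‖ :=
        mul_le_mul (hχle z).1 (y.fn_le z) (norm_nonneg _) zero_le_one
      have h3 := hvle y z
      linarith) (by
      intro y y' z _
      rw [HB.fn_add, hvadd]; ring) (by
      intro a y z _
      rw [HB.fn_smul, hvsmul, smul_eq_mul]; ring)
  obtain ⟨SB, hSB⟩ := spl_operator (U := N1 ⊔ (WA ⊓ N))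
    (fun (y : HB (WA ⊓ N) ℂ) q => -((1 - χR q) * y.fn q) - v y q)
    (fun y => (holOn_iff_HA (N1 ⊔ (WA ⊓ N)).isOpen).2 (hBB y)) (M := 1 + C * B) (by linarith) (by
      intro y z _
      refine (norm_sub_le _ _).trans ?_
      rw [norm_neg, norm_mul]
      have h2 : ‖1 - χR z‖ * ‖y.fn z‖ ≤ 1 * ‖y‖ :=
        mul_le_mul (hχle z).2 (y.fn_le z) (norm_nonneg _) zero_le_one
      have h3 := hvle y z
      linarith) (by
      intro y y' z _
      rw [HB.fn_add, hvadd]; ring) (by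
      intro a y z _
      rw [HB.fn_smul, hvsmul, smul_eq_mul]; ring)
  refine ⟨SA, SB, ?_⟩
  intro y z hz
  rw [hSA y z hz.1, hSB y z (Or.inr hz)]
  ring

end Pool.Agent.W_4d259d_h6
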