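import Pool.Agent.W_4d259d_h6.Eta
import Pool.Agent.W_4d259d_h46.PlT

/-!
# Cut-off and density of a bump
-/

noncomputable section

namespace Pool.Agent.W_4d259d_h6

open Set Filter Topology Manifold TopologicalSpace Metric MeasureTheory
open scoped ContDiff Real ENNReal
open Pool.Agent.W_4d259d_h46 Pool.Agent.W_4d259d_h46.Defs

variable {R : Type*} [TopologicalSpace R] [ChartedSpace ℂ R] [T2Space R]
  [IsManifold (modelWithCornersSelf ℂ ℂ) ω R]

/-- The planar cut-off of a bump: `χ = 1` on `e(N1)`, support in `e(N)`.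
Proof: `closure N1` is compact (closed in the compact set `c.cl 1`), its image under `e` is a
compact subset of the open set `e(N) ⊆ ball 0 1`; `exists_contDiff_tsupport_subset` or
`exists_smooth..` on `ℂ`. -/
theorem exists_chi (c : DiscChart R) {N1 N : Opens R} (h1 : closure (N1 : Set R) ⊆ N)
    (hN : closure (N : Set R) ⊆ c.op 1) :
    ∃ χ : ℂ → ℝ, ContDiff ℝ ∞ χ ∧ HasCompactSupport χ ∧ (∀ z, χ z ∈ Icc (0 : ℝ) 1) ∧
      (∀ z ∈ tsupport χ, z ∈ ball (0 : ℂ) 1 ∧ c.e.symm z ∈ N) ∧
      ∀ p ∈ N1, χ (c.e p) = 1 := by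
  have hN1N : (N1 : Set R) ⊆ N := subset_closure.trans h1
  have hNop : (N : Set R) ⊆ c.op 1 := subset_closure.trans hN
  have hNs : (N : Set R) ⊆ c.e.source := fun p hp => (hNop hp).1
  have hcl : closure (N1 : Set R) ⊆ c.cl 1 := fun p hp =>
    ⟨(hNop (h1 hp)).1, (hNop (h1 hp)).2.le⟩
  have hcc : IsCompact (closure (N1 : Set R)) :=
    (c.isCompact_cl (by norm_num)).of_isClosed_subset isClosed_closure hcl
  have hK : IsCompact (c.e '' closure (N1 : Set R)) :=
    hcc.image_of_continuousOn (c.e.continuousOn.mono (h1.trans hNs))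
  have hV : IsOpen (c.e '' (N : Set R)) := c.e.isOpen_image_of_subset_source N.isOpen hNs
  obtain ⟨K', hK', hKK', hK'V⟩ := exists_compact_between hK hV (image_mono h1)
  obtain ⟨f, hf1, hf0, hf⟩ := exists_contMDiffMap_one_nhds_of_subset_interior
    (modelWithCornersSelf ℝ ℂ) (n := ⊤) hK.isClosed hKK'
  have hts : tsupport f ⊆ K' := closure_minimal
    (fun x hx => by_contra fun hcon => hx (hf0 x hcon)) hK'.isClosed
  refine ⟨f, f.contMDiff.contDiff, HasCompactSupport.of_support_subset_isCompact hK'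
    (subset_closure.trans hts), hf, fun z hz => ?_, fun p hp => ?_⟩
  · obtain ⟨p, hp, rfl⟩ := hK'V (hts hz)
    refine ⟨mem_ball_zero_iff.2 (hNop hp).2, ?_⟩
    rw [c.e.left_inv (hNs hp)]
    exact hp
  · exact hf1.self_of_nhdsSet _ (mem_image_of_mem _ (subset_closure hp))

/-- The density `y ∂̄χ 1_O` of a function `y` on `R` which vanishes off `O`. -/
def ydens (c : DiscChart R) (χ : ℂ → ℝ) (y : R → ℂ) (z : ℂ) : ℂ :=
  Pl.dbar (fun w => (χ w : ℂ)) z * y (c.e.symm z)

/-- It is a density on the closed unit disc, bounded by `B ‖y‖` (`B` = bound of `∂̄χ`).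
Measurability: it is continuous on the open set `O' = {z ∈ ball 0 1 | e.symm z ∈ O}` and `0` off
it. -/
theorem ydens_dens (c : DiscChart R) {χ : ℂ → ℝ} (hχ : ContDiff ℝ ∞ χ)
    (hc : HasCompactSupport χ) (hs : ∀ z ∈ tsupport χ, z ∈ ball (0 : ℂ) 1) :
    ∃ B : ℝ, 0 ≤ B ∧ ∀ (O : Opens R) (y : HB O ℂ),
      Pl.Dens (ydens c χ y.fn) (B * ‖y‖) (closedBall (0 : ℂ) 1) := by
  have hχ' : ContDiff ℝ ∞ (fun w => (χ w : ℂ)) := Complex.ofRealCLM.contDiff.comp hχ
  have hcont : Continuous (Pl.dbar (fun w => (χ w : ℂ))) := by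
    rw [← continuousOn_univ]
    exact Pl.continuousOn_dbar isOpen_univ (hχ'.of_le (by norm_cast)).contDiffOn
  have hoff : ∀ z, z ∉ tsupport χ → Pl.dbar (fun w => (χ w : ℂ)) z = 0 := by
    intro z hz
    have h1 : (fun w => (χ w : ℂ)) =ᶠ[𝓝 z] fun _ => 0 := by
      filter_upwards [(isClosed_tsupport χ).isOpen_compl.mem_nhds hz] with w hw
      rw [image_eq_zero_of_notMem_tsupport hw, Complex.ofReal_zero]
    rw [Pl.dbar_congr h1]
    exact Pl.dbar_eq_zero (differentiableAt_const _)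
  have hcs : HasCompactSupport (Pl.dbar (fun w => (χ w : ℂ))) :=
    HasCompactSupport.intro hc hoff
  obtain ⟨B, hB⟩ := hcs.exists_bound_of_continuous hcont
  have hB0 : 0 ≤ B := (norm_nonneg _).trans (hB 0)
  refine ⟨B, hB0, fun O y => ⟨?_, fun w => ?_, fun w hw => ?_, measurableSet_closedBall,
    (isCompact_closedBall (0 : ℂ) 1).measure_lt_top.ne⟩⟩
  · -- measurability
    have ht : ball (0 : ℂ) 1 ⊆ c.e.target :=
      (ball_subset_closedBall.trans (closedBall_subset_closedBall (by norm_num))).trans c.sub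
    have hO' : IsOpen (ball (0 : ℂ) 1 ∩ c.e.symm ⁻¹' (O : Set R)) :=
      (c.e.symm.continuousOn.mono ht).isOpen_inter_preimage isOpen_ball O.isOpen
    have hy : ContinuousOn (fun z => y.fn (c.e.symm z))
        (ball (0 : ℂ) 1 ∩ c.e.symm ⁻¹' (O : Set R)) :=
      y.fn_hol.continuousOn.comp (c.e.symm.continuousOn.mono (inter_subset_left.trans ht))
        (fun z hz => hz.2)
    have h1 : ContinuousOn (ydens c χ y.fn) (ball (0 : ℂ) 1 ∩ c.e.symm ⁻¹' (O : Set R)) :=
      hcont.continuousOn.mul hy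
    have h2 : (ball (0 : ℂ) 1 ∩ c.e.symm ⁻¹' (O : Set R)).indicator (ydens c χ y.fn) =
        ydens c χ y.fn := by
      rw [indicator_eq_self]
      intro z hz
      have h3 : ydens c χ y.fn z ≠ 0 := hz
      unfold ydens at h3
      refine ⟨?_, ?_⟩
      · by_contra hcon
        exact h3 (by rw [hoff z (fun h => hcon (hs z h)), zero_mul])
      · by_contra hcon
        exact h3 (by rw [y.fn_off (show c.e.symm z ∉ O from hcon), mul_zero])
    rw [← h2]
    exact (aestronglyMeasurable_indicator_iff hO'.measurableSet).2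
      (h1.aestronglyMeasurable hO'.measurableSet)
  · unfold ydens
    rw [norm_mul]
    exact mul_le_mul (hB w) (y.fn_le _) (norm_nonneg _) hB0
  · unfold ydens
    rw [hoff w (fun h => hw (ball_subset_closedBall (hs w h))), zero_mul]

end Pool.Agent.W_4d259d_h6
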