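import Pool.Agent.W_4d259d_h6.Kk
import Pool.Agent.W_4d259d_h6.PolM
import Pool.Agent.W_4d259d_h6.GhP

/-!
# The solution operator for `∂̄` on a relatively compact open set
-/

noncomputable section

namespace Pool.Agent.W_4d259d_h6

open Set Filter Topology Manifold TopologicalSpace Metric MeasureTheory
open scoped ContDiff Real ENNReal
open Pool.Agent.W_4d259d_h46 Pool.Agent.W_4d259d_h46.Defs

variable {R : Type*} [TopologicalSpace R] [ChartedSpace ℂ R] [T2Space R]
  [IsManifold (modelWithCornersSelf ℂ ℂ) ω R]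

/-- All bounded functions, with the sup norm. -/
abbrev BB (R : Type*) : Type _ := ↥(lp (fun _ : R => ℂ) ∞)

namespace Sys

variable (S : Sys R)

/-- The operator `P` on tuples of continuous functions (`LinearMap.mkContinuous`, bound `Ph_le`
with `dn_den`, linearity by `dn_add`, `Pl.T_add`). -/
theorem exists_P : ∃ P : C(S.XX, ℂ) →L[ℂ] BB R,
    ∀ f q, (P f : R → ℂ) q = S.Ph (fun k => Pl.T (S.dn f k)) q := by
  have hb : ∀ (f : C(S.XX, ℂ)) (q : R),
      ‖S.Ph (fun k => Pl.T (S.dn f k)) q‖ ≤ 4 * S.m * ‖f‖ := fun f q =>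
    S.Ph_le (norm_nonneg f) (S.dn_den f) q
  have hmem : ∀ f : C(S.XX, ℂ), Memℓp (fun q : R => S.Ph (fun k => Pl.T (S.dn f k)) q) ∞ := by
    intro f
    refine memℓp_infty ⟨4 * S.m * ‖f‖, ?_⟩
    rintro _ ⟨q, rfl⟩
    exact hb f q
  let L : C(S.XX, ℂ) →ₗ[ℂ] BB R :=
    { toFun := fun f => ⟨fun q : R => S.Ph (fun k => Pl.T (S.dn f k)) q, hmem f⟩
      map_add' := by
        intro f f'
        apply lp.ext
        funext q
        rw [lp.coeFn_add]
        change S.Ph (fun k => Pl.T (S.dn (f + f') k)) q =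
          S.Ph (fun k => Pl.T (S.dn f k)) q + S.Ph (fun k => Pl.T (S.dn f' k)) q
        unfold Ph
        rw [← Finset.sum_add_distrib]
        refine Finset.sum_congr rfl fun k _ => ?_
        have h1 : S.dn (f + f') k = fun z => S.dn f k z + S.dn f' k z :=
          funext fun z => S.dn_add f f' k z
        beta_reduce
        rw [h1, Pl.T_add (S.dn_den f k) (S.dn_den f' k), mul_add]
      map_smul' := by
        intro a f
        apply lp.ext
        funext q
        rw [lp.coeFn_smul]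
        change S.Ph (fun k => Pl.T (S.dn (a • f) k)) q =
          a * S.Ph (fun k => Pl.T (S.dn f k)) q
        unfold Ph
        rw [Finset.mul_sum]
        refine Finset.sum_congr rfl fun k _ => ?_
        have h1 : S.dn (a • f) k = fun z => a • S.dn f k z :=
          funext fun z => S.dn_smul a f k z
        beta_reduce
        rw [h1, Pl.T_smul, smul_eq_mul]
        ring }
  refine ⟨L.mkContinuous (4 * S.m) fun f => ?_, fun f q => rfl⟩
  exact lp.norm_le_of_forall_le (by positivity) (fun q => hb f q)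

/-- The pairs `(u, τ)` with `u` bounded and `∂̄ u = τ`. -/
def SolM : Submodule ℂ (BB R × C(S.XX, ℂ)) where
  carrier := {x | S.Sol (x.1 : R → ℂ) (S.dn x.2)}
  add_mem' := by
    intro x y hx hy
    have h := Sol.add S (S.dn_den x.2) (S.dn_den y.2) hx hy
    have h1 : S.dn (x + y).2 = fun i z => S.dn x.2 i z + S.dn y.2 i z := by
      funext i z
      exact S.dn_add _ _ i z
    have h2 : (((x + y).1 : BB R) : R → ℂ) = fun q => (x.1 : R → ℂ) q + (y.1 : R → ℂ) q := by
      funext q
      exact congrFun (lp.coeFn_add x.1 y.1) q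
    change S.Sol (((x + y).1 : BB R) : R → ℂ) (S.dn (x + y).2)
    rw [h1, h2]
    exact h
  zero_mem' := by
    change S.Sol (((0 : BB R × C(S.XX, ℂ)).1 : BB R) : R → ℂ) (S.dn (0 : BB R × C(S.XX, ℂ)).2)
    intro p _
    have h0 : ∀ (i : Fin S.m) (z : ℂ), Pl.T (S.dn (0 : C(S.XX, ℂ)) i) z = 0 := by
      intro i z
      have h1 : S.dn (0 : C(S.XX, ℂ)) i = fun z => (0 : ℂ) • S.dn (0 : C(S.XX, ℂ)) i z := by
        funext z
        have := S.dn_smul 0 (0 : C(S.XX, ℂ)) i z
        rw [smul_zero] at this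
        exact this
      rw [h1, Pl.T_smul, zero_smul]
    have h1 : (fun q => (((0 : BB R × C(S.XX, ℂ)).1 : BB R) : R → ℂ) q -
        ∑ i ∈ S.I p, Pl.T (S.dn (0 : BB R × C(S.XX, ℂ)).2 i) ((S.c i).e q)) = fun _ => 0 := by
      funext q
      have h2 : (0 : BB R × C(S.XX, ℂ)).2 = 0 := rfl
      rw [h2, Finset.sum_eq_zero (fun i _ => h0 i _), sub_zero]
      rfl
    rw [h1]
    exact HA.const 0 p
  smul_mem' := by
    intro a x hx
    have h := Sol.smul S a hx
    have h1 : S.dn (a • x).2 = fun i z => a * S.dn x.2 i z := by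
      funext i z
      exact S.dn_smul _ _ i z
    have h2 : (((a • x).1 : BB R) : R → ℂ) = fun q => a * (x.1 : R → ℂ) q := by
      funext q
      exact congrFun (lp.coeFn_smul a x.1) q
    change S.Sol (((a • x).1 : BB R) : R → ℂ) (S.dn (a • x).2)
    rw [h1, h2]
    exact h

theorem mem_SolM {u : BB R} {τ : C(S.XX, ℂ)} :
    (u, τ) ∈ S.SolM ↔ S.Sol (u : R → ℂ) (S.dn τ) := Iff.rfl

/-- Every tuple of continuous functions has a bounded solution, depending linearly and
boundedly on it. -/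
theorem exists_V [ConnectedSpace R] [NoncompactSpace R] :
    ∃ V : C(S.XX, ℂ) →L[ℂ] BB R, ∀ τ, S.Sol (V τ : R → ℂ) (S.dn τ) := by
  obtain ⟨P, hP⟩ := S.exists_P
  obtain ⟨V, hV⟩ := exists_solution_operator S.nu S.kap S.SolM P (fun f => by
    rw [mem_SolM]
    have h1 := S.sol_P (S.dn_den f)
    have h2 : (P f : R → ℂ) = S.Ph fun k => Pl.T (S.dn f k) := funext fun q => hP f q
    rw [h2, KK_eq]
    have h3 : S.dn (f + S.Kh fun k => Pl.T (S.dn f k))
        = fun i z => S.dn f i z + S.dn (S.Kh fun k => Pl.T (S.dn f k)) i z := by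
      funext i z
      exact S.dn_add _ _ i z
    rw [h3]
    exact h1) (fun μ hμ y => by
    have h4 : S.kap y = ((π : ℂ)⁻¹) • S.pol (S.c y.1) y.2 := rfl
    rw [h4, map_smul]
    have h5 : μ (S.pol (S.c y.1) y.2) = 0 := by
      refine S.mu_pol μ (fun u hu τ hs => ?_) _ (mem_closedBall_zero_iff.1 y.2.2)
      obtain ⟨M, hM⟩ := hu
      let u' : BB R := ⟨u, memℓp_infty ⟨M, by rintro _ ⟨q, rfl⟩; exact hM q⟩⟩
      exact hμ u' τ hs
    rw [h5, smul_zero])
  exact ⟨V, fun τ => hV τ⟩

end Sys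

end Pool.Agent.W_4d259d_h6
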