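import Pool.Agent.W_4d259d_h6.VV

/-!
# The solution operator for densities
-/

noncomputable section

namespace Pool.Agent.W_4d259d_h6

open Set Filter Topology Manifold TopologicalSpace Metric MeasureTheory
open scoped ContDiff Real ENNReal
open Pool.Agent.W_4d259d_h46 Pool.Agent.W_4d259d_h46.Defs

variable {R : Type*} [TopologicalSpace R] [ChartedSpace ℂ R] [T2Space R]
  [IsManifold (modelWithCornersSelf ℂ ℂ) ω R]

namespace Sys

variable (S : Sys R)

omit [T2Space R] [IsManifold (modelWithCornersSelf ℂ ℂ) ω R] in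
private theorem VV2_den_add {t t' : Fin S.m → ℂ → ℂ} {M M' : ℝ} (h : S.Den t M)
    (h' : S.Den t' M') : S.Den (fun i z => t i z + t' i z) (M + M') := fun i =>
  { meas := (h i).meas.add (h' i).meas
    le := fun w => (norm_add_le _ _).trans (add_le_add ((h i).le w) ((h' i).le w))
    off := fun w hw => by
      show t i w + t' i w = 0
      rw [(h i).off w hw, (h' i).off w hw, add_zero]
    mS := (h i).mS
    fin := (h i).fin }

private theorem VV2_Ph_add {t t' : Fin S.m → ℂ → ℂ} {M M' : ℝ} (h : S.Den t M)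
    (h' : S.Den t' M') (q : R) : S.Ph (fun k => Pl.T fun z => t k z + t' k z) q =
      S.Ph (fun k => Pl.T (t k)) q + S.Ph (fun k => Pl.T (t' k)) q := by
  unfold Ph
  rw [← Finset.sum_add_distrib]
  refine Finset.sum_congr rfl fun k _ => ?_
  have h1 := Pl.T_add (h k) (h' k) ((S.c k).e q)
  simp only
  rw [h1]
  ring

private theorem VV2_Kh_add {t t' : Fin S.m → ℂ → ℂ} {M M' : ℝ} (h : S.Den t M)
    (h' : S.Den t' M') : S.Kh (fun k => Pl.T fun z => t k z + t' k z) =
      S.Kh (fun k => Pl.T (t k)) + S.Kh (fun k => Pl.T (t' k)) := by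
  unfold Kh
  rw [← Finset.sum_add_distrib]
  refine Finset.sum_congr rfl fun k _ => ?_
  rw [← S.Gh_add (S.c k) (Ext1.T (h k)) (Ext1.T (h' k))]
  congr 1
  funext z
  exact Pl.T_add (h k) (h' k) z

private theorem VV2_Ph_smul (a : ℂ) (t : Fin S.m → ℂ → ℂ) (q : R) :
    S.Ph (fun k => Pl.T fun z => a * t k z) q = a * S.Ph (fun k => Pl.T (t k)) q := by
  unfold Ph
  rw [Finset.mul_sum]
  refine Finset.sum_congr rfl fun k _ => ?_
  have h1 : Pl.T (fun z => a * t k z) ((S.c k).e q) = a * Pl.T (t k) ((S.c k).e q) :=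
    Pl.T_smul a (t k) _
  simp only
  rw [h1]
  ring

private theorem VV2_Kh_smul (a : ℂ) {t : Fin S.m → ℂ → ℂ} {M : ℝ} (h : S.Den t M) :
    S.Kh (fun k => Pl.T fun z => a * t k z) = a • S.Kh (fun k => Pl.T (t k)) := by
  unfold Kh
  rw [Finset.smul_sum]
  refine Finset.sum_congr rfl fun k _ => ?_
  rw [← S.Gh_smul (S.c k) a (Ext1.T (h k))]
  congr 1
  funext z
  exact Pl.T_smul a (t k) z

/-- The solution operator for bounded measurable densities on the unit discs:
`VV t = Ph (T t) - V (Kh (T t))`, with `V` from `exists_V`; `sol_P`, `Sol.sub`, `Ph_le`, `Kh_le`,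
linearity by `Pl.T_add`, `Pl.T_smul`, `Gh_add`, `Gh_smul`. -/
theorem exists_VV [ConnectedSpace R] [NoncompactSpace R] :
    ∃ (C : ℝ) (VV : (Fin S.m → ℂ → ℂ) → R → ℂ), 0 ≤ C ∧
      (∀ t M, 0 ≤ M → S.Den t M → S.Sol (VV t) t ∧ ∀ q, ‖VV t q‖ ≤ C * M) ∧
      (∀ t t' M M', S.Den t M → S.Den t' M' → ∀ q,
        VV (fun i z => t i z + t' i z) q = VV t q + VV t' q) ∧
      ∀ (a : ℂ) t M, S.Den t M → ∀ q, VV (fun i z => a * t i z) q = a * VV t q := by
  obtain ⟨V, hV⟩ := S.exists_V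
  obtain ⟨CK, hCK0, hCK⟩ := S.Kh_le
  refine ⟨4 * S.m + ‖V‖ * CK, fun t q => S.Ph (fun k => Pl.T (t k)) q -
    (V (S.Kh fun k => Pl.T (t k)) : R → ℂ) q, by positivity, ?_, ?_, ?_⟩
  · intro t M hM ht
    refine ⟨?_, fun q => ?_⟩
    · have h1 := Sol.sub (S := S) (VV2_den_add S ht (S.dn_den (S.Kh fun k => Pl.T (t k))))
        (S.dn_den (S.Kh fun k => Pl.T (t k))) (S.sol_P ht) (hV (S.Kh fun k => Pl.T (t k)))
      have h2 : (fun (i : Fin S.m) (z : ℂ) => t i z + S.dn (S.Kh fun k => Pl.T (t k)) i z -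
          S.dn (S.Kh fun k => Pl.T (t k)) i z) = t := by
        funext i z
        exact add_sub_cancel_right _ _
      rw [h2] at h1
      exact h1
    · have h1 := S.Ph_le hM ht q
      have h2 : ‖(V (S.Kh fun k => Pl.T (t k)) : R → ℂ) q‖ ≤ ‖V‖ * (CK * M) :=
        (lp.norm_apply_le_norm ENNReal.top_ne_zero _ q).trans
          ((V.le_opNorm _).trans (mul_le_mul_of_nonneg_left (hCK t M hM ht) (norm_nonneg _)))
      refine (norm_sub_le _ _).trans ((add_le_add h1 h2).trans (le_of_eq ?_))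
      ring
  · intro t t' M M' ht ht' q
    show S.Ph (fun k => Pl.T fun z => t k z + t' k z) q -
      (V (S.Kh fun k => Pl.T fun z => t k z + t' k z) : R → ℂ) q = _
    rw [VV2_Ph_add S ht ht', VV2_Kh_add S ht ht', map_add, lp.coeFn_add, Pi.add_apply]
    ring
  · intro a t M ht q
    show S.Ph (fun k => Pl.T fun z => a * t k z) q -
      (V (S.Kh fun k => Pl.T fun z => a * t k z) : R → ℂ) q = _
    rw [VV2_Ph_smul S a t, VV2_Kh_smul S a ht, map_smul, lp.coeFn_smul, Pi.smul_apply,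
      smul_eq_mul]
    ring

end Sys

end Pool.Agent.W_4d259d_h6
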