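import Pool.Agent.W_4d259d_h6.Dc
import Pool.Agent.W_4d259d_h44.Base

/-!
# Functions with one zero, from the splitting
-/

noncomputable section

namespace Pool.Agent.W_4d259d_h6

open Set Filter Topology Manifold TopologicalSpace Metric MeasureTheory
open scoped ContDiff Real ENNReal
open Pool.Agent.W_4d259d_h46 Pool.Agent.W_4d259d_h46.Defs Pool.Agent.W_4d259d_h44

variable (R : Type*) [TopologicalSpace R] [ChartedSpace ℂ R]

/-- The splitting property. -/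
def SplitProp : Prop :=
  ∀ e ∈ DChart R, ∀ N1 N WA : Opens R,
    closure (N1 : Set R) ⊆ N → closure (N : Set R) ⊆ unitOf e → IsCompact (closure (WA : Set R)) →
    ∃ (SA : HB (WA ⊓ N) ℂ →L[ℂ] HB WA ℂ) (SB : HB (WA ⊓ N) ℂ →L[ℂ] HB (N1 ⊔ (WA ⊓ N)) ℂ),
      ∀ y : HB (WA ⊓ N) ℂ, ∀ z ∈ WA ⊓ N, y.fn z = (SA y).fn z - (SB y).fn z

variable {R}

/-- `q` is holomorphic on `W`, with no zero in `W` except a simple one at `p` (if `p ∈ W`). -/
structure OZ (W : Opens R) (p : R) (q : R → ℂ) : Prop where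
  hol : HolOn ℂ q W
  ne : ∀ z ∈ W, q z = 0 → z = p
  simple : p ∈ W → SimpleZero q p

/-- The planar function `log ((z-a)/(z-b))` on `‖z‖ > 1/2`, `‖a‖, ‖b‖ < 1/2`. -/
def lgab (a b z : ℂ) : ℂ := Complex.log ((z - a) / (z - b))

theorem lgab_near {a b z : ℂ} (hb : ‖b‖ < 1 / 8) (ha : ‖a‖ < 1 / 8) (hz : 1 / 2 < ‖z‖) :
    z - b ≠ 0 ∧ ‖(z - a) / (z - b) - 1‖ ≤ 2 / 3 := by
  have h1 : 3 / 8 < ‖z - b‖ := by
    have h2 : ‖z‖ ≤ ‖z - b‖ + ‖b‖ := by
      calc ‖z‖ = ‖(z - b) + b‖ := by rw [sub_add_cancel]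
        _ ≤ _ := norm_add_le _ _
    linarith
  have h2 : z - b ≠ 0 := by
    intro h
    rw [h, norm_zero] at h1
    linarith
  refine ⟨h2, ?_⟩
  have e : (z - a) / (z - b) - 1 = (b - a) / (z - b) := by
    field_simp
    ring
  rw [e, norm_div, div_le_iff₀ (by linarith)]
  have h3 : ‖b - a‖ ≤ ‖b‖ + ‖a‖ := norm_sub_le _ _
  linarith

/-- It is holomorphic there: `(z-a)/(z-b) = (1 - a/z)/(1 - b/z)` and both `1 - a/z`, `1 - b/z` have
positive real part... (for `‖a‖, ‖b‖ < 1/4` and `‖z‖ > 1/2`: `‖(z-a)/(z-b) - 1‖ = ‖b-a‖/‖z-b‖ < 1`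
if `‖a - b‖ < 1/4 < ‖z - b‖`). -/
theorem lgab_diff {a b : ℂ} (hb : ‖b‖ < 1 / 8) (ha : ‖a‖ < 1 / 8) :
    DifferentiableOn ℂ (lgab a b) {z | 1 / 2 < ‖z‖} ∧
      (∀ z, 1 / 2 < ‖z‖ → Complex.exp (lgab a b z) = (z - a) / (z - b)) ∧
      ∀ z, 1 / 2 < ‖z‖ → ‖lgab a b z‖ ≤ 4 := by
  have hslit : ∀ z, 1 / 2 < ‖z‖ → (z - a) / (z - b) ∈ Complex.slitPlane := by
    intro z hz
    obtain ⟨-, h1⟩ := lgab_near hb ha hz
    left
    have h2 := (Complex.abs_re_le_norm ((z - a) / (z - b) - 1)).trans h1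
    rw [Complex.sub_re, Complex.one_re] at h2
    have h3 := (abs_le.1 h2).1
    linarith
  refine ⟨?_, ?_, ?_⟩
  · intro z hz
    have hz' : 1 / 2 < ‖z‖ := hz
    obtain ⟨h0, -⟩ := lgab_near hb ha hz'
    refine DifferentiableAt.differentiableWithinAt ?_
    refine DifferentiableAt.clog ?_ (hslit z hz')
    exact (differentiableAt_id.sub_const a).div (differentiableAt_id.sub_const b) h0
  · intro z hz
    exact Complex.exp_log (Complex.slitPlane_ne_zero (hslit z hz))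
  · intro z hz
    obtain ⟨-, h1⟩ := lgab_near hb ha hz
    have h2 := Complex.norm_log_one_add_le (z := (z - a) / (z - b) - 1) (by linarith)
    rw [add_sub_cancel] at h2
    refine h2.trans ?_
    set t := ‖(z - a) / (z - b) - 1‖ with ht
    have ht0 : 0 ≤ t := norm_nonneg _
    have h3 : (1 - t)⁻¹ ≤ 3 := by
      rw [inv_le_comm₀ (by linarith) (by norm_num)]
      linarith
    have h4 : t ^ 2 ≤ 1 := by nlinarith
    have h5 : t ^ 2 * (1 - t)⁻¹ ≤ 1 * 3 :=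
      mul_le_mul h4 h3 (inv_nonneg.2 (by linarith)) (by norm_num)
    linarith

end Pool.Agent.W_4d259d_h6
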