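import Pool.Agent.W_4d259d_h6.ZerA

/-!
# The additive Cousin problem
-/

noncomputable section

namespace Pool.Agent.W_4d259d_h6

open Set Filter Topology Manifold TopologicalSpace Metric MeasureTheory
open scoped ContDiff Real ENNReal
open Pool.Agent.W_4d259d_h46 Pool.Agent.W_4d259d_h46.Defs Pool.Agent.W_4d259d_h44

variable {R : Type*} [TopologicalSpace R] [ChartedSpace ℂ R] [T2Space R]
  [IsManifold (modelWithCornersSelf ℂ ℂ) ω R]

/-- The additive Cousin problem for `log ((z-a)/(z-b))`.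
Proof: the splitting with `N = e⁻¹(ball 0 (7/8))`, `N1 = e⁻¹(ball 0 (3/4))`, `WA = W ∖ c.cl (1/2)`,
applied to `y = lgab a b ∘ c.e` on `WA ⊓ N` (bounded by 4, `lgab_diff`); `A1 = (SA y).fn`,
`A2 = (SB y).fn`; `holOn_iff_HA`. -/
theorem exists_cousin (hS : SplitProp R) (c : DiscChart R) {a b : ℂ} (ha : ‖a‖ < 1 / 8)
    (hb : ‖b‖ < 1 / 8) (W : Opens R) (hW : IsCompact (closure (W : Set R))) :
    ∃ A1 A2 : R → ℂ, (∀ p ∈ W, p ∉ c.cl (1 / 2) → HA A1 p) ∧ (∀ p ∈ W, p ∈ c.op (3 / 4) → HA A2 p) ∧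
      ∀ p ∈ W, p ∉ c.cl (1 / 2) → p ∈ c.op (3 / 4) → A1 p - A2 p = lgab a b (c.e p) := by
  obtain ⟨hl1, hl2, hl3⟩ := lgab_diff hb ha
  have hlo : IsOpen {z : ℂ | 1 / 2 < ‖z‖} := isOpen_lt continuous_const continuous_norm
  let N : Opens R := ⟨c.op (7 / 8), c.isOpen_op _⟩
  let N1 : Opens R := ⟨c.op (3 / 4), c.isOpen_op _⟩
  let WA : Opens R := ⟨(W : Set R) \ c.cl (1 / 2), W.2.sdiff (c.isClosed_cl (by norm_num))⟩
  have hcl : ∀ r : ℝ, r ≤ 3 → closure (c.op r) ⊆ c.cl r := by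
    intro r hr
    refine closure_minimal (fun p hp => ⟨hp.1, hp.2.le⟩) (c.isClosed_cl hr)
  have h1 : closure (N1 : Set R) ⊆ N := by
    intro p hp
    have h2 := hcl (3 / 4) (by norm_num) hp
    exact ⟨h2.1, h2.2.trans_lt (by norm_num)⟩
  have h2 : closure (N : Set R) ⊆ unitOf c.e := by
    intro p hp
    have h2 := hcl (7 / 8) (by norm_num) hp
    refine ⟨c.e p, ?_, c.e.left_inv h2.1⟩
    rw [mem_ball_zero_iff]
    exact h2.2.trans_lt (by norm_num)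
  have h3 : IsCompact (closure (WA : Set R)) :=
    hW.of_isClosed_subset isClosed_closure (closure_mono sdiff_subset)
  obtain ⟨SA, SB, hSAB⟩ := hS c.e ⟨c.mem, c.sub⟩ N1 N WA h1 h2 h3
  have hbig : ∀ p ∈ (WA ⊓ N : Opens R), p ∈ c.e.source ∧ 1 / 2 < ‖c.e p‖ := by
    intro p hp
    have h4 : p ∈ c.e.source := hp.2.1
    refine ⟨h4, ?_⟩
    by_contra h5
    exact hp.1.2 ⟨h4, not_lt.mp h5⟩
  have hhol : HolOn ℂ (fun p => lgab a b (c.e p)) (WA ⊓ N : Opens R) := by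
    refine (holOn_iff_HA (WA ⊓ N).isOpen).mpr ?_
    intro p hp
    obtain ⟨h4, h5⟩ := hbig p hp
    exact HA.comp_chart c.mem h4 (hl1.analyticAt (hlo.mem_nhds h5))
  let y : HB (WA ⊓ N) ℂ := HB.mk (fun p => lgab a b (c.e p)) hhol 4
    (fun p hp => hl3 _ (hbig p hp).2)
  refine ⟨(SA y).fn, (SB y).fn, ?_, ?_, ?_⟩
  · intro p hp hpc
    exact (holOn_iff_HA WA.isOpen).mp (SA y).fn_hol p ⟨hp, hpc⟩
  · intro p hp hpc
    refine (holOn_iff_HA (N1 ⊔ (WA ⊓ N)).isOpen).mp (SB y).fn_hol p ?_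
    exact Or.inl hpc
  · intro p hp hpc hpo
    have h4 : p ∈ (WA ⊓ N : Opens R) := ⟨⟨hp, hpc⟩, ⟨hpo.1, hpo.2.trans (by norm_num)⟩⟩
    rw [← hSAB y p h4]
    exact HB.mk_fn _ _ _ _ h4

end Pool.Agent.W_4d259d_h6
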