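import Pool.Agent.W_4d259d_h6.ZerA

/-!
# Division by a simple zero
-/

noncomputable section

namespace Pool.Agent.W_4d259d_h6

open Set Filter Topology Manifold TopologicalSpace Metric MeasureTheory
open scoped ContDiff Real ENNReal
open Pool.Agent.W_4d259d_h46 Pool.Agent.W_4d259d_h46.Defs Pool.Agent.W_4d259d_h44

variable {R : Type*} [TopologicalSpace R] [ChartedSpace ℂ R] [T2Space R]
  [IsManifold (modelWithCornersSelf ℂ ℂ) ω R]

/-- Division of a function with a simple zero: near every point of `W ∩ c.op 3`,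
`q = (c.e - b) g` with `g` holomorphic and nonvanishing.
Proof: `g p = q p / (c.e p - b)` off `p0 = c.e.symm b`, `g p0 = deriv (q ∘ c.e.symm) b`
(`dslope (q ∘ c.e.symm) b` in the chart). -/
theorem exists_quot (c : DiscChart R) {b : ℂ} (hb : ‖b‖ < 1 / 8) {W : Opens R} {q : R → ℂ}
    (hq : OZ W (c.e.symm b) q) :
    ∃ g : R → ℂ, (∀ p ∈ W, p ∈ c.op 3 → HA g p ∧ g p ≠ 0) ∧
      ∀ p ∈ W, p ∈ c.op 3 → q p = (c.e p - b) * g p := by
  classical
  have hb3 : ‖b‖ ≤ 3 := by linarith
  obtain ⟨hbs, hbe⟩ := c.symm_mem hb3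
  have hqHA : ∀ p ∈ W, HA q p := (holOn_iff_HA W.isOpen).mp hq.hol
  by_cases hp0 : c.e.symm b ∈ W
  · set u : ℂ → ℂ := fun z => q (c.e.symm z) with hu
    set D : Set ℂ := c.e.target ∩ c.e.symm ⁻¹' (W : Set R) with hD
    have hDo : IsOpen D := c.e.isOpen_inter_preimage_symm W.2
    have hbD : b ∈ D := ⟨c.sub (mem_closedBall_zero_iff.2 hb3), hp0⟩
    have hud : DifferentiableOn ℂ u D := by
      intro z hz
      have h1 := hqHA _ hz.2 c.e c.mem (c.e.map_target hz.1)
      rw [c.e.right_inv hz.1] at h1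
      exact h1.differentiableAt.differentiableWithinAt
    have hdd : DifferentiableOn ℂ (dslope u b) D :=
      (Complex.differentiableOn_dslope (hDo.mem_nhds hbD)).mpr hud
    have hub : u b = 0 := (hq.simple hp0).1
    have hmul : ∀ p ∈ c.e.source, q p = (c.e p - b) * dslope u b (c.e p) := by
      intro p hp
      have h1 := sub_smul_dslope u b (c.e p)
      rw [hub, sub_zero, smul_eq_mul] at h1
      rw [h1]
      simp only [hu]
      rw [c.e.left_inv hp]
    refine ⟨fun p => dslope u b (c.e p), fun p hp hp3 => ⟨?_, ?_⟩, fun p _ hp3 => hmul p hp3.1⟩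
    · refine HA.comp_chart c.mem hp3.1 ?_
      refine hdd.analyticAt (hDo.mem_nhds ⟨c.e.map_source hp3.1, ?_⟩)
      rw [mem_preimage, c.e.left_inv hp3.1]
      exact hp
    · by_cases hpb : p = c.e.symm b
      · subst hpb
        change dslope u b (c.e (c.e.symm b)) ≠ 0
        rw [hbe, dslope_same]
        have h1 := (hq.simple hp0).2 c.e c.mem hbs
        rwa [hbe] at h1
      · intro h0
        have h0' : dslope u b (c.e p) = 0 := h0
        have h1 := hmul p hp3.1
        rw [h0', mul_zero] at h1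
        exact hpb (hq.ne p hp h1)
  · have hne : ∀ p ∈ W, p ∈ c.op 3 → c.e p - b ≠ 0 := by
      intro p hp hp3 h0
      have h1 : c.e p = b := sub_eq_zero.mp h0
      have h2 : p = c.e.symm b := by rw [← h1, c.e.left_inv hp3.1]
      exact hp0 (h2 ▸ hp)
    refine ⟨fun p => q p * (c.e p - b)⁻¹, fun p hp hp3 => ⟨?_, ?_⟩, fun p hp hp3 => ?_⟩
    · refine (hqHA p hp).mul (HA.inv ?_ (hne p hp hp3))
      refine HA.sub ?_ (HA.const b p)
      exact HA.comp_chart (f := fun z => z) c.mem hp3.1 analyticAt_id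
    · refine mul_ne_zero ?_ (inv_ne_zero (hne p hp hp3))
      intro h0
      have h1 := hq.ne p hp h0
      exact hp0 (h1 ▸ hp)
    · have := hne p hp hp3
      field_simp

end Pool.Agent.W_4d259d_h6
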