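import Pool.Agent.W_4d259d_h6.ZerB
import Pool.Agent.W_4d259d_h6.ZerC

/-!
# Moving the zero
-/

noncomputable section

namespace Pool.Agent.W_4d259d_h6

open Set Filter Topology Manifold TopologicalSpace Metric MeasureTheory
open scoped ContDiff Real ENNReal
open Pool.Agent.W_4d259d_h46 Pool.Agent.W_4d259d_h46.Defs Pool.Agent.W_4d259d_h44

variable {R : Type*} [TopologicalSpace R] [ChartedSpace ℂ R] [T2Space R]
  [IsManifold (modelWithCornersSelf ℂ ℂ) ω R]

/-- Moving the zero inside a small disc.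
`q' = q exp(A1)` off `c.cl (1/2)`, `q' = (c.e - a) g exp(A2)` on `c.cl (1/2)`; the second formula
holds on `W ∩ c.op (3/4)` since `exp (A1 - A2) = (z-a)/(z-b)` there. -/
theorem exists_move (hS : SplitProp R) (c : DiscChart R) {a b : ℂ} (ha : ‖a‖ < 1 / 8)
    (hb : ‖b‖ < 1 / 8) (W : Opens R) (hW : IsCompact (closure (W : Set R))) {q : R → ℂ}
    (hq : OZ W (c.e.symm b) q) : ∃ q' : R → ℂ, OZ W (c.e.symm a) q' := by
  classical
  obtain ⟨hl1, hl2, hl3⟩ := lgab_diff hb ha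
  obtain ⟨g, hg1, hg2⟩ := exists_quot c hb hq
  obtain ⟨A1, A2, hA1, hA2, hA⟩ := exists_cousin hS c ha hb W hW
  have hqHA : ∀ p ∈ W, HA q p := (holOn_iff_HA W.isOpen).mp hq.hol
  have hb3 : ‖b‖ ≤ 3 := by linarith
  have ha3 : ‖a‖ ≤ 3 := by linarith
  obtain ⟨hbs, hbe⟩ := c.symm_mem hb3
  obtain ⟨has, hae⟩ := c.symm_mem ha3
  have hop3 : ∀ p, p ∈ c.op (3 / 4) → p ∈ c.op 3 := fun p hp => ⟨hp.1, hp.2.trans (by norm_num)⟩
  have hcl_op : ∀ p, p ∈ c.cl (1 / 2) → p ∈ c.op (3 / 4) := fun p hp =>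
    ⟨hp.1, hp.2.trans_lt (by norm_num)⟩
  set q' : R → ℂ := fun p => if p ∈ c.cl (1 / 2) then (c.e p - a) * (g p * Complex.exp (A2 p))
    else q p * Complex.exp (A1 p) with hq'
  have hin : ∀ p ∈ W, p ∈ c.op (3 / 4) → q' p = (c.e p - a) * (g p * Complex.exp (A2 p)) := by
    intro p hp hpo
    by_cases hpc : p ∈ c.cl (1 / 2)
    · simp only [hq', if_pos hpc]
    · simp only [hq', if_neg hpc]
      have hz : 1 / 2 < ‖c.e p‖ := by
        by_contra h5
        exact hpc ⟨hpo.1, not_lt.mp h5⟩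
      have h1 := hl2 (c.e p) hz
      rw [← hA p hp hpc hpo] at h1
      have h2 : c.e p - b ≠ 0 := by
        intro h0
        rw [sub_eq_zero.mp h0] at hz
        linarith
      have h3 : Complex.exp (A1 p) = Complex.exp (A1 p - A2 p) * Complex.exp (A2 p) := by
        rw [← Complex.exp_add, sub_add_cancel]
      rw [h3, h1, hg2 p hp (hop3 p hpo)]
      field_simp
  have hk : ∀ p ∈ W, p ∈ c.op (3 / 4) → HA (fun p => g p * Complex.exp (A2 p)) p ∧
      g p * Complex.exp (A2 p) ≠ 0 := by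
    intro p hp hpo
    refine ⟨(hg1 p hp (hop3 p hpo)).1.mul (hA2 p hp hpo).exp, ?_⟩
    exact mul_ne_zero (hg1 p hp (hop3 p hpo)).2 (Complex.exp_ne_zero _)
  have hev : ∀ p ∈ W, p ∈ c.op (3 / 4) →
      (fun p => (c.e p - a) * (g p * Complex.exp (A2 p))) =ᶠ[𝓝 p] q' := by
    intro p hp hpo
    filter_upwards [W.2.mem_nhds hp, (c.isOpen_op _).mem_nhds hpo] with r hr hr2
    exact (hin r hr hr2).symm
  refine ⟨q', ?_, ?_, ?_⟩
  · refine (holOn_iff_HA W.isOpen).mpr ?_
    intro p hp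
    by_cases hpc : p ∈ c.cl (1 / 2)
    · have hpo := hcl_op p hpc
      refine HA.congr ?_ (hev p hp hpo)
      refine HA.mul (HA.sub ?_ (HA.const a p)) (hk p hp hpo).1
      exact HA.comp_chart (f := fun z => z) c.mem hpc.1 analyticAt_id
    · refine HA.congr ((hqHA p hp).mul (hA1 p hp hpc).exp) ?_
      have h1 : (c.cl (1 / 2))ᶜ ∈ 𝓝 p :=
        (c.isClosed_cl (by norm_num)).isOpen_compl.mem_nhds hpc
      filter_upwards [h1] with r hr
      simp only [hq', if_neg hr]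
  · intro z hz h0
    by_cases hzc : z ∈ c.cl (1 / 2)
    · have hpo := hcl_op z hzc
      rw [hin z hz hpo] at h0
      have h1 := (mul_eq_zero.mp h0).resolve_right (hk z hz hpo).2
      rw [← sub_eq_zero.mp h1, c.e.left_inv hzc.1]
    · simp only [hq', if_neg hzc] at h0
      have h1 := (mul_eq_zero.mp h0).resolve_right (Complex.exp_ne_zero _)
      have h2 := hq.ne z hz h1
      exfalso
      apply hzc
      rw [h2]
      refine ⟨hbs, ?_⟩
      rw [hbe]
      linarith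
  · intro hpW
    set p1 := c.e.symm a with hp1
    have hpo : p1 ∈ c.op (3 / 4) := ⟨has, by rw [hae]; linarith⟩
    refine ⟨by rw [hin p1 hpW hpo, hae, sub_self, zero_mul], ?_⟩
    intro e' he' hpe'
    have h1 : (fun ζ => q' (e'.symm ζ)) =ᶠ[𝓝 (e' p1)]
        fun ζ => (c.e (e'.symm ζ) - a) * (g (e'.symm ζ) * Complex.exp (A2 (e'.symm ζ))) :=
      (comp_symm_congr hpe' (hev p1 hpW hpo)).symm
    rw [h1.deriv_eq]
    have h2 : HasDerivAt (fun ζ => c.e (e'.symm ζ)) (deriv (c.e ∘ e'.symm) (e' p1)) (e' p1) :=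
      (trans_analyticAt he' c.mem hpe' has).differentiableAt.hasDerivAt
    have h3 := ((hk p1 hpW hpo).1 e' he' hpe').differentiableAt.hasDerivAt
    have h4 := (h2.sub_const a).mul h3
    have h5 : deriv (fun ζ => (c.e (e'.symm ζ) - a) * (g (e'.symm ζ) * Complex.exp (A2 (e'.symm ζ))))
        (e' p1) = _ := h4.deriv
    rw [h5]
    simp only [Function.comp_apply]
    rw [e'.left_inv hpe', hae, sub_self, zero_mul, add_zero]
    exact mul_ne_zero (trans_deriv_ne he' c.mem hpe' has) (hk p1 hpW hpo).2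

end Pool.Agent.W_4d259d_h6
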